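import Pool.Agent.Lib.MP_6ff0c5_lc.K.Cyc

/-!
The region of a polygon with holes is the union of the triangles of a family with the right boundary.
-/

set_option autoImplicit false

namespace Pool.Agent.Lib.MP_6ff0c5_lc.K

open Filter Topology

/-- The hypotheses of the covering tool: `T` are the triangles of the polygon, `F k` the triangles that fill the hole
`hole k`, `X` the triangles that fill the space between the outer polygon and a big triangle `Δ`. All polygons are listed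
counterclockwise. -/
structure Data (P : Poly) (s : ℕ) (p : ℕ → Pt) {ι κ ξ : Type} [Fintype ι] [Fintype κ] [Fintype ξ]
    (T : ι → ℕ × ℕ × ℕ) (F : κ → ℕ × ℕ × ℕ) (hole : κ → Fin P.holes.length) (X : ξ → ℕ × ℕ × ℕ)
    (Δ : ℕ × ℕ × ℕ) : Prop where
  pos_eq : ∀ v < P.n, p v = P.pos v
  posT : ∀ i, 0 < otri p (T i)
  posF : ∀ i, 0 < otri p (F i)
  posX : ∀ i, 0 < otri p (X i)
  posΔ : 0 < otri p Δ
  labT : ∀ i v, IsVert (T i) v → v < P.n + s
  used : ∀ v < P.n + s, ∃ i, IsVert (T i) v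
  labΔ : ∀ v, IsVert Δ v → P.n + s ≤ v
  bT : ∀ f : ℕ → ℕ → ℤ, (∀ a b, f b a = -f a b) →
    ∑ i, bsum f (T i) = lsum f (cycEdges P.outer) - (P.holes.map fun c => lsum f (cycEdges c)).sum
  bF : ∀ f : ℕ → ℕ → ℤ, (∀ a b, f b a = -f a b) → ∀ h : Fin P.holes.length,
    ∑ k ∈ Finset.univ.filter (fun k => hole k = h), bsum f (F k) = lsum f (cycEdges (P.holes.get h))
  bX : ∀ f : ℕ → ℕ → ℤ, (∀ a b, f b a = -f a b) → ∑ x, bsum f (X x) = bsum f Δ - lsum f (cycEdges P.outer)
  perm : P.cycles.flatten.Perm (List.range P.n)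
  three : ∀ c ∈ P.cycles, 3 ≤ c.length

/-- all triangles together -/
def fam {ι κ ξ : Type} (T : ι → ℕ × ℕ × ℕ) (F : κ → ℕ × ℕ × ℕ) (X : ξ → ℕ × ℕ × ℕ) :
    ι ⊕ κ ⊕ ξ → ℕ × ℕ × ℕ := Sum.elim T (Sum.elim F X)

/-- a generic point -/
def Gen {ι : Type} (p : ℕ → Pt) (L : ι → ℕ × ℕ × ℕ) (Δ : ℕ × ℕ × ℕ) (x : Pt) : Prop :=
  Off p Δ x ∧ ∀ i, Off p (L i) x

theorem sum_list_get {α : Type*} (l : List α) (g : α → ℤ) : (l.map g).sum = ∑ h : Fin l.length, g (l.get h) := by
  rw [← List.sum_ofFn]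
  congr 1
  apply List.ext_get
  · simp
  · intro n h1 h2; simp

theorem exists_edge {ι : Type*} {s : Finset ι} (L : ι → ℕ × ℕ × ℕ) {a b : ℕ}
    (h : 1 ≤ ∑ i ∈ s, bsum (del a b) (L i)) : ∃ i ∈ s, IsEdge (L i) a b := by
  by_contra hno
  push Not at hno
  have key : ∀ i ∈ s, bsum (del a b) (L i) ≤ 0 := by
    intro i hi
    have h1 : ∀ u v, IsEdge (L i) u v → del a b u v ≤ 0 := by
      intro u v huv
      unfold del
      rw [if_neg]
      · split_ifs <;> norm_num
      · rintro ⟨rfl, rfl⟩; exact hno i hi huv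
    unfold bsum
    have e1 := h1 _ _ (Or.inl ⟨rfl, rfl⟩)
    have e2 := h1 _ _ (Or.inr (Or.inl ⟨rfl, rfl⟩))
    have e3 := h1 _ _ (Or.inr (Or.inr ⟨rfl, rfl⟩))
    linarith
  have := Finset.sum_nonpos key
  linarith

theorem bsum_del_of_notVert {t : ℕ × ℕ × ℕ} {a : ℕ} (b : ℕ) (h : ¬ IsVert t a) : bsum (del a b) t = 0 := by
  have h3 : t.1 ≠ a := fun e => h (Or.inl e.symm)
  have h4 : t.2.1 ≠ a := fun e => h (Or.inr (Or.inl e.symm))
  have h5 : t.2.2 ≠ a := fun e => h (Or.inr (Or.inr e.symm))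
  simp [bsum, del, h3, h4, h5]

theorem del_swap (a b u v : ℕ) : del b a u v = -del a b u v := by unfold del; ring

theorem bsum_del_swap (a b : ℕ) (t : ℕ × ℕ × ℕ) : bsum (del b a) t = -bsum (del a b) t := by
  unfold bsum
  rw [del_swap a b t.1 t.2.1, del_swap a b t.2.1 t.2.2, del_swap a b t.2.2 t.1]; ring

open Classical in
theorem odd_sum_iff {ι : Type*} (s : Finset ι) (Q : ι → Prop) (h : ∀ i ∈ s, ∀ j ∈ s, Q i → Q j → i = j) :
    Odd (∑ i ∈ s, (if Q i then (1 : ℤ) else 0)) ↔ ∃ i ∈ s, Q i := by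
  constructor
  · intro h1
    by_contra hno
    push Not at hno
    rw [Finset.sum_eq_zero fun i hi => if_neg (hno i hi)] at h1
    exact absurd h1 (by decide)
  · rintro ⟨i, hi, hQ⟩
    rw [Finset.sum_eq_single_of_mem i hi fun j hj hji => if_neg fun hQj => hji (h j hj i hi hQj hQ), if_pos hQ]
    exact odd_one

section

variable {P : Poly} {s : ℕ} {p : ℕ → Pt} {ι κ ξ : Type} [Fintype ι] [Fintype κ] [Fintype ξ]
  {T : ι → ℕ × ℕ × ℕ} {F : κ → ℕ × ℕ × ℕ} {hole : κ → Fin P.holes.length} {X : ξ → ℕ × ℕ × ℕ} {Δ : ℕ × ℕ × ℕ}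

theorem sum_fam (f : ℕ → ℕ → ℤ) :
    ∑ j, bsum f (fam T F X j) = (∑ i, bsum f (T i)) + ((∑ k, bsum f (F k)) + ∑ x, bsum f (X x)) := by
  rw [Fintype.sum_sum_type, Fintype.sum_sum_type]
  rfl

theorem Data.sumF (D : Data P s p T F hole X Δ) {f : ℕ → ℕ → ℤ} (hf : ∀ a b, f b a = -f a b) :
    ∑ k, bsum f (F k) = (P.holes.map fun c => lsum f (cycEdges c)).sum := by
  rw [sum_list_get, ← Finset.sum_fiberwise Finset.univ hole fun k => bsum f (F k)]
  exact Finset.sum_congr rfl fun h _ => D.bF f hf h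

theorem Data.full (D : Data P s p T F hole X Δ) : Full p (fam T F X) Δ where
  pos := by
    rintro (i | k | x)
    · exact D.posT i
    · exact D.posF k
    · exact D.posX x
  posΔ := D.posΔ
  bdry := by
    intro f hf
    rw [sum_fam, D.bT f hf, D.sumF hf, D.bX f hf]
    ring

theorem Data.nodup (D : Data P s p T F hole X Δ) : P.cycles.flatten.Nodup :=
  D.perm.nodup_iff.2 List.nodup_range

theorem Data.lt_of_mem (D : Data P s p T F hole X Δ) {c : List ℕ} (hc : c ∈ P.cycles) {v : ℕ} (hv : v ∈ c) :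
    v < P.n := List.mem_range.1 (D.perm.mem_iff.1 (List.mem_flatten.2 ⟨c, hc, hv⟩))

theorem Data.pos_of_mem (D : Data P s p T F hole X Δ) {c : List ℕ} (hc : c ∈ P.cycles) {v : ℕ} (hv : v ∈ c) :
    p v = P.pos v := D.pos_eq v (D.lt_of_mem hc hv)

theorem outer_mem (P : Poly) : P.outer ∈ P.cycles := List.mem_cons_self

theorem hole_mem (P : Poly) (h : Fin P.holes.length) : P.holes.get h ∈ P.cycles :=
  List.mem_cons_of_mem _ (P.holes.get_mem h)

theorem Data.nodup_cyc (D : Data P s p T F hole X Δ) {c : List ℕ} (hc : c ∈ P.cycles) : c.Nodup :=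
  (List.nodup_flatten.1 D.nodup).1 c hc

theorem Data.outer_hole (D : Data P s p T F hole X Δ) (h : Fin P.holes.length) {v : ℕ} (hv : v ∈ P.outer) :
    v ∉ P.holes.get h := by
  have := (List.pairwise_cons.1 (List.nodup_flatten.1 D.nodup).2).1 _ (P.holes.get_mem h)
  exact fun h' => this hv h'

theorem Data.hole_hole (D : Data P s p T F hole X Δ) {h h' : Fin P.holes.length} (hne : h ≠ h') {v : ℕ}
    (hv : v ∈ P.holes.get h) : v ∉ P.holes.get h' := by
  have hp := (List.pairwise_cons.1 (List.nodup_flatten.1 D.nodup).2).2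
  rw [List.pairwise_iff_get] at hp
  rcases lt_or_gt_of_ne hne with h1 | h1
  · exact fun h'' => hp h h' h1 hv h''
  · exact fun h'' => hp h' h h1 h'' hv

/-- R5, outer polygon -/
theorem Data.outer_edge (D : Data P s p T F hole X Δ) {a b : ℕ} (h : (a, b) ∈ cycEdges P.outer) :
    (∃ i, IsEdge (T i) a b) ∧ ∃ x, IsEdge (X x) b a := by
  have ha := (mem_of_mem_cycEdges h).1
  have h1 := lsum_del_cyc (D.nodup_cyc (outer_mem P)) (D.three _ (outer_mem P)) h
  have h2 : (P.holes.map fun c => lsum (del a b) (cycEdges c)).sum = 0 := by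
    rw [sum_list_get]
    exact Finset.sum_eq_zero fun h' _ => lsum_del_cyc_of_notMem (D.outer_hole h' ha)
  have hΔ : ¬ IsVert Δ a := fun h' => by
    have := D.labΔ a h'; have := D.lt_of_mem (outer_mem P) ha; omega
  constructor
  · have h3 := D.bT (del a b) (fun u v => del_anti a b u v)
    rw [h1, h2] at h3
    obtain ⟨i, -, hi⟩ := exists_edge (s := Finset.univ) T (a := a) (b := b) (by rw [h3]; norm_num)
    exact ⟨i, hi⟩
  · have h3 := D.bX (del a b) (fun u v => del_anti a b u v)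
    rw [h1, bsum_del_of_notVert b hΔ] at h3
    have h4 : ∑ x, bsum (del b a) (X x) = 1 := by
      rw [Finset.sum_congr rfl fun x _ => bsum_del_swap a b (X x), Finset.sum_neg_distrib, h3]; norm_num
    obtain ⟨i, -, hi⟩ := exists_edge (s := Finset.univ) X (a := b) (b := a) (by rw [h4])
    exact ⟨i, hi⟩

/-- R5, holes -/
theorem Data.hole_edge (D : Data P s p T F hole X Δ) (h : Fin P.holes.length) {a b : ℕ}
    (he : (a, b) ∈ cycEdges (P.holes.get h)) :
    (∃ i, IsEdge (T i) b a) ∧ ∃ k, hole k = h ∧ IsEdge (F k) a b := by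
  have ha := (mem_of_mem_cycEdges he).1
  have h1 := lsum_del_cyc (D.nodup_cyc (hole_mem P h)) (D.three _ (hole_mem P h)) he
  have h2 : (P.holes.map fun c => lsum (del a b) (cycEdges c)).sum = 1 := by
    rw [sum_list_get, Finset.sum_eq_single h, h1]
    · exact fun h' _ hne => lsum_del_cyc_of_notMem (D.hole_hole hne.symm ha)
    · exact fun hn => absurd (Finset.mem_univ _) hn
  have h0 : lsum (del a b) (cycEdges P.outer) = 0 :=
    lsum_del_cyc_of_notMem fun h' => D.outer_hole h h' ha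
  constructor
  · have h3 := D.bT (del a b) (fun u v => del_anti a b u v)
    rw [h0, h2] at h3
    have h4 : ∑ x, bsum (del b a) (T x) = 1 := by
      rw [Finset.sum_congr rfl fun x _ => bsum_del_swap a b (T x), Finset.sum_neg_distrib, h3]; norm_num
    obtain ⟨i, -, hi⟩ := exists_edge (s := Finset.univ) T (a := b) (b := a) (by rw [h4])
    exact ⟨i, hi⟩
  · have h3 := D.bF (del a b) (fun u v => del_anti a b u v) h
    rw [h1] at h3
    obtain ⟨k, hk, hi⟩ := exists_edge F (a := a) (b := b) (by rw [h3])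
    exact ⟨k, (Finset.mem_filter.1 hk).2, hi⟩

theorem mem_edges_iff (P : Poly) (e : ℕ × ℕ) :
    e ∈ P.edges ↔ e ∈ cycEdges P.outer ∨ ∃ h : Fin P.holes.length, e ∈ cycEdges (P.holes.get h) := by
  unfold Poly.edges Poly.cycles
  rw [List.flatMap_cons, List.mem_append, List.mem_flatMap]
  constructor
  · rintro (h | ⟨c, hc, h⟩)
    · exact Or.inl h
    · obtain ⟨i, rfl⟩ := List.get_of_mem hc
      exact Or.inr ⟨i, h⟩
  · rintro (h | ⟨i, h⟩)
    · exact Or.inl h
    · exact Or.inr ⟨_, P.holes.get_mem i, h⟩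

theorem Data.edge (D : Data P s p T F hole X Δ) {e : ℕ × ℕ} (he : e ∈ P.edges) :
    (∃ i, IsEdge (T i) e.1 e.2 ∨ IsEdge (T i) e.2 e.1) ∧ p e.1 = P.pos e.1 ∧ p e.2 = P.pos e.2 := by
  rcases (mem_edges_iff P e).1 he with h | ⟨k, h⟩
  · have h1 := mem_of_mem_cycEdges (a := e.1) (b := e.2) h
    refine ⟨?_, D.pos_of_mem (outer_mem P) h1.1, D.pos_of_mem (outer_mem P) h1.2⟩
    obtain ⟨⟨i, hi⟩, -⟩ := D.outer_edge (a := e.1) (b := e.2) h
    exact ⟨i, Or.inl hi⟩
  · have h1 := mem_of_mem_cycEdges (a := e.1) (b := e.2) h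
    refine ⟨?_, D.pos_of_mem (hole_mem P k) h1.1, D.pos_of_mem (hole_mem P k) h1.2⟩
    obtain ⟨⟨i, hi⟩, -⟩ := D.hole_edge k (a := e.1) (b := e.2) h
    exact ⟨i, Or.inr hi⟩

theorem edge_of_cyc {c : List ℕ} (hc : c ∈ P.cycles) {e : ℕ × ℕ} (he : e ∈ cycEdges c) : e ∈ P.edges :=
  List.mem_flatMap.2 ⟨c, hc, he⟩

theorem Data.inside_eq (D : Data P s p T F hole X Δ) {c : List ℕ} (hc : c ∈ P.cycles) (x : Pt) :
    Inside P.pos c x ↔ Inside p c x := inside_congr (fun v hv => (D.pos_of_mem hc hv).symm) x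

/-- generic points are not on the boundary -/
theorem Data.notMem_boundary (D : Data P s p T F hole X Δ) {x : Pt} (hx : Gen p (fam T F X) Δ x) :
    x ∉ P.boundary := by
  rintro ⟨e, he, hxe⟩
  obtain ⟨⟨i, hi⟩, h1, h2⟩ := D.edge he
  rw [← h1, ← h2] at hxe
  have h0 := hx.2 (Sum.inl i)
  have key : ∀ a b, IsEdge (T i) a b → x ∉ segment ℝ (p a) (p b) := by
    rintro a b (⟨rfl, rfl⟩ | ⟨rfl, rfl⟩ | ⟨rfl, rfl⟩)
    · exact notMem_segment_of_orient h0.1
    · exact notMem_segment_of_orient h0.2.1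
    · exact notMem_segment_of_orient h0.2.2
  rcases hi with hi | hi
  · exact key _ _ hi hxe
  · exact key _ _ hi (by rw [segment_symm]; exact hxe)

/-- R2, holes -/
theorem Data.inside_hole (D : Data P s p T F hole X Δ) {x : Pt} (hx : Gen p (fam T F X) Δ x)
    (h : Fin P.holes.length) : Inside p (P.holes.get h) x ↔ ∃ k, hole k = h ∧ x ∈ OpenTri p (F k) := by
  classical
  rw [inside_iff]
  have h1 : crSum p (cycEdges (P.holes.get h)) x =
      ∑ k ∈ Finset.univ.filter (fun k => hole k = h), (if x ∈ OpenTri p (F k) then (1 : ℤ) else 0) := by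
    have h2 := D.bF (fun a b => cr x (p a) (p b)) (fun a b => cr_swap x (p a) (p b)) h
    unfold crSum
    unfold lsum at h2
    rw [← h2]
    exact Finset.sum_congr rfl fun k _ => bsum_cr (D.posF k) (hx.2 (Sum.inr (Sum.inl k)))
  rw [h1, odd_sum_iff]
  · constructor
    · rintro ⟨k, hk, h3⟩; exact ⟨k, (Finset.mem_filter.1 hk).2, h3⟩
    · rintro ⟨k, hk, h3⟩; exact ⟨k, Finset.mem_filter.2 ⟨Finset.mem_univ k, hk⟩, h3⟩
  · intro i _ j _ hi hj
    have := D.full.disjoint (i := Sum.inr (Sum.inl i)) (j := Sum.inr (Sum.inl j)) hi hj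
    simpa using this

/-- R2, outer polygon -/
theorem Data.inside_outer (D : Data P s p T F hole X Δ) {x : Pt} (hx : Gen p (fam T F X) Δ x) :
    Inside p P.outer x ↔ (∃ i, x ∈ OpenTri p (T i)) ∨ ∃ k, x ∈ OpenTri p (F k) := by
  classical
  rw [inside_iff]
  have h1 : crSum p (cycEdges P.outer) x =
      ∑ j : ι ⊕ κ, (if x ∈ OpenTri p (Sum.elim T F j) then (1 : ℤ) else 0) := by
    have hanti : ∀ a b : ℕ, cr x (p b) (p a) = -cr x (p a) (p b) := fun a b => cr_swap x (p a) (p b)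
    have h2 := D.bT (fun a b => cr x (p a) (p b)) hanti
    have h3 := D.sumF (f := fun a b => cr x (p a) (p b)) hanti
    rw [Fintype.sum_sum_type]
    have e1 : ∑ i, (if x ∈ OpenTri p (Sum.elim T F (Sum.inl i)) then (1 : ℤ) else 0) =
        ∑ i, bsum (fun a b => cr x (p a) (p b)) (T i) :=
      Finset.sum_congr rfl fun i _ => (bsum_cr (D.posT i) (hx.2 (Sum.inl i))).symm
    have e2 : ∑ i, (if x ∈ OpenTri p (Sum.elim T F (Sum.inr i)) then (1 : ℤ) else 0) =
        ∑ i, bsum (fun a b => cr x (p a) (p b)) (F i) :=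
      Finset.sum_congr rfl fun i _ => (bsum_cr (D.posF i) (hx.2 (Sum.inr (Sum.inl i)))).symm
    rw [e1, e2, h2, h3]
    unfold crSum lsum
    ring
  rw [h1, odd_sum_iff]
  · constructor
    · rintro ⟨i | k, -, h3⟩
      · exact Or.inl ⟨i, h3⟩
      · exact Or.inr ⟨k, h3⟩
    · rintro (⟨i, h3⟩ | ⟨k, h3⟩)
      · exact ⟨Sum.inl i, Finset.mem_univ _, h3⟩
      · exact ⟨Sum.inr k, Finset.mem_univ _, h3⟩
  · rintro (i | i) _ (j | j) _ hi hj
    · have := D.full.disjoint (i := Sum.inl i) (j := Sum.inl j) hi hj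
      simpa using this
    · have := D.full.disjoint (i := Sum.inl i) (j := Sum.inr (Sum.inl j)) hi hj
      simp at this
    · have := D.full.disjoint (i := Sum.inr (Sum.inl i)) (j := Sum.inl j) hi hj
      simp at this
    · have := D.full.disjoint (i := Sum.inr (Sum.inl i)) (j := Sum.inr (Sum.inl j)) hi hj
      simpa using this

/-- R4: the region at generic points. -/
theorem Data.region_generic (D : Data P s p T F hole X Δ) {x : Pt} (hx : Gen p (fam T F X) Δ x) :
    x ∈ P.region ↔ ∃ i, x ∈ OpenTri p (T i) := by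
  have hb := D.notMem_boundary hx
  have h1 : x ∈ P.region ↔ (Inside p P.outer x ∧ ∀ h : Fin P.holes.length, ¬ Inside p (P.holes.get h) x) := by
    unfold Poly.region
    rw [Set.mem_union]
    constructor
    · rintro (h | ⟨h2, h3⟩)
      · exact absurd h hb
      · exact ⟨(D.inside_eq (outer_mem P) x).1 h2, fun h h' =>
          h3 _ (P.holes.get_mem h) ((D.inside_eq (hole_mem P h) x).2 h')⟩
    · rintro ⟨h2, h3⟩
      refine Or.inr ⟨(D.inside_eq (outer_mem P) x).2 h2, fun c hc h' => ?_⟩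
      obtain ⟨i, rfl⟩ := List.get_of_mem hc
      exact h3 i ((D.inside_eq (hole_mem P i) x).1 h')
  rw [h1, D.inside_outer hx]
  constructor
  · rintro ⟨h2 | ⟨k, hk⟩, h3⟩
    · exact h2
    · exact absurd ((D.inside_hole hx (hole k)).2 ⟨k, rfl, hk⟩) (h3 (hole k))
  · rintro ⟨i, hi⟩
    refine ⟨Or.inl ⟨i, hi⟩, fun h h' => ?_⟩
    obtain ⟨k, -, hk⟩ := (D.inside_hole hx h).1 h'
    have := D.full.disjoint (i := Sum.inl i) (j := Sum.inr (Sum.inl k)) hi hk
    simp at this

end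

end Pool.Agent.Lib.MP_6ff0c5_lc.K
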