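import Pool.Agent.Lib.MP_6ff0c5_lc.K.Hull
import Pool.Agent.Lib.MP_6ff0c5_lc.K.Region

section

section

/-!
The rotation lemma: two straight-line drawings of the same family of oriented triangles have the same rotation system.
-/

set_option autoImplicit false

namespace Pool.Agent.Lib.MP_6ff0c5_lc.K

/-! ### The cyclic order of directions -/

theorem orient_swap' (v a b : Pt) : orient v b a = -orient v a b := by unfold orient; ring

theorem ccw_cyc {v a b c : Pt} (h : Ccw v a b c) : Ccw v b c a := by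
  unfold Ccw at *
  tauto

theorem ccw_irr {v a b : Pt} : ¬ Ccw v a a b := by
  have h1 : orient v a a = 0 := by unfold orient; ring
  have h2 : orient v b a = -orient v a b := by unfold orient; ring
  unfold Ccw
  rw [h1, h2]
  rintro (⟨h, -⟩ | ⟨h, h'⟩ | ⟨-, h⟩)
  · exact lt_irrefl _ h
  · linarith
  · exact lt_irrefl _ h

theorem ccw_trans {v a b c d : Pt} (h1 : Ccw v a b c) (h2 : Ccw v a c d) : Ccw v a b d := by
  have e1 : orient v c a = -orient v a c := by unfold orient; ring
  have e2 : orient v d a = -orient v a d := by unfold orient; ring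
  have pl : orient v a b * orient v c d - orient v a c * orient v b d + orient v a d * orient v b c = 0 := by
    unfold orient; ring
  unfold Ccw at *
  rw [e1] at h1
  rw [e2] at h2 ⊢
  generalize orient v a b = ab at *
  generalize orient v a c = ac at *
  generalize orient v a d = ad at *
  generalize orient v b c = bc at *
  generalize orient v b d = bd at *
  generalize orient v c d = cd at *
  rcases h1 with ⟨h1, h3⟩ | ⟨h1, h3⟩ | ⟨h1, h3⟩ <;> rcases h2 with ⟨h2, h4⟩ | ⟨h2, h4⟩ | ⟨h2, h4⟩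
  · by_cases hbd : 0 < bd
    · exact Or.inl ⟨h1, hbd⟩
    · by_cases had : 0 < -ad
      · exact Or.inr (Or.inr ⟨had, h1⟩)
      · exfalso
        push Not at hbd had
        nlinarith [mul_pos h1 h4, mul_nonneg h2.le (neg_nonneg.2 hbd), mul_nonneg (by linarith : (0:ℝ) ≤ ad) h3.le]
  · exact Or.inr (Or.inr ⟨h4, h1⟩)
  · exact Or.inr (Or.inr ⟨h2, h1⟩)
  · linarith
  · by_cases hbd : 0 < bd
    · exact Or.inr (Or.inl ⟨hbd, h4⟩)
    · by_cases hab : 0 < ab
      · exact Or.inr (Or.inr ⟨h4, hab⟩)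
      · exfalso
        push Not at hbd hab
        nlinarith [mul_pos h1 h4, mul_nonneg h2.le (neg_nonneg.2 hab), mul_nonneg h3.le (neg_nonneg.2 hbd)]
  · linarith
  · linarith
  · exact Or.inr (Or.inr ⟨h4, h3⟩)
  · linarith

/-- The scalar product of the vectors from `v` to `a` and from `v` to `b`. -/
def dot (v a b : Pt) : ℝ := (a.1 - v.1) * (b.1 - v.1) + (a.2 - v.2) * (b.2 - v.2)

/-- Seen from `v`, the points `a` and `b` are in the same direction. -/
def SameDir (v a b : Pt) : Prop := orient v a b = 0 ∧ 0 < dot v a b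

theorem dot_self_pos {v a : Pt} (h : a ≠ v) : 0 < dot v a a := by
  unfold dot
  by_cases h1 : a.1 = v.1
  · have h2 : a.2 - v.2 ≠ 0 := fun h2 => h (Prod.ext h1 (by linarith))
    nlinarith [mul_self_pos.2 h2, mul_self_nonneg (a.1 - v.1)]
  · have h2 : a.1 - v.1 ≠ 0 := fun h2 => h1 (by linarith)
    nlinarith [mul_self_pos.2 h2, mul_self_nonneg (a.2 - v.2)]

theorem dot_neg_of {v a b : Pt} (ha : a ≠ v) (hb : b ≠ v) (h : ¬ SameDir v a b) (h0 : orient v a b = 0) :
    dot v a b < 0 := by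
  have h1 := dot_self_pos ha
  have h2 := dot_self_pos hb
  have h3 : dot v a a * dot v b b = dot v a b ^ 2 + orient v a b ^ 2 := by unfold dot orient; ring
  have h4 : ¬ 0 < dot v a b := fun h4 => h ⟨h0, h4⟩
  have h5 : dot v a b ≠ 0 := by
    intro h5
    rw [h5, h0] at h3
    nlinarith [mul_pos h1 h2]
  exact lt_of_le_of_ne (not_lt.1 h4) h5

/-- the case of two opposite directions -/
theorem tot_aux {v a b c : Pt} (ha : a ≠ v) (hb : b ≠ v) (hc : c ≠ v) (hab : ¬ SameDir v a b) (hbc : ¬ SameDir v b c)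
    (hca : ¬ SameDir v c a) (h0 : orient v a b = 0) :
    (0 < orient v b c ∧ 0 < orient v c a) ∨ (orient v b c < 0 ∧ orient v c a < 0) := by
  have h1 := dot_neg_of ha hb hab h0
  have h2 := dot_self_pos ha
  have h3 : dot v a a * orient v b c + dot v a b * orient v c a + dot v a c * orient v a b = 0 := by
    unfold dot orient; ring
  rw [h0, mul_zero, add_zero] at h3
  rcases lt_trichotomy (orient v b c) 0 with h4 | h4 | h4
  · right
    refine ⟨h4, ?_⟩
    by_contra h5
    push Not at h5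
    nlinarith [mul_neg_of_pos_of_neg h2 h4, mul_nonpos_of_nonpos_of_nonneg h1.le h5]
  · exfalso
    rw [h4, mul_zero, zero_add] at h3
    have h5 : orient v c a = 0 := by
      rcases mul_eq_zero.1 h3 with h5 | h5
      · exact absurd h5 h1.ne
      · exact h5
    have h6 := dot_neg_of hb hc hbc h4
    have h7 := dot_neg_of hc ha hca h5
    have h8 : dot v a b * dot v c a = dot v a a * dot v b c - orient v a b * orient v a c := by
      unfold dot orient; ring
    rw [h0, zero_mul, sub_zero] at h8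
    nlinarith [mul_pos_of_neg_of_neg h1 h7, mul_neg_of_pos_of_neg h2 h6]
  · left
    refine ⟨h4, ?_⟩
    by_contra h5
    push Not at h5
    nlinarith [mul_pos h2 h4, mul_nonneg_of_nonpos_of_nonpos h1.le h5]

theorem ccw_total {v a b c : Pt} (ha : a ≠ v) (hb : b ≠ v) (hc : c ≠ v) (hab : ¬ SameDir v a b) (hbc : ¬ SameDir v b c)
    (hca : ¬ SameDir v c a) : Ccw v a b c ∨ Ccw v c b a := by
  have h1 : ∀ x y, orient v x y = -orient v y x := fun x y => by unfold orient; ring
  have e1 := h1 c b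
  have e2 := h1 b a
  have e3 := h1 a c
  have k1 := tot_aux ha hb hc hab hbc hca
  have k2 := tot_aux hb hc ha hbc hca hab
  have k3 := tot_aux hc ha hb hca hab hbc
  unfold Ccw
  rw [e1, e2, e3]
  generalize orient v a b = ab at *
  generalize orient v b c = bc at *
  generalize orient v c a = ca at *
  simp only [Left.neg_pos_iff]
  rcases lt_trichotomy ab 0 with h1 | h1 | h1
  · rcases lt_trichotomy bc 0 with h2 | h2 | h2
    · exact Or.inr (Or.inl ⟨h2, h1⟩)
    · rcases k2 h2 with ⟨h3, h4⟩ | ⟨h3, h4⟩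
      · linarith
      · exact Or.inr (Or.inr (Or.inl ⟨h4, h3⟩))
    · rcases lt_trichotomy ca 0 with h3 | h3 | h3
      · exact Or.inr (Or.inr (Or.inl ⟨h1, h3⟩))
      · rcases k3 h3 with ⟨h4, h5⟩ | ⟨h4, h5⟩ <;> linarith
      · exact Or.inl (Or.inr (Or.inl ⟨h2, h3⟩))
  · rcases k1 h1 with ⟨h2, h3⟩ | ⟨h2, h3⟩
    · exact Or.inl (Or.inr (Or.inl ⟨h2, h3⟩))
    · exact Or.inr (Or.inr (Or.inr ⟨h3, h2⟩))
  · rcases lt_trichotomy bc 0 with h2 | h2 | h2
    · rcases lt_trichotomy ca 0 with h3 | h3 | h3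
      · exact Or.inr (Or.inr (Or.inr ⟨h3, h2⟩))
      · rcases k3 h3 with ⟨h4, h5⟩ | ⟨h4, h5⟩ <;> linarith
      · exact Or.inl (Or.inr (Or.inr ⟨h3, h1⟩))
    · rcases k2 h2 with ⟨h3, h4⟩ | ⟨h3, h4⟩
      · exact Or.inl (Or.inr (Or.inr ⟨h3, h4⟩))
      · linarith
    · exact Or.inl (Or.inl ⟨h1, h2⟩)

/-! ### Cyclic orders with the same successors -/

section abs

variable {Λ : Type*} {N : Set Λ} {Rp Rq : Λ → Λ → Λ → Prop} {E : Λ → Λ → Prop}

/-- the walk from `a` to `b` -/
theorem walk (hN : N.Finite)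
    (cycp : ∀ a b c, Rp a b c → Rp b c a) (trp : ∀ a b c d, Rp a b c → Rp a c d → Rp a b d)
    (irp : ∀ a b, ¬ Rp a a b)
    (totp : ∀ a ∈ N, ∀ b ∈ N, ∀ c ∈ N, a ≠ b → b ≠ c → c ≠ a → Rp a b c ∨ Rp c b a)
    (cycq : ∀ a b c, Rq a b c → Rq b c a) (trq : ∀ a b c d, Rq a b c → Rq a c d → Rq a b d)
    (totq : ∀ a ∈ N, ∀ b ∈ N, ∀ c ∈ N, a ≠ b → b ≠ c → c ≠ a → Rq a b c ∨ Rq c b a)
    (hE : ∀ a a', E a a' → a' ∈ N ∧ a ≠ a')
    (wp : ∀ a a' c, E a a' → c ∈ N → ¬ Rp a c a') (wq : ∀ a a' c, E a a' → c ∈ N → ¬ Rq a c a')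
    {b c : Λ} (hb : b ∈ N) (hc : c ∈ N) (n : ℕ) :
    ∀ a ∈ N, {x ∈ N | Rp a x b}.ncard ≤ n → Rp a b c → (∀ x ∈ N, x = a ∨ Rp a x b → ∃ y, E x y) → Rq a b c := by
  induction n with
  | zero =>
    intro a ha hcard habc hex
    have hfin : {x ∈ N | Rp a x b}.Finite := hN.subset fun x hx => hx.1
    have hempty : {x ∈ N | Rp a x b} = ∅ := (Set.ncard_eq_zero hfin).1 (Nat.le_zero.1 hcard)
    obtain ⟨a', haa'⟩ := hex a ha (Or.inl rfl)
    have hab : a ≠ b := fun h => irp a c (h ▸ habc)
    have hbc : b ≠ c := fun h => irp b a (by have := cycp _ _ _ habc; rw [← h] at this; exact this)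
    have hca : c ≠ a := fun h => irp a b (by have := cycp _ _ _ (cycp _ _ _ habc); rw [h] at this; exact this)
    obtain ⟨ha'N, hne⟩ := hE _ _ haa'
    have h1 : a' = b := by
      by_contra h1
      rcases totp a ha a' ha'N b hb hne h1 hab.symm with h2 | h2
      · have : a' ∈ {x ∈ N | Rp a x b} := ⟨ha'N, h2⟩
        rw [hempty] at this
        exact this
      · exact wp a a' b haa' hb (cycp _ _ _ (cycp _ _ _ h2))
    subst h1
    rcases totq a ha a' hb c hc hab hbc hca with h2 | h2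
    · exact h2
    · exact absurd (cycq _ _ _ (cycq _ _ _ h2)) (wq a a' c haa' hc)
  | succ n ih =>
    intro a ha hcard habc hex
    have hfin : {x ∈ N | Rp a x b}.Finite := hN.subset fun x hx => hx.1
    obtain ⟨a', haa'⟩ := hex a ha (Or.inl rfl)
    have hab : a ≠ b := fun h => irp a c (h ▸ habc)
    have hbc : b ≠ c := fun h => irp b a (by have := cycp _ _ _ habc; rw [← h] at this; exact this)
    have hca : c ≠ a := fun h => irp a b (by have := cycp _ _ _ (cycp _ _ _ habc); rw [h] at this; exact this)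
    obtain ⟨ha'N, hne⟩ := hE _ _ haa'
    by_cases h1 : a' = b
    · subst h1
      rcases totq a ha a' hb c hc hab hbc hca with h2 | h2
      · exact h2
      · exact absurd (cycq _ _ _ (cycq _ _ _ h2)) (wq a a' c haa' hc)
    · have h2 : Rp a a' b := by
        rcases totp a ha a' ha'N b hb hne h1 hab.symm with h2 | h2
        · exact h2
        · exact absurd (cycp _ _ _ (cycp _ _ _ h2)) (wp a a' b haa' hb)
      have h3 : a' ≠ c := by
        rintro rfl
        exact wp a a' b haa' hb habc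
      have h4 : Rp a' b c := cycp _ _ _ (cycp _ _ _ (trp _ _ _ _ (cycp _ _ _ habc) (cycp _ _ _ (cycp _ _ _ h2))))
      have h5 : ∀ x, Rp a' x b → Rp a x b := fun x hx =>
        cycp _ _ _ (trp _ _ _ _ (cycp _ _ _ (cycp _ _ _ h2)) (cycp _ _ _ (cycp _ _ _ hx)))
      have h6 : Rq a' b c := by
        apply ih a' ha'N ?_ h4
        · intro x hx h
          apply hex x hx
          right
          rcases h with rfl | h
          · exact h2
          · exact h5 x h
        · have h7 : {x ∈ N | Rp a' x b} ⊂ {x ∈ N | Rp a x b} := by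
            have hs : {x ∈ N | Rp a' x b} ⊆ {x ∈ N | Rp a x b} := fun x hx => ⟨hx.1, h5 x hx.2⟩
            rw [Set.ssubset_iff_of_subset hs]
            exact ⟨a', ⟨ha'N, h2⟩, fun h => irp _ _ h.2⟩
          have h8 := Set.ncard_lt_ncard h7 hfin
          omega
      have h7 : Rq a a' c := by
        rcases totq a ha a' ha'N c hc hne h3 hca with h7 | h7
        · exact h7
        · exact absurd (cycq _ _ _ (cycq _ _ _ h7)) (wq a a' c haa' hc)
      exact cycq _ _ _ (trq _ _ _ _ (cycq _ _ _ (cycq _ _ _ h7)) (cycq _ _ _ (cycq _ _ _ h6)))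

theorem rot_abs (hN : N.Finite)
    (cycp : ∀ a b c, Rp a b c → Rp b c a) (trp : ∀ a b c d, Rp a b c → Rp a c d → Rp a b d)
    (irp : ∀ a b, ¬ Rp a a b)
    (totp : ∀ a ∈ N, ∀ b ∈ N, ∀ c ∈ N, a ≠ b → b ≠ c → c ≠ a → Rp a b c ∨ Rp c b a)
    (cycq : ∀ a b c, Rq a b c → Rq b c a) (trq : ∀ a b c d, Rq a b c → Rq a c d → Rq a b d)
    (totq : ∀ a ∈ N, ∀ b ∈ N, ∀ c ∈ N, a ≠ b → b ≠ c → c ≠ a → Rq a b c ∨ Rq c b a)
    (hE : ∀ a a', E a a' → a' ∈ N ∧ a ≠ a')
    (wp : ∀ a a' c, E a a' → c ∈ N → ¬ Rp a c a') (wq : ∀ a a' c, E a a' → c ∈ N → ¬ Rq a c a')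
    (U : ∀ a ∈ N, ∀ b ∈ N, (∀ x, ¬ E a x) → (∀ x, ¬ E b x) → a = b)
    {a b c : Λ} (ha : a ∈ N) (hb : b ∈ N) (hc : c ∈ N) (h : Rp a b c) : Rq a b c := by
  by_cases h1 : ∀ x ∈ N, x = a ∨ Rp a x b → ∃ y, E x y
  · exact walk hN cycp trp irp totp cycq trq totq hE wp wq hb hc _ a ha le_rfl h h1
  · push Not at h1
    obtain ⟨e, heN, he, hee⟩ := h1
    refine cycq _ _ _ (cycq _ _ _ (walk hN cycp trp irp totp cycq trq totq hE wp wq hc ha _ b hb le_rfl
      (cycp _ _ _ h) ?_))
    intro x hx hbx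
    by_contra hno
    push Not at hno
    have hxe : x = e := U x hx e heN hno hee
    subst hxe
    -- `x` lies in both arcs
    rcases he with rfl | he <;> rcases hbx with rfl | hbx
    · exact irp _ _ h
    · -- Rp b a c and Rp a b c
      exact irp _ _ (cycp _ _ _ (trp _ _ _ _ hbx (cycp _ _ _ h)))
    · exact irp _ _ (cycp _ _ _ he)
    · -- Rp b x c and Rp b c a → Rp b x a; Rp b a x → Rp b x x
      have k6 : Rp b x a := trp _ _ _ _ hbx (cycp _ _ _ h)
      have k7 : Rp b a x := cycp _ _ _ (cycp _ _ _ he)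
      exact irp _ _ (cycp _ _ _ (trp _ _ _ _ k6 k7))

end abs

/-! ### The rotation lemma -/

section rotation

variable {Λ ι : Type*}

/-- Two vertices are neighbours. -/
def Nb (T : ι → Λ × Λ × Λ) (v a : Λ) : Prop := ∃ i, IsVert (T i) v ∧ IsVert (T i) a ∧ v ≠ a

/-- The oriented triangle `(v, a, b)` is (up to a rotation) in the family. -/
def HasTri (T : ι → Λ × Λ × Λ) (v a b : Λ) : Prop :=
  ∃ i, T i = (v, a, b) ∨ rot (T i) = (v, a, b) ∨ rot (rot (T i)) = (v, a, b)

theorem HasTri.nb {T : ι → Λ × Λ × Λ} {v a b : Λ} (h : HasTri T v a b) (hva : v ≠ a) : Nb T v a := by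
  obtain ⟨i, h⟩ := h
  refine ⟨i, ?_, ?_, hva⟩
  · rcases h with h | h | h
    · rw [h]; exact Or.inl rfl
    · rw [← isVert_rot, h]; exact Or.inl rfl
    · rw [← isVert_rot, ← isVert_rot, h]; exact Or.inl rfl
  · rcases h with h | h | h
    · rw [h]; exact Or.inr (Or.inl rfl)
    · rw [← isVert_rot, h]; exact Or.inr (Or.inl rfl)
    · rw [← isVert_rot, ← isVert_rot, h]; exact Or.inr (Or.inl rfl)

theorem HasTri.nb' {T : ι → Λ × Λ × Λ} {v a b : Λ} (h : HasTri T v a b) (hvb : v ≠ b) : Nb T v b := by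
  obtain ⟨i, h⟩ := h
  refine ⟨i, ?_, ?_, hvb⟩
  · rcases h with h | h | h
    · rw [h]; exact Or.inl rfl
    · rw [← isVert_rot, h]; exact Or.inl rfl
    · rw [← isVert_rot, ← isVert_rot, h]; exact Or.inl rfl
  · rcases h with h | h | h
    · rw [h]; exact Or.inr (Or.inr rfl)
    · rw [← isVert_rot, h]; exact Or.inr (Or.inr rfl)
    · rw [← isVert_rot, ← isVert_rot, h]; exact Or.inr (Or.inr rfl)

theorem HasTri.pos {T : ι → Λ × Λ × Λ} {r : Λ → Pt} (hr : ∀ i, 0 < otri r (T i)) {v a b : Λ} (h : HasTri T v a b) :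
    0 < orient (r v) (r a) (r b) := by
  obtain ⟨i, h⟩ := h
  have := hr i
  rcases h with h | h | h
  · rw [h] at this; exact this
  · rw [← otri_rot, h] at this; exact this
  · rw [← otri_rot, ← otri_rot, h] at this; exact this

/-- The hypotheses on the drawing `r` of the family `T` of oriented triangles: they are positively oriented, no neighbour of
a vertex lies inside the angle of a triangle, different neighbours are in different directions. -/
structure Drawn (T : ι → Λ × Λ × Λ) (r : Λ → Pt) : Prop where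
  pos : ∀ i, 0 < otri r (T i)
  wedge : ∀ v a b c, HasTri T v a b → Nb T v c → ¬ (0 < orient (r v) (r a) (r c) ∧ 0 < orient (r v) (r c) (r b))
  dir : ∀ v a b, Nb T v a → Nb T v b → a ≠ b → ¬ SameDir (r v) (r a) (r b)

theorem Nb.ne {T : ι → Λ × Λ × Λ} {r : Λ → Pt} (hr : ∀ i, 0 < otri r (T i)) {v a : Λ} (h : Nb T v a) : r a ≠ r v := by
  obtain ⟨i, h1, h2, h3⟩ := h
  have h4 := hr i
  intro h5
  unfold otri at h4
  rcases h1 with h1 | h1 | h1 <;> rcases h2 with h2 | h2 | h2
  · exact h3 (h1.trans h2.symm)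
  · rw [← h1, ← h2, h5, orient_self_left] at h4; exact lt_irrefl _ h4
  · rw [← h1, ← h2, h5, orient_self_out] at h4; exact lt_irrefl _ h4
  · rw [← h1, ← h2, h5, orient_self_left] at h4; exact lt_irrefl _ h4
  · exact h3 (h1.trans h2.symm)
  · rw [← h1, ← h2, h5, orient_self_mid] at h4; exact lt_irrefl _ h4
  · rw [← h1, ← h2, h5, orient_self_out] at h4; exact lt_irrefl _ h4
  · rw [← h1, ← h2, h5, orient_self_mid] at h4; exact lt_irrefl _ h4
  · exact h3 (h1.trans h2.symm)

theorem ne_of_hasTri {T : ι → Λ × Λ × Λ} {r : Λ → Pt} (hr : ∀ i, 0 < otri r (T i)) {v a b : Λ} (h : HasTri T v a b) :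
    v ≠ a ∧ v ≠ b ∧ a ≠ b := by
  have h1 := h.pos hr
  refine ⟨?_, ?_, ?_⟩
  · rintro rfl; rw [orient_self_left] at h1; exact lt_irrefl _ h1
  · rintro rfl; rw [orient_self_out] at h1; exact lt_irrefl _ h1
  · rintro rfl; rw [orient_self_mid] at h1; exact lt_irrefl _ h1

theorem finite_nb [Finite ι] (T : ι → Λ × Λ × Λ) (v : Λ) : {a | Nb T v a}.Finite := by
  have h : {a | Nb T v a} ⊆ ⋃ i, ({(T i).1, (T i).2.1, (T i).2.2} : Set Λ) := by
    rintro a ⟨i, -, h, -⟩
    refine Set.mem_iUnion.2 ⟨i, ?_⟩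
    exact h
  exact (Set.finite_iUnion fun i => Set.toFinite _).subset h

/-- One direction of the rotation lemma. -/
theorem rot_imp [Finite ι] {T : ι → Λ × Λ × Λ} {p q : Λ → Pt} (hp : Drawn T p) (hq : Drawn T q)
    (U : ∀ v a b, Nb T v a → Nb T v b → (∀ i, ¬ IsEdge (T i) v a) → (∀ i, ¬ IsEdge (T i) v b) → a = b)
    {v a b c : Λ} (ha : Nb T v a) (hb : Nb T v b) (hc : Nb T v c) (h : Ccw (p v) (p a) (p b) (p c)) :
    Ccw (q v) (q a) (q b) (q c) := by
  refine rot_abs (N := {x | Nb T v x}) (Rp := fun x y z => Ccw (p v) (p x) (p y) (p z))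
    (Rq := fun x y z => Ccw (q v) (q x) (q y) (q z)) (E := fun x y => HasTri T v x y) (finite_nb T v)
    (fun _ _ _ h => ccw_cyc h) (fun _ _ _ _ h1 h2 => ccw_trans h1 h2) (fun _ _ => ccw_irr) ?_
    (fun _ _ _ h => ccw_cyc h) (fun _ _ _ _ h1 h2 => ccw_trans h1 h2) ?_ ?_ ?_ ?_ ?_ ha hb hc h
  · intro a ha b hb c hc hab hbc hca
    exact ccw_total (ha.ne hp.pos) (hb.ne hp.pos) (hc.ne hp.pos) (hp.dir v a b ha hb hab) (hp.dir v b c hb hc hbc)
      (hp.dir v c a hc ha hca)
  · intro a ha b hb c hc hab hbc hca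
    exact ccw_total (ha.ne hq.pos) (hb.ne hq.pos) (hc.ne hq.pos) (hq.dir v a b ha hb hab) (hq.dir v b c hb hc hbc)
      (hq.dir v c a hc ha hca)
  · intro a a' h
    obtain ⟨h1, h2, h3⟩ := ne_of_hasTri hp.pos h
    exact ⟨h.nb' h2, h3⟩
  · intro a a' c h hc hcc
    have h1 := h.pos hp.pos
    have h2 : orient (p v) (p a') (p a) < 0 := by rw [orient_swap']; linarith
    rcases hcc with ⟨h3, h4⟩ | ⟨h3, h4⟩ | ⟨h3, h4⟩
    · exact hp.wedge v a a' c h hc ⟨h3, h4⟩
    · linarith
    · linarith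
  · intro a a' c h hc hcc
    have h1 := h.pos hq.pos
    have h2 : orient (q v) (q a') (q a) < 0 := by rw [orient_swap']; linarith
    rcases hcc with ⟨h3, h4⟩ | ⟨h3, h4⟩ | ⟨h3, h4⟩
    · exact hq.wedge v a a' c h hc ⟨h3, h4⟩
    · linarith
    · linarith
  · intro a ha b hb hna hnb
    refine U v a b ha hb ?_ ?_
    · intro i hi
      obtain ⟨d, hd⟩ := hi.exists_rot
      exact hna d ⟨i, hd⟩
    · intro i hi
      obtain ⟨d, hd⟩ := hi.exists_rot
      exact hnb d ⟨i, hd⟩

/-- **The rotation lemma**: if every vertex has at most one neighbour that is not followed by a triangle, then two drawings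
of the same oriented triangles have the same rotation system. -/
theorem rotation [Finite ι] {T : ι → Λ × Λ × Λ} {p q : Λ → Pt} (hp : Drawn T p) (hq : Drawn T q)
    (U : ∀ v a b, Nb T v a → Nb T v b → (∀ i, ¬ IsEdge (T i) v a) → (∀ i, ¬ IsEdge (T i) v b) → a = b)
    {v a b c : Λ} (ha : Nb T v a) (hb : Nb T v b) (hc : Nb T v c) :
    Ccw (p v) (p a) (p b) (p c) ↔ Ccw (q v) (q a) (q b) (q c) :=
  ⟨rot_imp hp hq U ha hb hc, rot_imp hq hp U ha hb hc⟩

end rotation

end Pool.Agent.Lib.MP_6ff0c5_lc.K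
end

section

/-!
The covering tool: the polygon with holes is valid and the family is a triangulation.
-/

set_option autoImplicit false

namespace Pool.Agent.Lib.MP_6ff0c5_lc.K

open Filter Topology

variable {P : Poly} {s : ℕ} {p : ℕ → Pt} {ι κ ξ : Type} [Fintype ι] [Fintype κ] [Fintype ξ]
  {T : ι → ℕ × ℕ × ℕ} {F : κ → ℕ × ℕ × ℕ} {hole : κ → Fin P.holes.length} {X : ξ → ℕ × ℕ × ℕ} {Δ : ℕ × ℕ × ℕ}

theorem eventually_list {α : Type*} {x : Pt} (l : List α) (Q : α → Pt → Prop) (h : ∀ a ∈ l, ∀ᶠ y in 𝓝 x, Q a y) :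
    ∀ᶠ y in 𝓝 x, ∀ a ∈ l, Q a y := by
  induction l with
  | nil => simp
  | cons a l ih =>
    filter_upwards [h a List.mem_cons_self, ih fun b hb => h b (List.mem_cons_of_mem _ hb)] with y h1 h2 b hb
    rcases List.mem_cons.1 hb with rfl | hb
    · exact h1
    · exact h2 b hb

/-- The sets of the region and of its complement are locally constant off the boundary. -/
theorem region_eventually (P : Poly) {x : Pt} (hx : x ∉ P.boundary) :
    ∀ᶠ y in 𝓝 x, y ∉ P.boundary ∧ (y ∈ P.region ↔ x ∈ P.region) := by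
  have hc : ∀ c ∈ P.cycles, ∀ e ∈ cycEdges c, x ∉ segment ℝ (P.pos e.1) (P.pos e.2) :=
    fun c hc e he h => hx ⟨e, List.mem_flatMap.2 ⟨c, hc, he⟩, h⟩
  have h1 := eventually_list P.cycles (fun c y => (∀ e ∈ cycEdges c, y ∉ segment ℝ (P.pos e.1) (P.pos e.2)) ∧
    (Inside P.pos c y ↔ Inside P.pos c x)) fun c hcc => inside_eventually P.pos c (hc c hcc)
  filter_upwards [h1] with y hy
  have hyb : y ∉ P.boundary := by
    rintro ⟨e, he, h⟩
    obtain ⟨c, hcc, he'⟩ := List.mem_flatMap.1 he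
    exact (hy c hcc).1 e he' h
  refine ⟨hyb, ?_⟩
  unfold Poly.region
  rw [Set.mem_union, Set.mem_union]
  simp only [hx, hyb, false_or, Set.mem_ofPred_eq]
  rw [(hy P.outer List.mem_cons_self).2]
  refine and_congr_right fun _ => forall_congr' fun c => forall_congr' fun hcc => not_congr ?_
  exact (hy c (List.mem_cons_of_mem _ hcc)).2

theorem Data.gen_of_generic (D : Data P s p T F hole X Δ) {y : Pt}
    (hy : ∀ e ∈ allEdges p (fam T F X) Δ, e.1 ≠ e.2 → orient e.1 e.2 y ≠ 0) : Gen p (fam T F X) Δ y :=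
  off_of_generic D.full hy

/-- R6: the region is the union of the closed triangles. -/
theorem Data.region_eq (D : Data P s p T F hole X Δ) : P.region = ⋃ i, ClosedTri p (T i) := by
  ext x
  rw [Set.mem_iUnion]
  by_cases hb : x ∈ P.boundary
  · refine ⟨fun _ => ?_, fun _ => Or.inl hb⟩
    obtain ⟨e, he, hxe⟩ := hb
    obtain ⟨⟨i, hi⟩, h1, h2⟩ := D.edge he
    rw [← h1, ← h2] at hxe
    refine ⟨i, ?_⟩
    rcases hi with hi | hi
    · exact segment_subset_closedTri (D.posT i) hi.left_vert hi.right_vert hxe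
    · exact segment_subset_closedTri (D.posT i) hi.right_vert hi.left_vert hxe
  · have hev := region_eventually P hb
    constructor
    · intro hxr
      by_contra hno
      push Not at hno
      have hcl : ∀ᶠ y in 𝓝 x, ∀ i, y ∉ ClosedTri p (T i) :=
        eventually_all.2 fun i => (isClosed_closedTri p (T i)).isOpen_compl.mem_nhds (hno i)
      obtain ⟨V, hV, hVo, hxV⟩ := mem_nhds_iff.1 (hev.and hcl)
      obtain ⟨y, hy, hyV⟩ := (dense_generic (allEdges p (fam T F X) Δ)).exists_mem_open hVo ⟨x, hxV⟩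
      obtain ⟨⟨-, h1⟩, h2⟩ := hV hyV
      obtain ⟨i, hi⟩ := (D.region_generic (D.gen_of_generic hy)).1 (h1.2 hxr)
      exact h2 i (openTri_subset _ _ hi)
    · rintro ⟨i, hi⟩
      obtain ⟨y, hy, hyi, hyg⟩ := exists_generic (D.posT i) hi hev (allEdges p (fam T F X) Δ)
      exact hy.2.1 ((D.region_generic (D.gen_of_generic hyg)).2 ⟨i, hyi⟩)

theorem Data.notVertΔ (D : Data P s p T F hole X Δ) {i : ι} {a : ℕ} (h : IsVert (T i) a) : ¬ IsVert Δ a := by
  intro h'
  have := D.labT i a h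
  have := D.labΔ a h'
  omega

theorem Data.injOn (D : Data P s p T F hole X Δ) : Set.InjOn p (Finset.range (P.n + s)) := by
  intro a ha b hb hab
  obtain ⟨i, hi⟩ := D.used a (Finset.mem_range.1 ha)
  obtain ⟨j, hj⟩ := D.used b (Finset.mem_range.1 hb)
  exact D.full.inj (i := Sum.inl i) (j := Sum.inl j) (D.notVertΔ hi) hi hj hab

/-- a point that is in two closed triangles of the family, the first one in the polygon: it is in the hull of the common
vertices -/
theorem Data.face (D : Data P s p T F hole X Δ) {i : ι} {j : ι ⊕ κ ⊕ ξ} {x : Pt} (hi : x ∈ ClosedTri p (T i))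
    (hj : x ∈ ClosedTri p (fam T F X j)) :
    Sum.inl i = j ∨ (∃ a b, IsEdge (T i) a b ∧ IsVert (fam T F X j) a ∧ IsVert (fam T F X j) b ∧
      x ∈ openSegment ℝ (p a) (p b)) ∨ ∃ a, IsVert (T i) a ∧ IsVert (fam T F X j) a ∧ x = p a := by
  rcases closedTri_cases (D.posT i) hi with h | ⟨a, b, he, h⟩ | ⟨a, ha, h⟩
  · exact Or.inl (D.full.eq_of_mem_open (i := Sum.inl i) h hj)
  · obtain ⟨k, hk⟩ := D.full.twin (i := Sum.inl i) (a := a) (b := b) he (fun h' => D.notVertΔ he.left_vert h'.left_vert)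
      (fun h' => D.notVertΔ he.left_vert h'.right_vert)
    rcases D.full.eq_of_mem_edge (i := Sum.inl i) (j := k) he hk h hj with h1 | h1
    · exact Or.inl h1.symm
    · subst h1
      exact Or.inr (Or.inl ⟨a, b, he, hk.right_vert, hk.left_vert, h⟩)
  · refine Or.inr (Or.inr ⟨a, ha, ?_, h⟩)
    exact D.full.mem_vert (i := Sum.inl i) (D.notVertΔ ha) ha (by rw [← h]; exact hj)

/-- The triangulation, as a set of vertex sets. -/
def triSet (T : ι → ℕ × ℕ × ℕ) : Finset (Finset ℕ) := Finset.univ.image fun i => vs (T i)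

theorem mem_triSet {T : ι → ℕ × ℕ × ℕ} {t : Finset ℕ} : t ∈ triSet T ↔ ∃ i, vs (T i) = t := by
  unfold triSet; simp

/-- R8: the family is a triangulation. -/
theorem Data.isTriangulation (D : Data P s p T F hole X Δ) :
    IsTriangulation P.region (Finset.range (P.n + s)) p (triSet T) where
  inj := D.injOn
  three := by
    intro t ht
    obtain ⟨i, rfl⟩ := mem_triSet.1 ht
    exact ⟨fun a ha => Finset.mem_range.2 (D.labT i a (mem_vs.1 ha)), card_vs (D.posT i)⟩
  indep := by
    intro t ht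
    obtain ⟨i, rfl⟩ := mem_triSet.1 ht
    exact indep_vs (D.posT i)
  inter := by
    intro t ht t' ht'
    obtain ⟨i, rfl⟩ := mem_triSet.1 ht
    obtain ⟨j, rfl⟩ := mem_triSet.1 ht'
    apply Set.Subset.antisymm
    · rintro x ⟨hx, hx'⟩
      rw [hull_vs (D.posT i)] at hx
      rw [hull_vs (D.posT j)] at hx'
      rcases D.face (j := Sum.inl j) hx hx' with h | ⟨a, b, he, h1, h2, h3⟩ | ⟨a, h1, h2, h3⟩
      · have : i = j := by simpa using h
        subst this
        rw [Finset.inter_self, hull_vs (D.posT i)]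
        exact hx
      · have ha : p a ∈ p '' ((vs (T i) ∩ vs (T j) : Finset ℕ) : Set ℕ) :=
          ⟨a, by simpa using ⟨mem_vs.2 he.left_vert, mem_vs.2 h1⟩, rfl⟩
        have hb : p b ∈ p '' ((vs (T i) ∩ vs (T j) : Finset ℕ) : Set ℕ) :=
          ⟨b, by simpa using ⟨mem_vs.2 he.right_vert, mem_vs.2 h2⟩, rfl⟩
        exact (convex_convexHull ℝ _).segment_subset (subset_convexHull ℝ _ ha) (subset_convexHull ℝ _ hb)
          (openSegment_subset_segment ℝ _ _ h3)
      · rw [h3]
        exact subset_convexHull ℝ _ ⟨a, by simpa using ⟨mem_vs.2 h1, mem_vs.2 h2⟩, rfl⟩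
    · refine Set.subset_inter ?_ ?_
      · refine convexHull_mono (Set.image_mono ?_)
        intro a ha
        exact (Finset.mem_inter.1 ha).1
      · refine convexHull_mono (Set.image_mono ?_)
        intro a ha
        exact (Finset.mem_inter.1 ha).2
  used := by
    intro v hv
    obtain ⟨i, hi⟩ := D.used v (Finset.mem_range.1 hv)
    exact ⟨_, mem_triSet.2 ⟨i, rfl⟩, mem_vs.2 hi⟩
  union := by
    rw [D.region_eq]
    ext x
    simp only [Set.mem_iUnion]
    constructor
    · rintro ⟨t, ht, hx⟩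
      obtain ⟨i, rfl⟩ := mem_triSet.1 ht
      rw [hull_vs (D.posT i)] at hx
      exact ⟨i, hx⟩
    · rintro ⟨i, hx⟩
      exact ⟨_, mem_triSet.2 ⟨i, rfl⟩, by rw [hull_vs (D.posT i)]; exact hx⟩

end Pool.Agent.Lib.MP_6ff0c5_lc.K
end

section

/-!
The covering tool: validity of the polygon with holes.
-/

set_option autoImplicit false

namespace Pool.Agent.Lib.MP_6ff0c5_lc.K

open Filter Topology

/-- Two edges of a triangle whose open segments meet are equal. -/
theorem edge_unique {Λ : Type*} {p : Λ → Pt} {t : Λ × Λ × Λ} (ht : 0 < otri p t) {a b c d : Λ} (h1 : IsEdge t a b)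
    (h2 : IsEdge t c d) {x : Pt} (hx : x ∈ openSegment ℝ (p a) (p b)) (hx' : x ∈ openSegment ℝ (p c) (p d)) :
    a = c ∧ b = d := by
  have key : ∀ a b c : Pt, 0 < orient a b c → ∀ x ∈ openSegment ℝ a b, 0 < orient b c x ∧ 0 < orient c a x := by
    rintro a b c h x ⟨s, r, hs, hr, hsr, rfl⟩
    have e1 : orient b c (s • a + r • b) = s * orient a b c := by
      have : s = 1 - r := by linarith
      unfold orient
      simp only [Prod.fst_add, Prod.smul_fst, smul_eq_mul, Prod.snd_add, Prod.smul_snd, this]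
      ring
    have e2 : orient c a (s • a + r • b) = r * orient a b c := by
      have : s = 1 - r := by linarith
      unfold orient
      simp only [Prod.fst_add, Prod.smul_fst, smul_eq_mul, Prod.snd_add, Prod.smul_snd, this]
      ring
    rw [e1, e2]
    exact ⟨by positivity, by positivity⟩
  have h0 := orient_of_mem_segment (openSegment_subset_segment ℝ _ _ hx')
  obtain ⟨u, v, w⟩ := t
  unfold otri at ht
  unfold IsEdge at h1 h2
  simp only at ht h1 h2
  rcases h1 with ⟨rfl, rfl⟩ | ⟨rfl, rfl⟩ | ⟨rfl, rfl⟩ <;> rcases h2 with ⟨rfl, rfl⟩ | ⟨rfl, rfl⟩ | ⟨rfl, rfl⟩ <;>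
    first
      | exact ⟨rfl, rfl⟩
      | (exfalso
         first
          | (have := key _ _ _ ht x hx; linarith [this.1, this.2])
          | (have := key _ _ _ (by rw [orient_rot]; exact ht) x hx; linarith [this.1, this.2])
          | (have := key _ _ _ (by rw [orient_rot']; exact ht) x hx; linarith [this.1, this.2]))

/-- A vertex of a triangle that is on an edge is an end of this edge. -/
theorem vert_on_edge {Λ : Type*} {p : Λ → Pt} {t : Λ × Λ × Λ} (ht : 0 < otri p t) {a b v : Λ} (h1 : IsEdge t a b)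
    (hv : IsVert t v) (hx : p v ∈ segment ℝ (p a) (p b)) : v = a ∨ v = b := by
  have h0 := orient_of_mem_segment hx
  by_contra hno
  push Not at hno
  obtain ⟨u, w, z⟩ := t
  unfold otri at ht
  unfold IsEdge at h1
  unfold IsVert at hv
  simp only at ht h1 hv
  rcases h1 with ⟨rfl, rfl⟩ | ⟨rfl, rfl⟩ | ⟨rfl, rfl⟩ <;> rcases hv with rfl | rfl | rfl <;>
    first
      | exact hno.1 rfl
      | exact hno.2 rfl
      | (rw [h0] at ht; exact lt_irrefl _ ht)
      | (rw [orient_rot] at h0; rw [h0] at ht; exact lt_irrefl _ ht)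
      | (rw [orient_rot'] at h0; rw [h0] at ht; exact lt_irrefl _ ht)

variable {P : Poly} {s : ℕ} {p : ℕ → Pt} {ι κ ξ : Type} [Fintype ι] [Fintype κ] [Fintype ξ]
  {T : ι → ℕ × ℕ × ℕ} {F : κ → ℕ × ℕ × ℕ} {hole : κ → Fin P.holes.length} {X : ξ → ℕ × ℕ × ℕ} {Δ : ℕ × ℕ × ℕ}

/-- An edge of the polygon: the directed triangle edge, and its twin outside of the polygon. -/
theorem Data.edge_twin (D : Data P s p T F hole X Δ) {e : ℕ × ℕ} (he : e ∈ P.edges) :
    ∃ a b, (({a, b} : Set ℕ) = {e.1, e.2}) ∧ (∃ i, IsEdge (T i) a b) ∧ (∃ j, IsEdge (Sum.elim F X j) b a) ∧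
      segment ℝ (P.pos e.1) (P.pos e.2) = segment ℝ (p a) (p b) ∧
      (e ∈ cycEdges P.outer → (a, b) = e) ∧ (e ∉ cycEdges P.outer → (b, a) = e) := by
  by_cases h : e ∈ cycEdges P.outer
  · have h1 := mem_of_mem_cycEdges (a := e.1) (b := e.2) h
    obtain ⟨hi, j, hj⟩ := D.outer_edge (a := e.1) (b := e.2) h
    refine ⟨e.1, e.2, rfl, hi, ⟨Sum.inr j, hj⟩, ?_, fun _ => rfl, fun h' => absurd h h'⟩
    rw [D.pos_of_mem (outer_mem P) h1.1, D.pos_of_mem (outer_mem P) h1.2]
  · rcases (mem_edges_iff P e).1 he with h' | ⟨k, h'⟩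
    · exact absurd h' h
    · have h1 := mem_of_mem_cycEdges (a := e.1) (b := e.2) h'
      obtain ⟨hi, j, -, hj⟩ := D.hole_edge k (a := e.1) (b := e.2) h'
      refine ⟨e.2, e.1, Set.pair_comm _ _, hi, ⟨Sum.inl j, hj⟩, ?_, fun h'' => absurd h'' h, fun _ => rfl⟩
      rw [D.pos_of_mem (hole_mem P k) h1.1, D.pos_of_mem (hole_mem P k) h1.2, segment_symm]

theorem Data.vert_edge (D : Data P s p T F hole X Δ) {v a b : ℕ} (hv : v < P.n + s) {i : ι} (hi : IsEdge (T i) a b)
    (hx : p v ∈ segment ℝ (p a) (p b)) : v = a ∨ v = b := by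
  obtain ⟨j, hj⟩ := D.used v hv
  have h1 : IsVert (T i) v := D.full.mem_vert (i := Sum.inl j) (k := Sum.inl i) (D.notVertΔ hj) hj
    (segment_subset_closedTri (D.posT i) hi.left_vert hi.right_vert hx)
  exact vert_on_edge (D.posT i) hi h1 hx

theorem Data.simple (D : Data P s p T F hole X Δ) : ∀ e ∈ P.edges, ∀ f ∈ P.edges, e ≠ f →
    segment ℝ (P.pos e.1) (P.pos e.2) ∩ segment ℝ (P.pos f.1) (P.pos f.2) =
      P.pos '' ({e.1, e.2} ∩ {f.1, f.2}) := by
  intro e he f hf hef
  obtain ⟨a, b, hab, ⟨i, hi⟩, ⟨i', hi'⟩, hseg, hE1, hE2⟩ := D.edge_twin he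
  obtain ⟨c, d, hcd, ⟨j, hj⟩, -, hseg', hF1, hF2⟩ := D.edge_twin hf
  have hlt : ∀ v, v ∈ ({e.1, e.2} : Set ℕ) ∨ v ∈ ({f.1, f.2} : Set ℕ) → v < P.n := by
    have key : ∀ e ∈ P.edges, ∀ v, v ∈ ({e.1, e.2} : Set ℕ) → v < P.n := by
      intro e he v hv
      obtain ⟨c, hc, he'⟩ := List.mem_flatMap.1 he
      have h1 := mem_of_mem_cycEdges (a := e.1) (b := e.2) he'
      rcases hv with rfl | rfl
      · exact D.lt_of_mem hc h1.1
      · exact D.lt_of_mem hc h1.2
    rintro v (hv | hv)
    · exact key e he v hv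
    · exact key f hf v hv
  rw [hseg, hseg', ← hab, ← hcd]
  rw [← hab, ← hcd] at hlt
  apply Set.Subset.antisymm
  · rintro x ⟨hx, hx'⟩
    have hve : ∀ v ∈ ({a, b} : Set ℕ), x = p v → x ∈ P.pos '' ({a, b} ∩ {c, d}) := by
      intro v hv hxv
      have hvn := hlt v (Or.inl hv)
      refine ⟨v, ⟨hv, ?_⟩, by rw [hxv, D.pos_eq v hvn]⟩
      rcases D.vert_edge (lt_of_lt_of_le hvn (Nat.le_add_right _ _)) hj (by rw [← hxv]; exact hx') with h | h
      · exact Or.inl h
      · exact Or.inr h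
    have hvf : ∀ v ∈ ({c, d} : Set ℕ), x = p v → x ∈ P.pos '' ({a, b} ∩ {c, d}) := by
      intro v hv hxv
      have hvn := hlt v (Or.inr hv)
      refine ⟨v, ⟨?_, hv⟩, by rw [hxv, D.pos_eq v hvn]⟩
      rcases D.vert_edge (lt_of_lt_of_le hvn (Nat.le_add_right _ _)) hi (by rw [← hxv]; exact hx) with h | h
      · exact Or.inl h
      · exact Or.inr h
    rcases eq_or_ne (p a) x with h1 | h1
    · exact hve a (Or.inl rfl) h1.symm
    rcases eq_or_ne (p b) x with h2 | h2
    · exact hve b (Or.inr rfl) h2.symm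
    rcases eq_or_ne (p c) x with h3 | h3
    · exact hvf c (Or.inl rfl) h3.symm
    rcases eq_or_ne (p d) x with h4 | h4
    · exact hvf d (Or.inr rfl) h4.symm
    exfalso
    have ho := mem_openSegment_of_ne_left_right h1 h2 hx
    have ho' := mem_openSegment_of_ne_left_right h3 h4 hx'
    have hxj : x ∈ ClosedTri p (fam T F X (Sum.inl j)) := segment_subset_closedTri (D.posT j) hj.left_vert hj.right_vert hx'
    rcases D.full.eq_of_mem_edge (i := Sum.inl i) (j := Sum.inr i') (a := a) (b := b) hi hi' ho hxj with h | h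
    · have hji : j = i := by simpa using h
      subst hji
      obtain ⟨rfl, rfl⟩ := edge_unique (D.posT j) hi hj ho ho'
      by_cases g1 : e ∈ cycEdges P.outer <;> by_cases g2 : f ∈ cycEdges P.outer
      · exact hef ((hE1 g1).symm.trans (hF1 g2))
      · have g3 := hE1 g1
        have g4 := hF2 g2
        rcases (mem_edges_iff P f).1 hf with h' | ⟨k, h'⟩
        · exact g2 h'
        · rw [← g4] at h'
          rw [← g3] at g1
          exact D.outer_hole k (mem_of_mem_cycEdges g1).1 (mem_of_mem_cycEdges h').2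
      · have g3 := hE2 g1
        have g4 := hF1 g2
        rcases (mem_edges_iff P e).1 he with h' | ⟨k, h'⟩
        · exact g1 h'
        · rw [← g3] at h'
          rw [← g4] at g2
          exact D.outer_hole k (mem_of_mem_cycEdges g2).1 (mem_of_mem_cycEdges h').2
      · exact hef ((hE2 g1).symm.trans (hF2 g2))
    · exact absurd h (by simp)
  · rintro x ⟨v, ⟨hv1, hv2⟩, rfl⟩
    have hvn := hlt v (Or.inl hv1)
    rw [← D.pos_eq v hvn]
    constructor
    · rcases hv1 with rfl | rfl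
      · exact left_mem_segment ℝ _ _
      · exact right_mem_segment ℝ _ _
    · rcases hv2 with rfl | rfl
      · exact left_mem_segment ℝ _ _
      · exact right_mem_segment ℝ _ _

/-- the position of a label that is not on a cycle is off this cycle -/
theorem Data.off_cycle (D : Data P s p T F hole X Δ) {c : List ℕ} (hc : c ∈ P.cycles) {v : ℕ} (hv : v < P.n + s)
    (hvc : v ∉ c) : ∀ e ∈ cycEdges c, p v ∉ segment ℝ (p e.1) (p e.2) := by
  intro e he hx
  have h1 := mem_of_mem_cycEdges (a := e.1) (b := e.2) he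
  have he' : e ∈ P.edges := List.mem_flatMap.2 ⟨c, hc, he⟩
  obtain ⟨⟨i, hi | hi⟩, -⟩ := D.edge he'
  · rcases D.vert_edge hv hi hx with rfl | rfl
    · exact hvc h1.1
    · exact hvc h1.2
  · rcases D.vert_edge hv hi (by rw [segment_symm]; exact hx) with rfl | rfl
    · exact hvc h1.2
    · exact hvc h1.1

/-- near the position of a label there is a generic point of the polygon -/
theorem Data.near (D : Data P s p T F hole X Δ) {v : ℕ} (hv : v < P.n + s) {Q : Pt → Prop} (hQ : ∀ᶠ y in 𝓝 (p v), Q y) :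
    ∃ y, Q y ∧ Gen p (fam T F X) Δ y ∧ ∃ i, y ∈ OpenTri p (T i) := by
  obtain ⟨i, hi⟩ := D.used v hv
  obtain ⟨y, hy, hyi, hyg⟩ := exists_generic (D.posT i) (vert_mem_closedTri (D.posT i) hi) hQ
    (allEdges p (fam T F X) Δ)
  exact ⟨y, hy, D.gen_of_generic hyg, i, hyi⟩

/-- R9: the polygon with holes is valid. -/
theorem Data.valid (D : Data P s p T F hole X Δ) : P.Valid where
  vertices := D.perm
  three := D.three
  distinct := by
    intro a ha b hb hab
    have ha' : a < P.n := ha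
    have hb' : b < P.n := hb
    rw [← D.pos_eq a ha', ← D.pos_eq b hb'] at hab
    exact D.injOn (by simp; omega) (by simp; omega) hab
  simple := D.simple
  inside := by
    intro c hc v hv
    obtain ⟨h, rfl⟩ := List.get_of_mem hc
    have hvn := D.lt_of_mem (hole_mem P h) hv
    have hvn' : v < P.n + s := by omega
    have hvo : v ∉ P.outer := fun h' => D.outer_hole h h' hv
    rw [D.inside_eq (outer_mem P), ← D.pos_eq v hvn]
    obtain ⟨y, hy, hyg, i, hyi⟩ := D.near hvn' (inside_eventually p P.outer (D.off_cycle (outer_mem P) hvn' hvo))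
    exact hy.2.1 ((D.inside_outer hyg).2 (Or.inl ⟨i, hyi⟩))
  apart := by
    intro c hc d hd hcd v hv
    obtain ⟨h, rfl⟩ := List.get_of_mem hc
    obtain ⟨h', rfl⟩ := List.get_of_mem hd
    have hne : h ≠ h' := fun e => hcd (by rw [e])
    have hvn := D.lt_of_mem (hole_mem P h) hv
    have hvn' : v < P.n + s := by omega
    have hvo : v ∉ P.holes.get h' := D.hole_hole hne hv
    rw [D.inside_eq (hole_mem P h'), ← D.pos_eq v hvn]
    obtain ⟨y, hy, hyg, i, hyi⟩ := D.near hvn'
      (inside_eventually p (P.holes.get h') (D.off_cycle (hole_mem P h') hvn' hvo))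
    intro hin
    obtain ⟨k, -, hk⟩ := (D.inside_hole hyg h').1 (hy.2.2 hin)
    have := D.full.disjoint (i := Sum.inl i) (j := Sum.inr (Sum.inl k)) hyi hk
    simp at this

end Pool.Agent.Lib.MP_6ff0c5_lc.K
end
end

section

section

/-!
Oriented triangles of a triangulation: basic facts.
-/

set_option autoImplicit false

namespace Pool.Agent.Lib.MP_6ff0c5_lc.K

open Filter Topology

/-- `(a, b, c)` is a counterclockwise triangle of the triangulation `S` (with the positions `p`). -/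
def Tr (p : ℕ → Pt) (S : Finset (Finset ℕ)) (a b c : ℕ) : Prop :=
  ({a, b, c} : Finset ℕ) ∈ S ∧ 0 < orient (p a) (p b) (p c)

variable {R : Set Pt} {V : Finset ℕ} {p : ℕ → Pt} {S : Finset (Finset ℕ)}

theorem Tr.rot {a b c : ℕ} (h : Tr p S a b c) : Tr p S b c a :=
  ⟨by
    have : ({b, c, a} : Finset ℕ) = {a, b, c} := by ext x; simp; tauto
    rw [this]; exact h.1, by rw [orient_rot]; exact h.2⟩

theorem Tr.pos {a b c : ℕ} (h : Tr p S a b c) : 0 < otri p (a, b, c) := h.2

theorem Tr.hull {a b c : ℕ} (h : Tr p S a b c) :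
    convexHull ℝ (p '' (({a, b, c} : Finset ℕ) : Set ℕ)) = ClosedTri p (a, b, c) := hull_vs (t := (a, b, c)) h.2

theorem Tr.mem_V (hS : IsTriangulation R V p S) {a b c : ℕ} (h : Tr p S a b c) : a ∈ V ∧ b ∈ V ∧ c ∈ V := by
  have := (hS.three _ h.1).1
  exact ⟨this (by simp), this (by simp), this (by simp)⟩

/-- Every element of the triangulation is a counterclockwise triangle. -/
theorem exists_tr (hS : IsTriangulation R V p S) {t : Finset ℕ} (ht : t ∈ S) :
    ∃ a b c, t = {a, b, c} ∧ Tr p S a b c := by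
  obtain ⟨a, b, c, hab, hac, hbc, rfl⟩ := Finset.card_eq_three.1 (hS.three t ht).2
  have hind := hS.indep _ ht
  have hne : orient (p a) (p b) (p c) ≠ 0 := by
    intro h0
    have hA : AffineIndependent ℝ ![p a, p b, p c] := by
      have e : (![p a, p b, p c] : Fin 3 → Pt) = (fun v : ({a, b, c} : Finset ℕ) => p v) ∘
          ![⟨a, by simp⟩, ⟨b, by simp⟩, ⟨c, by simp⟩] := by
        funext i; fin_cases i <;> rfl
      rw [e]
      refine hind.comp_embedding ⟨_, ?_⟩
      intro i j hij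
      have hv := congrArg Subtype.val hij
      fin_cases i <;> fin_cases j <;>
        first
          | rfl
          | exact absurd hv hab
          | exact absurd hv hac
          | exact absurd hv hbc
          | exact absurd hv.symm hab
          | exact absurd hv.symm hac
          | exact absurd hv.symm hbc
    rw [affineIndependent_iff_not_collinear_set] at hA
    apply hA
    -- collinear
    rw [collinear_iff_of_mem (p₀ := p a) (by simp)]
    by_cases hpab : p a = p b
    · exact ⟨p c - p a, by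
        rintro q (rfl | rfl | rfl)
        · exact ⟨0, by simp⟩
        · exact ⟨0, by simp [hpab]⟩
        · exact ⟨1, by simp⟩⟩
    · have hd : (0 : ℝ) < ((p b).1 - (p a).1) ^ 2 + ((p b).2 - (p a).2) ^ 2 := by
        rcases eq_or_ne (p a).1 (p b).1 with h1 | h1
        · have h2 : (p b).2 - (p a).2 ≠ 0 := fun h3 => hpab (Prod.ext h1 (by linarith))
          positivity
        · have h2 : (p b).1 - (p a).1 ≠ 0 := fun h3 => h1 (by linarith)
          positivity
      refine ⟨p b - p a, ?_⟩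
      rintro q (rfl | rfl | rfl)
      · exact ⟨0, by simp⟩
      · exact ⟨1, by simp⟩
      · refine ⟨(((p c).1 - (p a).1) * ((p b).1 - (p a).1) + ((p c).2 - (p a).2) * ((p b).2 - (p a).2)) /
          (((p b).1 - (p a).1) ^ 2 + ((p b).2 - (p a).2) ^ 2), ?_⟩
        unfold orient at h0
        apply Prod.ext
        · simp only [vadd_eq_add, Prod.fst_add, Prod.smul_fst, smul_eq_mul, Prod.fst_sub]
          field_simp
          linear_combination (-((p b).2 - (p a).2)) * h0
        · simp only [vadd_eq_add, Prod.snd_add, Prod.smul_snd, smul_eq_mul, Prod.snd_sub]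
          field_simp
          linear_combination ((p b).1 - (p a).1) * h0
  rcases lt_or_gt_of_ne hne with h | h
  · refine ⟨b, a, c, ?_, ?_, ?_⟩
    · ext x; simp; tauto
    · have : ({b, a, c} : Finset ℕ) = {a, b, c} := by ext x; simp; tauto
      rw [this]; exact ht
    · rw [orient_swap]; linarith
  · exact ⟨a, b, c, rfl, ht, h⟩

/-- The region is covered by the closed triangles. -/
theorem exists_tr_of_mem (hS : IsTriangulation R V p S) {x : Pt} (hx : x ∈ R) :
    ∃ a b c, Tr p S a b c ∧ x ∈ ClosedTri p (a, b, c) := by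
  rw [← hS.union] at hx
  simp only [Set.mem_iUnion] at hx
  obtain ⟨t, ht, hx⟩ := hx
  obtain ⟨a, b, c, rfl, h⟩ := exists_tr hS ht
  rw [h.hull] at hx
  exact ⟨a, b, c, h, hx⟩

theorem Tr.subset (hS : IsTriangulation R V p S) {a b c : ℕ} (h : Tr p S a b c) : ClosedTri p (a, b, c) ⊆ R := by
  intro x hx
  rw [← hS.union]
  simp only [Set.mem_iUnion]
  exact ⟨_, h.1, by rw [h.hull]; exact hx⟩

/-- A label whose position is in a closed triangle is a vertex of this triangle. -/
theorem Tr.vert (hS : IsTriangulation R V p S) {a b c z : ℕ} (h : Tr p S a b c) (hz : z ∈ V)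
    (hx : p z ∈ ClosedTri p (a, b, c)) : z = a ∨ z = b ∨ z = c := by
  obtain ⟨t, ht, hzt⟩ := hS.used z hz
  obtain ⟨d, e, f, rfl, h'⟩ := exists_tr hS ht
  have hi := hS.inter _ h'.1 _ h.1
  have hmem : p z ∈ convexHull ℝ (p '' ((({d, e, f} : Finset ℕ) ∩ {a, b, c} : Finset ℕ) : Set ℕ)) := by
    rw [← hi, h'.hull, h.hull]
    exact ⟨vert_mem_closedTri (t := (d, e, f)) h'.2 (by simpa [IsVert] using hzt), hx⟩
  by_contra hno
  have hznot : z ∉ ({a, b, c} : Finset ℕ) := by simpa using hno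
  -- the hull of the other two vertices does not contain `z`
  have key : ∀ z u v : ℕ, 0 < orient (p z) (p u) (p v) → ∀ W : Finset ℕ, W ⊆ {z, u, v} → z ∉ W →
      p z ∉ convexHull ℝ (p '' (W : Set ℕ)) := by
    intro z u v hzuv W hW hzW hmem
    have hsub : convexHull ℝ (p '' (W : Set ℕ)) ⊆ {x | orient (p u) (p v) x = 0} := by
      refine convexHull_min ?_ ?_
      · rintro _ ⟨w, hw, rfl⟩
        have := hW hw
        simp only [Finset.mem_insert, Finset.mem_singleton] at this
        rcases this with rfl | rfl | rfl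
        · exact absurd hw hzW
        · exact orient_self_out _ _
        · exact orient_self_mid _ _
      · intro x hx y hy s r hs hr hsr
        show orient (p u) (p v) (s • x + r • y) = 0
        rw [orient_affine _ _ _ _ _ _ hsr, show orient (p u) (p v) x = 0 from hx, show orient (p u) (p v) y = 0 from hy]
        ring
    have := hsub hmem
    have h0 : orient (p u) (p v) (p z) = 0 := this
    rw [orient_rot] at h0
    rw [h0] at hzuv
    exact lt_irrefl _ hzuv
  have hzd : z = d ∨ z = e ∨ z = f := by simpa using hzt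
  have hW : ∀ w, w ∈ (({d, e, f} : Finset ℕ) ∩ {a, b, c}) → w = d ∨ w = e ∨ w = f := by
    intro w hw
    simpa using (Finset.mem_inter.1 hw).1
  have hzW : z ∉ (({d, e, f} : Finset ℕ) ∩ {a, b, c}) := fun hh => hznot (Finset.mem_inter.1 hh).2
  rcases hzd with rfl | rfl | rfl
  · exact key z e f h'.2 _ (fun w hw => by have := hW w hw; simpa using this) hzW hmem
  · exact key z f d h'.rot.2 _ (fun w hw => by have := hW w hw; simp; tauto) hzW hmem
  · exact key z d e h'.rot.rot.2 _ (fun w hw => by have := hW w hw; simp; tauto) hzW hmem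

/-- Different triangles have disjoint interiors; even more: a point of an open triangle is in no other closed triangle. -/
theorem Tr.eq_of_open (hS : IsTriangulation R V p S) {a b c d e f : ℕ} (h : Tr p S a b c) (h' : Tr p S d e f) {x : Pt}
    (hx : x ∈ OpenTri p (a, b, c)) (hx' : x ∈ ClosedTri p (d, e, f)) : ({a, b, c} : Finset ℕ) = {d, e, f} := by
  have hi := hS.inter _ h.1 _ h'.1
  have hmem : x ∈ convexHull ℝ (p '' ((({a, b, c} : Finset ℕ) ∩ {d, e, f} : Finset ℕ) : Set ℕ)) := by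
    rw [← hi, h'.hull, h.hull]
    exact ⟨openTri_subset _ _ hx, hx'⟩
  have hall : ({a, b, c} : Finset ℕ) ⊆ {d, e, f} := by
    by_contra hno
    rw [Finset.not_subset] at hno
    obtain ⟨z, hz, hz'⟩ := hno
    have key : ∀ z u v : ℕ, 0 < orient (p z) (p u) (p v) → 0 < orient (p u) (p v) x → ∀ W : Finset ℕ, W ⊆ {z, u, v} →
        z ∉ W → x ∉ convexHull ℝ (p '' (W : Set ℕ)) := by
      intro z u v hzuv hxx W hW hzW hmem
      have hsub : convexHull ℝ (p '' (W : Set ℕ)) ⊆ {x | orient (p u) (p v) x = 0} := by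
        refine convexHull_min ?_ ?_
        · rintro _ ⟨w, hw, rfl⟩
          have := hW hw
          simp only [Finset.mem_insert, Finset.mem_singleton] at this
          rcases this with rfl | rfl | rfl
          · exact absurd hw hzW
          · exact orient_self_out _ _
          · exact orient_self_mid _ _
        · intro x hx y hy s r hs hr hsr
          show orient (p u) (p v) (s • x + r • y) = 0
          rw [orient_affine _ _ _ _ _ _ hsr, show orient (p u) (p v) x = 0 from hx, show orient (p u) (p v) y = 0 from hy]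
          ring
      have h0 : orient (p u) (p v) x = 0 := hsub hmem
      rw [h0] at hxx
      exact lt_irrefl _ hxx
    have hW : ∀ w, w ∈ (({a, b, c} : Finset ℕ) ∩ {d, e, f}) → w = a ∨ w = b ∨ w = c := by
      intro w hw
      simpa using (Finset.mem_inter.1 hw).1
    have hzW : z ∉ (({a, b, c} : Finset ℕ) ∩ {d, e, f}) := fun hh => hz' (Finset.mem_inter.1 hh).2
    have hz2 : z = a ∨ z = b ∨ z = c := by simpa using hz
    obtain ⟨x1, x2, x3⟩ := hx
    rcases hz2 with rfl | rfl | rfl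
    · exact key z b c h.2 x2 _ (fun w hw => by have := hW w hw; simpa using this) hzW hmem
    · exact key z c a h.rot.2 x3 _ (fun w hw => by have := hW w hw; simp; tauto) hzW hmem
    · exact key z a b h.rot.rot.2 x1 _ (fun w hw => by have := hW w hw; simp; tauto) hzW hmem
  exact Finset.eq_of_subset_of_card_le hall (by rw [(hS.three _ h.1).2, (hS.three _ h'.1).2])

/-- The triangle on the left of a directed edge is unique. -/
theorem Tr.unique (hS : IsTriangulation R V p S) {a b c d : ℕ} (h : Tr p S a b c) (h' : Tr p S a b d) : c = d := by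
  have hab : p a ≠ p b := (ne_of_otri h.pos).1
  have hm : ((1/2 : ℝ) • p a + (1/2 : ℝ) • p b) ∈ openSegment ℝ (p a) (p b) :=
    ⟨1/2, 1/2, by norm_num, by norm_num, by norm_num, rfl⟩
  have h1 := left_of_edge h.pos (a := a) (b := b) (Or.inl ⟨rfl, rfl⟩) hm
  have h2 := left_of_edge h'.pos (a := a) (b := b) (Or.inl ⟨rfl, rfl⟩) hm
  have hcl : ((1/2 : ℝ) • p a + (1/2 : ℝ) • p b) ∈ ClosedTri p (a, b, c) :=
    segment_subset_closedTri h.pos (Or.inl rfl) (Or.inr (Or.inl rfl)) (openSegment_subset_segment ℝ _ _ hm)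
  obtain ⟨y, hy, hyo, -⟩ := exists_generic h.pos hcl (h1.and h2) []
  have h3 := h.eq_of_open hS h' hyo (openTri_subset _ _ (hy.2 hyo.1))
  have hc : c ∈ ({a, b, d} : Finset ℕ) := by rw [← h3]; simp
  have hne := label_ne h.pos
  simp only [Finset.mem_insert, Finset.mem_singleton] at hc
  rcases hc with rfl | rfl | rfl
  · exact absurd rfl hne.2.2
  · exact absurd rfl hne.2.1
  · rfl

/-- Neighbours are joined by an edge of a counterclockwise triangle. -/
theorem adj_iff (hS : IsTriangulation R V p S) {u v : ℕ} : Adj S u v ↔ ∃ w, Tr p S u v w ∨ Tr p S v u w := by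
  constructor
  · rintro ⟨huv, t, ht, hu, hv⟩
    obtain ⟨a, b, c, rfl, h⟩ := exists_tr hS ht
    have h1 : IsVert (a, b, c) u := by simpa [IsVert] using hu
    have h2 : IsVert (a, b, c) v := by simpa [IsVert] using hv
    rcases isEdge_of_isVert h1 h2 huv with h3 | h3
    · rcases h3 with ⟨rfl, rfl⟩ | ⟨rfl, rfl⟩ | ⟨rfl, rfl⟩
      · exact ⟨c, Or.inl h⟩
      · exact ⟨a, Or.inl h.rot⟩
      · exact ⟨b, Or.inl h.rot.rot⟩
    · rcases h3 with ⟨rfl, rfl⟩ | ⟨rfl, rfl⟩ | ⟨rfl, rfl⟩
      · exact ⟨c, Or.inr h⟩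
      · exact ⟨a, Or.inr h.rot⟩
      · exact ⟨b, Or.inr h.rot.rot⟩
  · rintro ⟨w, h | h⟩
    · exact ⟨(label_ne h.pos).1, _, h.1, by simp, by simp⟩
    · exact ⟨(label_ne h.pos).1.symm, _, h.1, by simp, by simp⟩

end Pool.Agent.Lib.MP_6ff0c5_lc.K
end

section

/-!
Points on a line; edges of a triangulation.
-/

set_option autoImplicit false

namespace Pool.Agent.Lib.MP_6ff0c5_lc.K

open Filter Topology

/-- the point with the parameter `t` on the line through `a` and `b` -/
noncomputable def pt (a b : Pt) (t : ℝ) : Pt := (1 - t) • a + t • b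

theorem pt_zero (a b : Pt) : pt a b 0 = a := by unfold pt; simp
theorem pt_one (a b : Pt) : pt a b 1 = b := by unfold pt; simp

theorem pt_fst (a b : Pt) (t : ℝ) : (pt a b t).1 = (1 - t) * a.1 + t * b.1 := by
  unfold pt; simp

theorem pt_snd (a b : Pt) (t : ℝ) : (pt a b t).2 = (1 - t) * a.2 + t * b.2 := by
  unfold pt; simp

theorem sq_pos_of_ne {a b : Pt} (h : a ≠ b) : (0 : ℝ) < (b.1 - a.1) ^ 2 + (b.2 - a.2) ^ 2 := by
  rcases eq_or_ne a.1 b.1 with h1 | h1
  · have h2 : b.2 - a.2 ≠ 0 := fun h3 => h (Prod.ext h1 (by linarith))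
    positivity
  · have h2 : b.1 - a.1 ≠ 0 := fun h3 => h1 (by linarith)
    positivity

theorem exists_param {a b w : Pt} (hab : a ≠ b) (h : orient a b w = 0) : ∃ t, w = pt a b t := by
  have hd := sq_pos_of_ne hab
  refine ⟨((w.1 - a.1) * (b.1 - a.1) + (w.2 - a.2) * (b.2 - a.2)) / ((b.1 - a.1) ^ 2 + (b.2 - a.2) ^ 2), ?_⟩
  unfold orient at h
  apply Prod.ext
  · rw [pt_fst]
    field_simp
    linear_combination (-(b.2 - a.2)) * h
  · rw [pt_snd]
    field_simp
    linear_combination (b.1 - a.1) * h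

theorem pt_inj {a b : Pt} (hab : a ≠ b) {s t : ℝ} (h : pt a b s = pt a b t) : s = t := by
  have h1 := congrArg Prod.fst h
  have h2 := congrArg Prod.snd h
  rw [pt_fst, pt_fst] at h1
  rw [pt_snd, pt_snd] at h2
  have hd := sq_pos_of_ne hab
  have e : (s - t) * ((b.1 - a.1) ^ 2 + (b.2 - a.2) ^ 2) = 0 := by
    linear_combination (b.1 - a.1) * h1 + (b.2 - a.2) * h2
  rcases mul_eq_zero.1 e with h3 | h3
  · linarith
  · exact absurd h3 hd.ne'

theorem pt_pt (a b : Pt) (s r t : ℝ) : pt (pt a b s) (pt a b r) t = pt a b ((1 - t) * s + t * r) := by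
  apply Prod.ext
  · simp only [pt_fst]; ring
  · simp only [pt_snd]; ring

theorem mem_segment_iff_pt {a b x : Pt} : x ∈ segment ℝ a b ↔ ∃ t, 0 ≤ t ∧ t ≤ 1 ∧ x = pt a b t := by
  constructor
  · rintro ⟨s, t, hs, ht, hst, rfl⟩
    exact ⟨t, ht, by linarith, by unfold pt; rw [show s = 1 - t by linarith]⟩
  · rintro ⟨t, h0, h1, rfl⟩
    exact ⟨1 - t, t, by linarith, h0, by ring, rfl⟩

theorem mem_openSegment_iff_pt {a b x : Pt} : x ∈ openSegment ℝ a b ↔ ∃ t, 0 < t ∧ t < 1 ∧ x = pt a b t := by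
  constructor
  · rintro ⟨s, t, hs, ht, hst, rfl⟩
    exact ⟨t, ht, by linarith, by unfold pt; rw [show s = 1 - t by linarith]⟩
  · rintro ⟨t, h0, h1, rfl⟩
    exact ⟨1 - t, t, by linarith, h0, by ring, rfl⟩

theorem orient_pt (a b c d : Pt) (t : ℝ) : orient c d (pt a b t) = (1 - t) * orient c d a + t * orient c d b := by
  unfold pt; exact orient_affine _ _ _ _ _ _ (by ring)

/-- segments on a line, with parameters -/
theorem pt_mem_segment_pt {a b : Pt} (hab : a ≠ b) {s r t : ℝ} :
    pt a b t ∈ segment ℝ (pt a b s) (pt a b r) ↔ (s ≤ t ∧ t ≤ r) ∨ (r ≤ t ∧ t ≤ s) := by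
  rw [mem_segment_iff_pt]
  constructor
  · rintro ⟨u, h0, h1, h⟩
    rw [pt_pt] at h
    have := pt_inj hab h
    subst this
    rcases le_total s r with h2 | h2
    · left; constructor <;> nlinarith
    · right; constructor <;> nlinarith
  · intro h
    rcases eq_or_ne s r with h2 | h2
    · subst h2
      have : t = s := by rcases h with h | h <;> linarith
      subst this
      exact ⟨0, le_rfl, zero_le_one, by rw [pt_zero]⟩
    · refine ⟨(t - s) / (r - s), ?_, ?_, ?_⟩
      · rcases h with h | h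
        · exact div_nonneg (by linarith) (by linarith)
        · exact div_nonneg_of_nonpos (by linarith) (by linarith)
      · rcases h with h | h
        · rw [div_le_one (lt_of_le_of_ne (by linarith) (by intro h3; exact h2 (by linarith)))]; linarith
        · rw [div_le_one_of_neg (lt_of_le_of_ne (by linarith) (by intro h3; exact h2 (by linarith)))]; linarith
      · rw [pt_pt]
        congr 1
        have : r - s ≠ 0 := fun h3 => h2 (by linarith)
        field_simp
        ring

/-- If the open segment `a b` meets the segment `c d` of the same line, and `c`, `d` are not in the open segment, then `a`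
and `b` are in the segment `c d`. -/
theorem segment_subset_of_line {a b c d x : Pt} (hab : a ≠ b) (hc : orient a b c = 0) (hd : orient a b d = 0)
    (hx : x ∈ openSegment ℝ a b) (hx' : x ∈ segment ℝ c d) (hc' : c ∉ openSegment ℝ a b) (hd' : d ∉ openSegment ℝ a b) :
    a ∈ segment ℝ c d ∧ b ∈ segment ℝ c d := by
  obtain ⟨s, rfl⟩ := exists_param hab hc
  obtain ⟨r, rfl⟩ := exists_param hab hd
  obtain ⟨t, h0, h1, rfl⟩ := mem_openSegment_iff_pt.1 hx
  have hs : ¬ (0 < s ∧ s < 1) := fun h => hc' (mem_openSegment_iff_pt.2 ⟨s, h.1, h.2, rfl⟩)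
  have hr : ¬ (0 < r ∧ r < 1) := fun h => hd' (mem_openSegment_iff_pt.2 ⟨r, h.1, h.2, rfl⟩)
  rw [pt_mem_segment_pt hab] at hx'
  have ea : a = pt a b 0 := (pt_zero a b).symm
  have eb : b = pt a b 1 := (pt_one a b).symm
  have key : (s ≤ 0 ∧ 1 ≤ r) ∨ (r ≤ 0 ∧ 1 ≤ s) := by
    rcases hx' with h | h
    · left
      constructor
      · by_contra h2; push Not at h2; exact hs ⟨h2, by linarith⟩
      · by_contra h2; push Not at h2; exact hr ⟨by linarith, h2⟩
    · right
      constructor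
      · by_contra h2; push Not at h2; exact hr ⟨h2, by linarith⟩
      · by_contra h2; push Not at h2; exact hs ⟨by linarith, h2⟩
  have h3 : pt a b 0 ∈ segment ℝ (pt a b s) (pt a b r) := by
    rw [pt_mem_segment_pt hab]
    rcases key with h | h
    · left; constructor <;> linarith
    · right; constructor <;> linarith
  have h4 : pt a b 1 ∈ segment ℝ (pt a b s) (pt a b r) := by
    rw [pt_mem_segment_pt hab]
    rcases key with h | h
    · left; constructor <;> linarith
    · right; constructor <;> linarith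
  rw [pt_zero] at h3
  rw [pt_one] at h4
  exact ⟨h3, h4⟩

/-! ### Edges of a triangulation -/

variable {R : Set Pt} {V : Finset ℕ} {p : ℕ → Pt} {S : Finset (Finset ℕ)}

/-- a label on a closed edge is an end of this edge -/
theorem Tr.vert_edge (hS : IsTriangulation R V p S) {a b c z : ℕ} (h : Tr p S a b c) (hz : z ∈ V)
    (hx : p z ∈ segment ℝ (p a) (p b)) : z = a ∨ z = b := by
  have h1 := h.vert hS hz (segment_subset_closedTri h.pos (t := (a, b, c)) (a := a) (b := b) (Or.inl rfl)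
    (Or.inr (Or.inl rfl)) hx)
  rcases h1 with h1 | h1 | rfl
  · exact Or.inl h1
  · exact Or.inr h1
  · have h2 := orient_of_mem_segment hx
    have h3 := h.2
    rw [h2] at h3
    exact absurd h3 (lt_irrefl _)

theorem adj_vert_edge (hS : IsTriangulation R V p S) {a b z : ℕ} (h : Adj S a b) (hz : z ∈ V)
    (hx : p z ∈ segment ℝ (p a) (p b)) : z = a ∨ z = b := by
  obtain ⟨w, h1 | h1⟩ := (adj_iff hS).1 h
  · exact h1.vert_edge hS hz hx
  · exact (h1.vert_edge hS hz (by rw [segment_symm]; exact hx)).symm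

theorem adj_symm {u v : ℕ} (h : Adj S u v) : Adj S v u := by
  obtain ⟨h1, t, ht, h2, h3⟩ := h
  exact ⟨h1.symm, t, ht, h3, h2⟩

theorem adj_mem_V (hS : IsTriangulation R V p S) {u v : ℕ} (h : Adj S u v) : u ∈ V ∧ v ∈ V := by
  obtain ⟨h1, t, ht, h2, h3⟩ := h
  exact ⟨(hS.three t ht).1 h2, (hS.three t ht).1 h3⟩

theorem adj_pos_ne (hS : IsTriangulation R V p S) {u v : ℕ} (h : Adj S u v) : p u ≠ p v := by
  intro h'
  have := hS.inj (adj_mem_V hS h).1 (adj_mem_V hS h).2 h'
  exact h.1 this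

theorem Tr.adj {a b c : ℕ} (h : Tr p S a b c) : Adj S a b ∧ Adj S b c ∧ Adj S a c := by
  obtain ⟨h1, h2, h3⟩ := label_ne h.pos
  exact ⟨⟨h1, _, h.1, by simp, by simp⟩, ⟨h2, _, h.1, by simp, by simp⟩, ⟨h3.symm, _, h.1, by simp, by simp⟩⟩

theorem adj_segment_subset (hS : IsTriangulation R V p S) {u v : ℕ} (h : Adj S u v) :
    ∃ a b c, Tr p S a b c ∧ segment ℝ (p u) (p v) ⊆ ClosedTri p (a, b, c) ∧ (u = a ∨ u = b ∨ u = c) ∧
      (v = a ∨ v = b ∨ v = c) := by
  obtain ⟨h1, t, ht, h2, h3⟩ := h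
  obtain ⟨a, b, c, rfl, h4⟩ := exists_tr hS ht
  have h5 : u = a ∨ u = b ∨ u = c := by simpa using h2
  have h6 : v = a ∨ v = b ∨ v = c := by simpa using h3
  exact ⟨a, b, c, h4, segment_subset_closedTri h4.pos (t := (a, b, c)) h5 h6, h5, h6⟩

/-- No edge enters the angle of a triangle. -/
theorem Tr.wedge (hS : IsTriangulation R V p S) {v a b c : ℕ} (h : Tr p S v a b) (hc : Adj S v c) :
    ¬ (0 < orient (p v) (p a) (p c) ∧ 0 < orient (p v) (p c) (p b)) := by
  rintro ⟨h1, h2⟩
  have h3 := h.2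
  have hcont : Continuous fun t : ℝ => orient (p a) (p b) (pt (p v) (p c) t) := by
    unfold orient pt
    simp only [Prod.fst_add, Prod.smul_fst, smul_eq_mul, Prod.snd_add, Prod.smul_snd]
    fun_prop
  have h0 : 0 < orient (p a) (p b) (pt (p v) (p c) 0) := by
    rw [pt_zero, orient_rot]; exact h3
  have hev : ∀ᶠ t : ℝ in 𝓝[>] 0, 0 < orient (p a) (p b) (pt (p v) (p c) t) :=
    nhdsWithin_le_nhds (hcont.continuousAt.eventually (isOpen_Ioi.mem_nhds h0))
  have hone : ∀ᶠ t : ℝ in 𝓝[>] 0, t < 1 := by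
    filter_upwards [Ioo_mem_nhdsGT (zero_lt_one (α := ℝ))] with t ht using ht.2
  obtain ⟨t, ⟨ht1, ht2⟩, ht3⟩ := ((hev.and hone).and (self_mem_nhdsWithin)).exists
  have ht3' : (0 : ℝ) < t := ht3
  have e1 : orient (p v) (p a) (pt (p v) (p c) t) = t * orient (p v) (p a) (p c) := by
    rw [orient_pt, orient_self_out]; ring
  have e2 : orient (p b) (p v) (pt (p v) (p c) t) = t * orient (p v) (p c) (p b) := by
    rw [orient_pt, orient_self_mid, orient_rot' (p v) (p c) (p b)]; ring
  have hopen : pt (p v) (p c) t ∈ OpenTri p (v, a, b) :=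
    ⟨by show 0 < orient (p v) (p a) _; rw [e1]; positivity, ht1,
      by show 0 < orient (p b) (p v) _; rw [e2]; positivity⟩
  obtain ⟨d, e, f, h4, h5, h6, h7⟩ := adj_segment_subset hS hc
  have h8 := h.eq_of_open hS h4 hopen (h5 (mem_segment_iff_pt.2 ⟨t, ht3'.le, ht2.le, rfl⟩))
  have h9 : c ∈ ({v, a, b} : Finset ℕ) := by rw [h8]; simpa using h7
  simp only [Finset.mem_insert, Finset.mem_singleton] at h9
  rcases h9 with rfl | rfl | rfl
  · exact hc.1 rfl
  · rw [orient_self_mid] at h1; exact lt_irrefl _ h1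
  · rw [orient_self_mid] at h2; exact lt_irrefl _ h2

/-- Different neighbours are in different directions. -/
theorem adj_dir (hS : IsTriangulation R V p S) {v a b : ℕ} (ha : Adj S v a) (hb : Adj S v b) (hab : a ≠ b) :
    ¬ SameDir (p v) (p a) (p b) := by
  rintro ⟨h1, h2⟩
  have hva := adj_pos_ne hS ha
  have hvb := adj_pos_ne hS hb
  obtain ⟨t, ht⟩ := exists_param hva h1
  have hd := sq_pos_of_ne hva
  have ht0 : 0 < t := by
    unfold dot at h2
    rw [ht, pt_fst, pt_snd] at h2
    by_contra hle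
    push Not at hle
    have e : ((p a).1 - (p v).1) * ((1 - t) * (p v).1 + t * (p a).1 - (p v).1) +
        ((p a).2 - (p v).2) * ((1 - t) * (p v).2 + t * (p a).2 - (p v).2) =
        t * (((p a).1 - (p v).1) ^ 2 + ((p a).2 - (p v).2) ^ 2) := by ring
    rw [e] at h2
    nlinarith
  rcases le_or_gt t 1 with h3 | h3
  · rcases adj_vert_edge hS ha (adj_mem_V hS hb).2 (mem_segment_iff_pt.2 ⟨t, ht0.le, h3, ht⟩) with h | h
    · exact hb.1 h.symm
    · exact hab h.symm
  · have hmem : p a ∈ segment ℝ (p v) (p b) := by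
      have e0 : p v = pt (p v) (p a) 0 := (pt_zero _ _).symm
      have e1 : p a = pt (p v) (p a) 1 := (pt_one _ _).symm
      have := (pt_mem_segment_pt hva (s := 0) (r := t) (t := 1)).2 (Or.inl ⟨zero_le_one, h3.le⟩)
      rw [pt_zero, pt_one, ← ht] at this
      exact this
    rcases adj_vert_edge hS hb (adj_mem_V hS ha).2 hmem with h | h
    · exact ha.1 h.symm
    · exact hab h

end Pool.Agent.Lib.MP_6ff0c5_lc.K
end

section

/-!
Walls (boundary edges) and triangulations: twins, and the triangle at a wall.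
-/

set_option autoImplicit false

namespace Pool.Agent.Lib.MP_6ff0c5_lc.K

open Filter Topology

/-- A boundary edge, directed such that the region is on the left (all boundary polygons are listed counterclockwise). -/
def IsWall (P : Poly) (u v : ℕ) : Prop :=
  (u, v) ∈ cycEdges P.outer ∨ ∃ h : Fin P.holes.length, (v, u) ∈ cycEdges (P.holes.get h)

theorem half_closure {a b x : Pt} (hab : a ≠ b) (hx : orient a b x = 0) : x ∈ closure {y : Pt | 0 < orient a b y} := by
  have hn := sq_pos_of_ne hab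
  have hc : Tendsto (fun t : ℝ => ((x.1 - t * (b.2 - a.2), x.2 + t * (b.1 - a.1)) : Pt)) (𝓝[>] 0) (𝓝 x) := by
    have : Continuous fun t : ℝ => ((x.1 - t * (b.2 - a.2), x.2 + t * (b.1 - a.1)) : Pt) := by fun_prop
    have h0 := this.tendsto 0
    simp only [zero_mul, sub_zero, add_zero] at h0
    exact h0.mono_left nhdsWithin_le_nhds
  refine mem_closure_of_tendsto hc ?_
  filter_upwards [self_mem_nhdsWithin] with t ht
  have ht' : (0 : ℝ) < t := ht
  show 0 < orient a b _
  have : orient a b (x.1 - t * (b.2 - a.2), x.2 + t * (b.1 - a.1)) =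
      orient a b x + t * ((b.1 - a.1) ^ 2 + (b.2 - a.2) ^ 2) := by unfold orient; ring
  rw [this, hx, zero_add]
  positivity

theorem neBot_half {a b x : Pt} (hab : a ≠ b) (hx : orient a b x = 0) :
    (𝓝[{y : Pt | 0 < orient a b y}] x).NeBot := mem_closure_iff_nhdsWithin_neBot.1 (half_closure hab hx)

/-- an affine function that vanishes on a line -/
theorem orient_form (u v a b c y : Pt) : orient u v y * orient a b c =
    orient u v a * orient b c y + orient u v b * orient c a y + orient u v c * orient a b y := by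
  unfold orient; ring

section

variable {R : Set Pt} {V : Finset ℕ} {p : ℕ → Pt} {S : Finset (Finset ℕ)}

/-- If all points on the left of a line near `x` are in the region, then some closed triangle contains points on the left of
the line arbitrarily near to `x`. -/
theorem side (hS : IsTriangulation R V p S) {a b x : Pt} (hab : a ≠ b) (hx : orient a b x = 0)
    (hR : ∀ᶠ y in 𝓝 x, 0 < orient a b y → y ∈ R) :
    ∃ c d e, Tr p S c d e ∧ x ∈ ClosedTri p (c, d, e) ∧
      ∃ᶠ y in 𝓝 x, 0 < orient a b y ∧ y ∈ ClosedTri p (c, d, e) := by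
  have := neBot_half hab hx
  have h1 : ∀ᶠ y in 𝓝[{y : Pt | 0 < orient a b y}] x, ∃ t ∈ S, y ∈ convexHull ℝ (p '' (t : Set ℕ)) := by
    filter_upwards [nhdsWithin_le_nhds hR, self_mem_nhdsWithin] with y hy1 hy2
    have := hy1 hy2
    rw [← hS.union] at this
    simpa using this
  have h2 : ∃ t ∈ S, ∃ᶠ y in 𝓝[{y : Pt | 0 < orient a b y}] x, y ∈ convexHull ℝ (p '' (t : Set ℕ)) := by
    by_contra hno
    push Not at hno
    have h3 : ∀ᶠ y in 𝓝[{y : Pt | 0 < orient a b y}] x, ∀ t ∈ S, y ∉ convexHull ℝ (p '' (t : Set ℕ)) :=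
      (Filter.eventually_all_finset S).2 fun t ht => by simpa using hno t ht
    obtain ⟨y, ⟨t, ht, hy⟩, hy2⟩ := (h1.and h3).exists
    exact hy2 t ht hy
  obtain ⟨t, ht, hf⟩ := h2
  obtain ⟨c, d, e, rfl, h⟩ := exists_tr hS ht
  rw [h.hull] at hf
  have hf2 : ∃ᶠ y in 𝓝 x, 0 < orient a b y ∧ y ∈ ClosedTri p (c, d, e) := by
    intro hcon
    apply hf
    filter_upwards [nhdsWithin_le_nhds hcon, self_mem_nhdsWithin] with y hy1 hy2 hy3
    exact hy1 ⟨hy2, hy3⟩
  refine ⟨c, d, e, h, ?_, hf2⟩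
  have : x ∈ closure (ClosedTri p (c, d, e)) := by
    rw [mem_closure_iff_frequently]
    exact hf2.mono fun y hy => hy.2
  rwa [(isClosed_closedTri p (c, d, e)).closure_eq] at this

/-- If the point `x` of an open edge has points of the region on the other side, then the edge has a twin. -/
theorem twin_of_right (hS : IsTriangulation R V p S) {a b c : ℕ} (h : Tr p S a b c) {x : Pt}
    (hx : x ∈ openSegment ℝ (p a) (p b)) (hR : ∀ᶠ y in 𝓝 x, 0 < orient (p b) (p a) y → y ∈ R) :
    ∃ d, Tr p S b a d := by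
  have hab : p a ≠ p b := (ne_of_otri h.pos).1
  have hx0 : orient (p a) (p b) x = 0 := orient_of_mem_segment (openSegment_subset_segment ℝ _ _ hx)
  obtain ⟨d, e, f, h', hx', hf⟩ := side hS hab.symm (by rw [orient_swap, hx0, neg_zero]) hR
  by_contra hno
  push Not at hno
  -- the other triangle contains `a` and `b`
  have hne : ({d, e, f} : Finset ℕ) ≠ {a, b, c} := by
    intro heq
    have h1 : ClosedTri p (d, e, f) = ClosedTri p (a, b, c) := by rw [← h'.hull, ← h.hull, heq]
    rw [h1] at hf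
    obtain ⟨y, hy1, hy2⟩ := hf.exists
    have := hy2.1
    simp only at this
    rw [orient_swap] at hy1
    linarith
  have hxc : x ∈ ClosedTri p (a, b, c) := segment_subset_closedTri h.pos (t := (a, b, c)) (Or.inl rfl)
    (Or.inr (Or.inl rfl)) (openSegment_subset_segment ℝ _ _ hx)
  have hi := hS.inter _ h.1 _ h'.1
  have hmem : x ∈ convexHull ℝ (p '' ((({a, b, c} : Finset ℕ) ∩ {d, e, f} : Finset ℕ) : Set ℕ)) := by
    rw [← hi, h.hull, h'.hull]; exact ⟨hxc, hx'⟩
  obtain ⟨s, r, hs, hr, hsr, hxe⟩ := hx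
  have hbc : 0 < orient (p b) (p c) x := by
    have : orient (p b) (p c) x = s * orient (p a) (p b) (p c) := by
      rw [← hxe, orient_affine _ _ _ _ _ _ hsr, orient_self_out, orient_rot]; ring
    rw [this]; exact mul_pos hs h.2
  have hca : 0 < orient (p c) (p a) x := by
    have : orient (p c) (p a) x = r * orient (p a) (p b) (p c) := by
      rw [← hxe, orient_affine _ _ _ _ _ _ hsr, orient_self_mid, orient_rot']; ring
    rw [this]; exact mul_pos hr h.2
  have key : ∀ u v w : ℕ, 0 < orient (p v) (p w) x → ∀ W : Finset ℕ, (∀ z ∈ W, z = v ∨ z = w) →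
      x ∉ convexHull ℝ (p '' (W : Set ℕ)) := by
    intro u v w hxx W hW hmem
    have hsub : convexHull ℝ (p '' (W : Set ℕ)) ⊆ {x | orient (p v) (p w) x = 0} := by
      refine convexHull_min ?_ ?_
      · rintro _ ⟨z, hz, rfl⟩
        rcases hW z hz with rfl | rfl
        · exact orient_self_out _ _
        · exact orient_self_mid _ _
      · intro x hx y hy s r hs hr hsr
        show orient (p v) (p w) (s • x + r • y) = 0
        rw [orient_affine _ _ _ _ _ _ hsr, show orient (p v) (p w) x = 0 from hx, show orient (p v) (p w) y = 0 from hy]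
        ring
    have h0 : orient (p v) (p w) x = 0 := hsub hmem
    rw [h0] at hxx
    exact lt_irrefl _ hxx
  have ha : a ∈ ({d, e, f} : Finset ℕ) := by
    by_contra hna
    refine key a b c hbc _ ?_ hmem
    intro z hz
    have hz1 := (Finset.mem_inter.1 hz).1
    have hz2 := (Finset.mem_inter.1 hz).2
    simp only [Finset.mem_insert, Finset.mem_singleton] at hz1
    rcases hz1 with rfl | rfl | rfl
    · exact absurd hz2 hna
    · exact Or.inl rfl
    · exact Or.inr rfl
  have hb : b ∈ ({d, e, f} : Finset ℕ) := by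
    by_contra hna
    refine key b c a hca _ ?_ hmem
    intro z hz
    have hz1 := (Finset.mem_inter.1 hz).1
    have hz2 := (Finset.mem_inter.1 hz).2
    simp only [Finset.mem_insert, Finset.mem_singleton] at hz1
    rcases hz1 with rfl | rfl | rfl
    · exact Or.inr rfl
    · exact absurd hz2 hna
    · exact Or.inl rfl
  have hab' : a ≠ b := (label_ne h.pos).1
  have hadj : IsEdge (d, e, f) a b ∨ IsEdge (d, e, f) b a :=
    isEdge_of_isVert (by simpa [IsVert] using ha) (by simpa [IsVert] using hb) hab'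
  have hfind : ∀ u v, IsEdge (d, e, f) u v → ∃ w, Tr p S u v w ∧ ({u, v, w} : Finset ℕ) = {d, e, f} := by
    rintro u v (⟨rfl, rfl⟩ | ⟨rfl, rfl⟩ | ⟨rfl, rfl⟩)
    · exact ⟨f, h', rfl⟩
    · exact ⟨d, h'.rot, by ext x; simp; tauto⟩
    · exact ⟨e, h'.rot.rot, by ext x; simp; tauto⟩
  rcases hadj with h1 | h1
  · obtain ⟨w, hw, hw2⟩ := hfind _ _ h1
    have := h.unique hS hw
    subst this
    exact hne hw2.symm
  · obtain ⟨w, hw, -⟩ := hfind _ _ h1
    exact hno w hw

end

section

variable {P : Poly} {s₀ s : ℕ} {p₀ p : ℕ → Pt} {ι κ ξ : Type} [Fintype ι] [Fintype κ] [Fintype ξ]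
  {T : ι → ℕ × ℕ × ℕ} {F : κ → ℕ × ℕ × ℕ} {hole : κ → Fin P.holes.length} {X : ξ → ℕ × ℕ × ℕ} {Δ : ℕ × ℕ × ℕ}
  {S : Finset (Finset ℕ)}

theorem Data.wall (D : Data P s₀ p₀ T F hole X Δ) {u v : ℕ} (h : IsWall P u v) :
    (∃ i, IsEdge (T i) u v) ∧ (∃ j, IsEdge (Sum.elim F X j) v u) ∧ u < P.n ∧ v < P.n ∧ p₀ u = P.pos u ∧
      p₀ v = P.pos v ∧ P.pos u ≠ P.pos v := by
  have key : u < P.n ∧ v < P.n ∧ (∃ i, IsEdge (T i) u v) ∧ (∃ j, IsEdge (Sum.elim F X j) v u) := by
    rcases h with h | ⟨k, h⟩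
    · have h1 := mem_of_mem_cycEdges h
      obtain ⟨h2, j, h3⟩ := D.outer_edge h
      exact ⟨D.lt_of_mem (outer_mem P) h1.1, D.lt_of_mem (outer_mem P) h1.2, h2, ⟨Sum.inr j, h3⟩⟩
    · have h1 := mem_of_mem_cycEdges h
      obtain ⟨h2, j, -, h3⟩ := D.hole_edge k h
      exact ⟨D.lt_of_mem (hole_mem P k) h1.2, D.lt_of_mem (hole_mem P k) h1.1, h2, ⟨Sum.inl j, h3⟩⟩
  obtain ⟨hu, hv, ⟨i, hi⟩, hj⟩ := key
  refine ⟨⟨i, hi⟩, hj, hu, hv, D.pos_eq u hu, D.pos_eq v hv, ?_⟩
  rw [← D.pos_eq u hu, ← D.pos_eq v hv]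
  exact hi.pos_ne (D.posT i)

/-- left of a wall is the region -/
theorem Data.wall_left (D : Data P s₀ p₀ T F hole X Δ) {u v : ℕ} (h : IsWall P u v) {x : Pt}
    (hx : x ∈ openSegment ℝ (P.pos u) (P.pos v)) :
    ∀ᶠ y in 𝓝 x, 0 < orient (P.pos u) (P.pos v) y → y ∈ P.region := by
  obtain ⟨⟨i, hi⟩, -, hu, hv, e1, e2, -⟩ := D.wall h
  rw [← e1, ← e2] at hx ⊢
  filter_upwards [left_of_edge (D.posT i) hi hx] with y hy hy2
  rw [D.region_eq]
  exact Set.mem_iUnion.2 ⟨i, openTri_subset _ _ (hy hy2)⟩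

/-- right of a wall is not the region -/
theorem Data.wall_right (D : Data P s₀ p₀ T F hole X Δ) {u v : ℕ} (h : IsWall P u v) {x : Pt}
    (hx : x ∈ openSegment ℝ (P.pos u) (P.pos v)) :
    ∀ᶠ y in 𝓝 x, orient (P.pos u) (P.pos v) y < 0 → y ∉ P.region := by
  obtain ⟨-, ⟨j, hj⟩, hu, hv, e1, e2, -⟩ := D.wall h
  rw [← e1, ← e2] at hx ⊢
  have hpos : 0 < otri p₀ (Sum.elim F X j) := by
    rcases j with j | j
    · exact D.posF j
    · exact D.posX j
  filter_upwards [left_of_edge hpos hj (by rw [openSegment_symm]; exact hx)] with y hy hy2 hyR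
  rw [orient_swap, Left.neg_pos_iff] at hy
  rw [D.region_eq] at hyR
  obtain ⟨i, hi⟩ := Set.mem_iUnion.1 hyR
  have := D.full.eq_of_mem_open (i := Sum.inr j) (j := Sum.inl i) (hy hy2) hi
  simp at this

/-- the ends of a wall and other labels -/
theorem Data.orig_on_wall (D : Data P s₀ p₀ T F hole X Δ) {u v z : ℕ} (h : IsWall P u v) (hz : z < P.n) :
    P.pos z ∉ openSegment ℝ (P.pos u) (P.pos v) := by
  obtain ⟨⟨i, hi⟩, -, hu, hv, e1, e2, hne⟩ := D.wall h
  intro hx
  rw [← e1, ← e2, ← D.pos_eq z hz] at hx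
  rw [← e1, ← e2] at hne
  obtain ⟨t, h0, h1, ht⟩ := mem_openSegment_iff_pt.1 hx
  rcases D.vert_edge (lt_of_lt_of_le hz (Nat.le_add_right _ _)) hi (openSegment_subset_segment ℝ _ _ hx) with rfl | rfl
  · have := pt_inj hne ((pt_zero (p₀ z) (p₀ v)).trans ht)
    linarith
  · have := pt_inj hne ((pt_one (p₀ u) (p₀ z)).trans ht)
    linarith

end

end Pool.Agent.Lib.MP_6ff0c5_lc.K
end

section

/-!
The completeness tool: two polygons with holes with the same family of triangles are compatible.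
-/

set_option autoImplicit false

namespace Pool.Agent.Lib.MP_6ff0c5_lc.K

open Filter Topology

variable {P : Poly} {s : ℕ} {p : ℕ → Pt} {ι κ ξ : Type} [Fintype ι] [Fintype κ] [Fintype ξ]
  {T : ι → ℕ × ℕ × ℕ} {F : κ → ℕ × ℕ × ℕ} {hole : κ → Fin P.holes.length} {X : ξ → ℕ × ℕ × ℕ} {Δ : ℕ × ℕ × ℕ}

theorem hasTri_open {i : ι} {v a b : ℕ}
    (h : T i = (v, a, b) ∨ rot (T i) = (v, a, b) ∨ rot (rot (T i)) = (v, a, b)) (p : ℕ → Pt) :
    OpenTri p (T i) = OpenTri p (v, a, b) ∧ (∀ c, IsVert (T i) c ↔ c = v ∨ c = a ∨ c = b) := by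
  rcases h with h | h | h
  · rw [h]; exact ⟨rfl, fun c => Iff.rfl⟩
  · refine ⟨by rw [← openTri_rot, h], fun c => ?_⟩
    rw [← isVert_rot, h]; exact Iff.rfl
  · refine ⟨by rw [← openTri_rot, ← openTri_rot, h], fun c => ?_⟩
    rw [← isVert_rot, ← isVert_rot, h]; exact Iff.rfl

theorem Data.drawn (D : Data P s p T F hole X Δ) : Drawn T p where
  pos := D.posT
  wedge := by
    rintro v a b c htri ⟨j, hjv, hjc, hvc⟩ ⟨h1, h2⟩
    have h3 := htri.pos D.posT
    obtain ⟨i, hi⟩ := htri
    obtain ⟨ho, hvert⟩ := hasTri_open hi p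
    -- points near `v` on the segment to `c`
    have hcont : Continuous fun t : ℝ => orient (p a) (p b) ((1 - t) • p v + t • p c) := by
      unfold orient
      simp only [Prod.fst_add, Prod.smul_fst, smul_eq_mul, Prod.snd_add, Prod.smul_snd]
      fun_prop
    have h0 : 0 < orient (p a) (p b) (((1 : ℝ) - 0) • p v + (0 : ℝ) • p c) := by
      simp only [sub_zero, one_smul, zero_smul, add_zero]
      rw [orient_rot]; exact h3
    have hev : ∀ᶠ t : ℝ in 𝓝[>] 0, 0 < orient (p a) (p b) ((1 - t) • p v + t • p c) :=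
      nhdsWithin_le_nhds (hcont.continuousAt.eventually (isOpen_Ioi.mem_nhds h0))
    have hone : ∀ᶠ t : ℝ in 𝓝[>] 0, t < 1 := by
      filter_upwards [Ioo_mem_nhdsGT (zero_lt_one (α := ℝ))] with t ht using ht.2
    obtain ⟨t, ⟨ht1, ht2⟩, ht3⟩ := ((hev.and hone).and (self_mem_nhdsWithin)).exists
    have ht3' : (0 : ℝ) < t := ht3
    have e1 : orient (p v) (p a) ((1 - t) • p v + t • p c) = t * orient (p v) (p a) (p c) := by
      rw [orient_affine _ _ _ _ _ _ (by ring), orient_self_out]; ring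
    have e2 : orient (p b) (p v) ((1 - t) • p v + t • p c) = t * orient (p v) (p c) (p b) := by
      rw [orient_affine _ _ _ _ _ _ (by ring), orient_self_mid, orient_rot' (p v) (p c) (p b)]; ring
    have hopen : ((1 - t) • p v + t • p c) ∈ OpenTri p (T i) := by
      rw [ho]
      exact ⟨by show 0 < orient (p v) (p a) _; rw [e1]; positivity, ht1,
        by show 0 < orient (p b) (p v) _; rw [e2]; positivity⟩
    have hcl : ((1 - t) • p v + t • p c) ∈ ClosedTri p (T j) :=
      segment_subset_closedTri (D.posT j) hjv hjc ⟨1 - t, t, by linarith, ht3'.le, by ring, rfl⟩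
    have hij := D.full.eq_of_mem_open (i := Sum.inl i) (j := Sum.inl j) hopen hcl
    have hij' : i = j := by simpa using hij
    subst hij'
    rcases (hvert c).1 hjc with rfl | rfl | rfl
    · exact hvc rfl
    · rw [orient_self_mid] at h1; exact lt_irrefl _ h1
    · rw [orient_self_mid] at h2; exact lt_irrefl _ h2
  dir := by
    rintro v a b ⟨i, hiv, hia, hva⟩ ⟨j, hjv, hjb, hvb⟩ hab ⟨h1, h2⟩
    have hva' : p v ≠ p a := fun h => hva (eq_of_isVert (D.posT i) hiv hia h)
    have ha := D.labT i a hia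
    have hb := D.labT j b hjb
    have key : ∀ (i : ι) (a w : ℕ), IsVert (T i) v → IsVert (T i) a → v ≠ a → w < P.n + s →
        p w ∈ segment ℝ (p v) (p a) → w = v ∨ w = a := by
      intro i a w h1 h2 h3 h4 h5
      rcases isEdge_of_isVert h1 h2 h3 with h6 | h6
      · exact D.vert_edge h4 h6 h5
      · exact (D.vert_edge h4 h6 (by rw [segment_symm]; exact h5)).symm
    have hd : (0 : ℝ) < ((p a).1 - (p v).1) ^ 2 + ((p a).2 - (p v).2) ^ 2 := by
      rcases eq_or_ne (p v).1 (p a).1 with h3 | h3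
      · have h4 : (p a).2 - (p v).2 ≠ 0 := fun h5 => hva' (Prod.ext h3 (by linarith))
        positivity
      · have h4 : (p a).1 - (p v).1 ≠ 0 := fun h5 => h3 (by linarith)
        positivity
    unfold orient at h1
    unfold dot at h2
    set t := (((p a).1 - (p v).1) * ((p b).1 - (p v).1) + ((p a).2 - (p v).2) * ((p b).2 - (p v).2)) /
      (((p a).1 - (p v).1) ^ 2 + ((p a).2 - (p v).2) ^ 2) with ht
    have ht0 : 0 < t := div_pos h2 hd
    have e1 : (p b).1 - (p v).1 = t * ((p a).1 - (p v).1) := by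
      rw [ht]; field_simp
      linear_combination (-((p a).2 - (p v).2)) * h1
    have e2 : (p b).2 - (p v).2 = t * ((p a).2 - (p v).2) := by
      rw [ht]; field_simp
      linear_combination ((p a).1 - (p v).1) * h1
    rcases le_or_gt t 1 with h3 | h3
    · have hmem : p b ∈ segment ℝ (p v) (p a) := by
        refine ⟨1 - t, t, by linarith, ht0.le, by ring, Prod.ext ?_ ?_⟩
        · simp only [Prod.fst_add, Prod.smul_fst, smul_eq_mul]; linarith
        · simp only [Prod.snd_add, Prod.smul_snd, smul_eq_mul]; linarith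
      rcases key i a b hiv hia hva hb hmem with h | h
      · exact hvb h.symm
      · exact hab h.symm
    · have hmem : p a ∈ segment ℝ (p v) (p b) := by
        have ht1 : t ≠ 0 := ht0.ne'
        refine ⟨1 - 1 / t, 1 / t, ?_, by positivity, by ring, Prod.ext ?_ ?_⟩
        · rw [sub_nonneg, div_le_one ht0]; exact h3.le
        · simp only [Prod.fst_add, Prod.smul_fst, smul_eq_mul]
          field_simp
          linarith
        · simp only [Prod.snd_add, Prod.smul_snd, smul_eq_mul]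
          field_simp
          linarith
      rcases key j b a hjv hjb hvb ha hmem with h | h
      · exact hva h.symm
      · exact hab h

theorem snd_unique {c : List ℕ} (hc : c.Nodup) {a b v : ℕ} (h1 : (a, v) ∈ cycEdges c) (h2 : (b, v) ∈ cycEdges c) :
    a = b := by
  have hn : ((cycEdges c).map Prod.snd).Nodup := by
    rw [map_snd_cycEdges]; exact List.nodup_rotate.2 hc
  exact congrArg Prod.fst (List.inj_on_of_nodup_map hn h1 h2 rfl)

theorem fst_unique {c : List ℕ} (hc : c.Nodup) {a b v : ℕ} (h1 : (v, a) ∈ cycEdges c) (h2 : (v, b) ∈ cycEdges c) :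
    a = b := by
  have hn : ((cycEdges c).map Prod.fst).Nodup := by
    rw [map_fst_cycEdges]; exact hc
  exact congrArg Prod.snd (List.inj_on_of_nodup_map hn h1 h2 rfl)

/-- a neighbour that is not followed by a triangle -/
theorem Data.last (D : Data P s p T F hole X Δ) {v a : ℕ} (h : Nb T v a) (hno : ∀ i, ¬ IsEdge (T i) v a) :
    (a, v) ∈ cycEdges P.outer ∨ ∃ h : Fin P.holes.length, (v, a) ∈ cycEdges (P.holes.get h) := by
  obtain ⟨i, hv, ha, hva⟩ := h
  have hi : IsEdge (T i) a v := (isEdge_of_isVert hv ha hva).resolve_left (hno i)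
  have hnn : ∀ j u w, IsEdge (T j) u w → 0 ≤ del a v u w := by
    intro j u w hj
    unfold del
    rw [if_neg (show ¬ (u = v ∧ w = a) from fun hh => hno j (by rw [← hh.1, ← hh.2]; exact hj))]
    split_ifs <;> norm_num
  have hterm : ∀ j, 0 ≤ bsum (del a v) (T j) := by
    intro j
    unfold bsum
    have e1 := hnn j _ _ (Or.inl ⟨rfl, rfl⟩)
    have e2 := hnn j _ _ (Or.inr (Or.inl ⟨rfl, rfl⟩))
    have e3 := hnn j _ _ (Or.inr (Or.inr ⟨rfl, rfl⟩))
    linarith
  have hab : del a v a v = 1 := by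
    unfold del
    have : ¬ (a = v ∧ v = a) := fun hh => hva hh.2
    simp [this]
  have hi1 : 1 ≤ bsum (del a v) (T i) := by
    unfold bsum
    have e1 := hnn i _ _ (Or.inl ⟨rfl, rfl⟩)
    have e2 := hnn i _ _ (Or.inr (Or.inl ⟨rfl, rfl⟩))
    have e3 := hnn i _ _ (Or.inr (Or.inr ⟨rfl, rfl⟩))
    rcases hi with ⟨h1, h2⟩ | ⟨h1, h2⟩ | ⟨h1, h2⟩
    · rw [← h1, ← h2, hab] at e1 ⊢; rw [← h1] at e3; rw [← h2] at e2; linarith
    · rw [← h1, ← h2, hab] at e2 ⊢; rw [← h1] at e1; rw [← h2] at e3; linarith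
    · rw [← h1, ← h2, hab] at e3 ⊢; rw [← h1] at e2; rw [← h2] at e1; linarith
  have hsum := Finset.single_le_sum (f := fun j => bsum (del a v) (T j)) (fun j _ => hterm j) (Finset.mem_univ i)
  have hb := D.bT (del a v) (fun u w => del_anti a v u w)
  by_contra hcon
  push Not at hcon
  obtain ⟨hc1, hc2⟩ := hcon
  have h1 : lsum (del a v) (cycEdges P.outer) ≤ 0 := by
    rw [lsum_del, List.count_eq_zero_of_not_mem hc1]
    push_cast
    linarith [Int.natCast_nonneg ((cycEdges P.outer).count (v, a))]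
  have h2 : 0 ≤ (P.holes.map fun c => lsum (del a v) (cycEdges c)).sum := by
    rw [sum_list_get]
    refine Finset.sum_nonneg fun h _ => ?_
    rw [lsum_del, List.count_eq_zero_of_not_mem (hc2 h)]
    push_cast
    linarith [Int.natCast_nonneg ((cycEdges (P.holes.get h)).count (a, v))]
  linarith

theorem Data.unique_last (D : Data P s p T F hole X Δ) (v a b : ℕ) (ha : Nb T v a) (hb : Nb T v b)
    (hna : ∀ i, ¬ IsEdge (T i) v a) (hnb : ∀ i, ¬ IsEdge (T i) v b) : a = b := by
  rcases D.last ha hna with h1 | ⟨h, h1⟩ <;> rcases D.last hb hnb with h2 | ⟨h', h2⟩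
  · exact snd_unique (D.nodup_cyc (outer_mem P)) h1 h2
  · exact absurd (mem_of_mem_cycEdges h2).1 (D.outer_hole h' (mem_of_mem_cycEdges h1).2)
  · exact absurd (mem_of_mem_cycEdges h1).1 (D.outer_hole h (mem_of_mem_cycEdges h2).2)
  · have hh : h = h' := by
      by_contra hne
      exact D.hole_hole hne (mem_of_mem_cycEdges h1).1 (mem_of_mem_cycEdges h2).1
    subst hh
    exact fst_unique (D.nodup_cyc (hole_mem P h)) h1 h2

theorem adj_triSet {v a : ℕ} : Adj (triSet T) v a ↔ Nb T v a := by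
  unfold Adj Nb
  constructor
  · rintro ⟨hva, t, ht, h1, h2⟩
    obtain ⟨i, rfl⟩ := mem_triSet.1 ht
    exact ⟨i, mem_vs.1 h1, mem_vs.1 h2, hva⟩
  · rintro ⟨i, h1, h2, hva⟩
    exact ⟨hva, _, mem_triSet.2 ⟨i, rfl⟩, mem_vs.2 h1, mem_vs.2 h2⟩

/-- The completeness tool. -/
theorem compatible {Q : Poly} {q : ℕ → Pt} {κ' ξ' : Type} [Fintype κ'] [Fintype ξ'] {F' : κ' → ℕ × ℕ × ℕ}
    {hole' : κ' → Fin Q.holes.length} {X' : ξ' → ℕ × ℕ × ℕ} {Δ' : ℕ × ℕ × ℕ} (D : Data P s p T F hole X Δ)
    (D' : Data Q s q T F' hole' X' Δ') (hn : P.n = Q.n) {k : ℕ} (hk : s ≤ k) :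
    P.Valid ∧ Q.Valid ∧ CompatibleWith P Q k := by
  refine ⟨D.valid, D'.valid, s, hk, p, q, fun v hv => ⟨D.pos_eq v hv, D'.pos_eq v (hn ▸ hv)⟩, triSet T, triSet T,
    D.isTriangulation, ?_, fun u v => Iff.rfl, ?_⟩
  · rw [hn]; exact D'.isTriangulation
  · intro v a b c ha hb hc
    exact rotation D.drawn D'.drawn D.unique_last (adj_triSet.1 ha) (adj_triSet.1 hb) (adj_triSet.1 hc)

end Pool.Agent.Lib.MP_6ff0c5_lc.K
end
end
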