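import Pool.Agent.Lib.MP_6ff0c5_lc.Net.Rooms
import Pool.Agent.Lib.MP_6ff0c5_lc.Net.Lay
import Pool.Agent.Lib.MP_6ff0c5_lc.K.Compat

section

/-!
MP_6ff0c5_lc, part B, soundness: the tiles of the crossbar.
-/

set_option autoImplicit false

namespace Pool.Agent.Lib.MP_6ff0c5_lc.N

variable {v : ℤ → ℤ → ℝ × ℝ} {E : ℝ}

/-- If all terms of a sum are `≥ -E`, then every term is at most the sum plus `length * E`. -/
theorem le_sum_of_ge {α : Type*} (l : List α) (f : α → ℝ) (hE : 0 ≤ E) (h : ∀ c ∈ l, -E ≤ f c) {c : α} (hc : c ∈ l) :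
    f c ≤ (l.map f).sum + l.length * E := by
  induction l with
  | nil => exact absurd hc (by simp)
  | cons a l ih =>
    have hl : ∀ c ∈ l, -E ≤ f c := fun c hc => h c (List.mem_cons_of_mem _ hc)
    have hsum : ∀ l' : List α, (∀ c ∈ l', -E ≤ f c) → -(l'.length * E) ≤ (l'.map f).sum := by
      intro l' hl'
      induction l' with
      | nil => simp
      | cons b l' ih' =>
        have h1 := ih' (fun c hc => hl' c (List.mem_cons_of_mem _ hc))
        have h2 := hl' b List.mem_cons_self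
        rw [List.map_cons, List.sum_cons, List.length_cons]
        push_cast
        linarith
    rw [List.map_cons, List.sum_cons, List.length_cons]
    push_cast
    rcases List.mem_cons.1 hc with rfl | hc'
    · have h1 := hsum l hl
      linarith
    · have h1 := ih hl hc'
      have h2 := h a List.mem_cons_self
      linarith

theorem sum_ge (l : List Con) (h : ∀ c ∈ l, -E ≤ c.slack v) : -(l.length * E) ≤ (l.map fun c => c.slack v).sum := by
  induction l with
  | nil => simp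
  | cons b l ih =>
    have h1 := ih (fun c hc => h c (List.mem_cons_of_mem _ hc))
    have h2 := h b List.mem_cons_self
    rw [List.map_cons, List.sum_cons, List.length_cons]
    push_cast
    linarith

/-- The sum over a relation is bounded below. -/
private theorem tl_sum {l cs : List Con} (hE : 0 ≤ E)
    (hsub : (l.all fun c => decide (c ∈ cs)) = true) (h : ∀ c ∈ cs, -E ≤ c.slack v)
    (hlen : l.length ≤ 70) : -(70 * E) ≤ (l.map fun c => c.slack v).sum := by
  have h1 := sum_ge (v := v) (E := E) l fun c hc =>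
    h c (by simpa using List.all_eq_true.1 hsub c hc)
  have h2 : (l.length : ℝ) * E ≤ 70 * E :=
    mul_le_mul_of_nonneg_right (by exact_mod_cast hlen) hE
  linarith

/-- The members of a relation are bounded above. -/
private theorem tl_le {l cs : List Con} (hE : 0 ≤ E)
    (hsub : (l.all fun c => decide (c ∈ cs)) = true) (h : ∀ c ∈ cs, -E ≤ c.slack v)
    (hlen : l.length ≤ 70) {Y : ℝ} (hs : (l.map fun c => c.slack v).sum ≤ Y) {c : Con}
    (hc : c ∈ l) : c.slack v ≤ Y + 70 * E := by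
  have h1 := le_sum_of_ge (E := E) l (fun c => c.slack v) hE
    (fun c hc => h c (by simpa using List.all_eq_true.1 hsub c hc)) hc
  have h2 : (l.length : ℝ) * E ≤ 70 * E :=
    mul_le_mul_of_nonneg_right (by exact_mod_cast hlen) hE
  linarith

/-- Bounds of the rooms. -/
private theorem tl_bd {l : List Step} {inp : List Port} {cs : List Con} {m : ℕ}
    {rooms : List (ℤ × ℤ)} (hm : m ≤ 100) (hchk : chkSteps l inp cs m rooms = true) (hE : 0 ≤ E)
    {X : ℝ} (hX : 0 ≤ X) (hinp : ∀ p ∈ inp, |pval v p| ≤ X) (h : ∀ c ∈ cs, -E ≤ c.slack v)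
    (h' : ∀ c ∈ cs, c.slack v ≤ 3 * X + 70 * E) :
    ∀ r ∈ rooms, |(v r.1 r.2).1| ≤ 100 * (3 * X + 70 * E) ∧
      |(v r.1 r.2).2| ≤ 100 * (3 * X + 70 * E) := by
  intro r hr
  have hB : 0 ≤ 3 * X + 70 * E := by linarith
  have h1 := chkSteps_spec (a := v) (B := 3 * X + 70 * E) hchk hB
    (fun p hp => (hinp p hp).trans (by linarith))
    (fun c hc => abs_le.2 ⟨by linarith [h c hc], h' c hc⟩) hr
  have h2 : (m : ℝ) * (3 * X + 70 * E) ≤ 100 * (3 * X + 70 * E) :=
    mul_le_mul_of_nonneg_right (by exact_mod_cast hm) hB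
  exact ⟨h1.1.trans h2, h1.2.trans h2⟩

/-- Tile `V`: the string. (Relation `rV2_eq`, bounds by `chkSteps_spec` with `sV_chk`; `cov_V`, `sub_rV2`.) -/
theorem V_str (hE : 0 ≤ E) (h : ∀ c ∈ cV, -E ≤ c.slack v) : a3 (v 3 0) - 70 * E ≤ -(v 3 8).2 := by
  have h1 := tl_sum (v := v) hE sub_rV2 h (by decide)
  rw [rV2_eq] at h1
  linarith

theorem V_bd (hE : 0 ≤ E) (h : ∀ c ∈ cV, -E ≤ c.slack v) {X : ℝ} (h1 : |a3 (v 3 0)| ≤ X) (h2 : |(v 3 8).2| ≤ X) :
    ∀ r ∈ bV.rooms, |(v r.1 r.2).1| ≤ 100 * (3 * X + 70 * E) ∧ |(v r.1 r.2).2| ≤ 100 * (3 * X + 70 * E) := by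
  have hX : 0 ≤ X := (abs_nonneg _).trans h1
  refine tl_bd (by decide) sV_chk hE hX ?_ h ?_
  · intro p hp
    simp only [List.mem_cons, List.not_mem_nil, or_false] at hp
    subst hp
    exact h1
  · intro c hc
    have hc' : c ∈ rV2 := by simpa using List.all_eq_true.1 cov_V c hc
    refine tl_le hE sub_rV2 h (by decide) ?_ hc'
    rw [rV2_eq]
    linarith [neg_abs_le (a3 (v 3 0)), neg_abs_le (v 3 8).2]

/-- Tile `T`: the lane ends in the string. -/
theorem T_str (hE : 0 ≤ E) (h : ∀ c ∈ cT, -E ≤ c.slack v) : a3 (v 3 0) + (v 8 5).1 - 70 * E ≤ -(v 3 8).2 := by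
  have h1 := tl_sum (v := v) hE sub_rT2 h (by decide)
  rw [rT2_eq] at h1
  linarith

theorem T_bd (hE : 0 ≤ E) (h : ∀ c ∈ cT, -E ≤ c.slack v) {X : ℝ} (h1 : |a3 (v 3 0)| ≤ X) (h2 : |(v 3 8).2| ≤ X)
    (h3 : |(v 8 5).1| ≤ X) :
    ∀ r ∈ bT.rooms, |(v r.1 r.2).1| ≤ 100 * (3 * X + 70 * E) ∧ |(v r.1 r.2).2| ≤ 100 * (3 * X + 70 * E) := by
  have hX : 0 ≤ X := (abs_nonneg _).trans h1
  refine tl_bd (by decide) sT_chk hE hX ?_ h ?_
  · intro p hp
    simp only [List.mem_cons, List.not_mem_nil, or_false] at hp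
    rcases hp with rfl | rfl
    · exact h3
    · exact h1
  · intro c hc
    have hc' : c ∈ rT2 := by simpa using List.all_eq_true.1 cov_T c hc
    refine tl_le hE sub_rT2 h (by decide) ?_ hc'
    rw [rT2_eq]
    linarith [neg_abs_le (a3 (v 3 0)), neg_abs_le (v 3 8).2, neg_abs_le (v 8 5).1]

/-- Tile `X`: crossing. -/
theorem X_lane (hE : 0 ≤ E) (h : ∀ c ∈ cX, -E ≤ c.slack v) : (v 8 5).1 - 70 * E ≤ -(v 0 5).2 := by
  have h1 := tl_sum (v := v) hE sub_rX1 h (by decide)
  rw [rX1_eq] at h1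
  linarith

theorem X_str (hE : 0 ≤ E) (h : ∀ c ∈ cX, -E ≤ c.slack v) : a3 (v 3 0) - 70 * E ≤ -(v 3 8).2 := by
  have h1 := tl_sum (v := v) hE sub_rX2 h (by decide)
  rw [rX2_eq] at h1
  linarith

theorem X_bd (hE : 0 ≤ E) (h : ∀ c ∈ cX, -E ≤ c.slack v) {X : ℝ} (h1 : |a3 (v 3 0)| ≤ X) (h2 : |(v 3 8).2| ≤ X)
    (h3 : |(v 8 5).1| ≤ X) (h4 : |(v 0 5).2| ≤ X) :
    ∀ r ∈ bX.rooms, |(v r.1 r.2).1| ≤ 100 * (3 * X + 70 * E) ∧ |(v r.1 r.2).2| ≤ 100 * (3 * X + 70 * E) := by
  have hX : 0 ≤ X := (abs_nonneg _).trans h1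
  refine tl_bd (by decide) sX_chk hE hX ?_ h ?_
  · intro p hp
    simp only [List.mem_cons, List.not_mem_nil, or_false] at hp
    rcases hp with rfl | rfl
    · exact h3
    · exact h1
  · intro c hc
    have hc' : c ∈ rX1 ∨ c ∈ rX2 := by simpa using List.all_eq_true.1 cov_X c hc
    rcases hc' with hc' | hc'
    · refine tl_le hE sub_rX1 h (by decide) ?_ hc'
      rw [rX1_eq]
      linarith [neg_abs_le (v 8 5).1, neg_abs_le (v 0 5).2]
    · refine tl_le hE sub_rX2 h (by decide) ?_ hc'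
      rw [rX2_eq]
      linarith [neg_abs_le (a3 (v 3 0)), neg_abs_le (v 3 8).2, neg_abs_le (v 8 5).1]

/-- Tile `A`: crossing with addition. -/
theorem A_lane (hE : 0 ≤ E) (h : ∀ c ∈ cA, -E ≤ c.slack v) : (v 8 5).1 - 70 * E ≤ -(v 0 5).2 := by
  have h1 := tl_sum (v := v) hE sub_rA1 h (by decide)
  rw [rA1_eq] at h1
  linarith

theorem A_str (hE : 0 ≤ E) (h : ∀ c ∈ cA, -E ≤ c.slack v) : a3 (v 3 0) + (v 8 5).1 - 70 * E ≤ -(v 3 8).2 := by
  have h1 := tl_sum (v := v) hE sub_rA2 h (by decide)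
  rw [rA2_eq] at h1
  linarith

theorem A_bd (hE : 0 ≤ E) (h : ∀ c ∈ cA, -E ≤ c.slack v) {X : ℝ} (h1 : |a3 (v 3 0)| ≤ X) (h2 : |(v 3 8).2| ≤ X)
    (h3 : |(v 8 5).1| ≤ X) (h4 : |(v 0 5).2| ≤ X) :
    ∀ r ∈ bA.rooms, |(v r.1 r.2).1| ≤ 100 * (3 * X + 70 * E) ∧ |(v r.1 r.2).2| ≤ 100 * (3 * X + 70 * E) := by
  have hX : 0 ≤ X := (abs_nonneg _).trans h1
  refine tl_bd (by decide) sA_chk hE hX ?_ h ?_
  · intro p hp
    simp only [List.mem_cons, List.not_mem_nil, or_false] at hp
    rcases hp with rfl | rfl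
    · exact h3
    · exact h1
  · intro c hc
    have hc' : c ∈ rA1 ∨ c ∈ rA2 := by simpa using List.all_eq_true.1 cov_A c hc
    rcases hc' with hc' | hc'
    · refine tl_le hE sub_rA1 h (by decide) ?_ hc'
      rw [rA1_eq]
      linarith [neg_abs_le (v 8 5).1, neg_abs_le (v 0 5).2]
    · refine tl_le hE sub_rA2 h (by decide) ?_ hc'
      rw [rA2_eq]
      linarith [neg_abs_le (a3 (v 3 0)), neg_abs_le (v 3 8).2, neg_abs_le (v 8 5).1]

end Pool.Agent.Lib.MP_6ff0c5_lc.N
end

section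

/-!
MP_6ff0c5_lc, part B: values of the tile function of a layout.
-/

set_option autoImplicit false

namespace Pool.Agent.Lib.MP_6ff0c5_lc.N

variable {P : Lay}

/-! ### Lanes and strings -/

theorem ended_zero (P : Lay) (j : ℕ) : P.ended 0 j = false := by
  simp [Lay.ended]

theorem ended_succ (P : Lay) {l : ℕ} (hl : l < P.ns) (j : ℕ) : P.ended (l + 1) j = (P.ended l j || P.tap l j) := by
  unfold Lay.ended Lay.tap
  have hl' : l < P.taps.length := hl
  rw [List.take_succ_eq_append_getElem hl', List.any_append, List.getD_eq_getElem _ _ hl']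
  simp

theorem ended_mono (P : Lay) {l l' : ℕ} (h : l ≤ l') {j : ℕ} (hj : P.ended l j = true) : P.ended l' j = true := by
  unfold Lay.ended at hj ⊢
  rw [List.any_eq_true] at hj ⊢
  obtain ⟨s, hs, h1⟩ := hj
  exact ⟨s, List.take_subset_take_left _ h hs, h1⟩

/-- every lane ends somewhere in the crossbar -/
theorem ended_all (hP : P.OK) {j : ℕ} (hj : j < P.nl) : P.ended P.ns j = true := by
  obtain ⟨l, hl, h1⟩ := hP.tapped j hj
  refine ended_mono P (Nat.succ_le_of_lt hl) ?_
  rw [Nat.succ_eq_add_one, ended_succ P hl, h1, Bool.or_true]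

theorem ns_pos (hP : P.OK) : 0 < P.ns := by
  obtain ⟨l, hl, _⟩ := hP.tapped 0 (by unfold Lay.nl; omega)
  omega

theorem tt_eq_one {l j : ℕ} : P.tt l j = 1 ↔ P.ended l j = false ∧ P.tap l j = false := by
  unfold Lay.tt
  cases P.ended l j <;> cases P.tap l j <;> simp

theorem tt_eq_two {l j : ℕ} : P.tt l j = 2 ↔ P.ended l j = false ∧ P.tap l j = true := by
  unfold Lay.tt
  cases P.ended l j <;> cases P.tap l j <;> simp

theorem tt_eq_three {l j : ℕ} : P.tt l j = 3 ↔ P.ended l j = true ∧ P.tap l j = false := by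
  unfold Lay.tt
  cases P.ended l j <;> cases P.tap l j <;> simp

theorem tt_eq_four {l j : ℕ} : P.tt l j = 4 ↔ P.ended l j = true ∧ P.tap l j = true := by
  unfold Lay.tt
  cases P.ended l j <;> cases P.tap l j <;> simp

theorem tt_cases (P : Lay) (l j : ℕ) : P.tt l j = 1 ∨ P.tt l j = 2 ∨ P.tt l j = 3 ∨ P.tt l j = 4 := by
  unfold Lay.tt
  cases P.ended l j <;> cases P.tap l j <;> simp

/-! ### Values of the tile function -/

theorem tile_cross {l j : ℕ} (hl : l < P.ns) (hj : j < P.nl) : P.tile l j = P.tt l j := by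
  unfold Lay.tile
  rw [if_pos (Int.natCast_nonneg j), if_pos ⟨Int.natCast_nonneg l, by exact_mod_cast hl⟩,
    if_pos (by exact_mod_cast hj), Int.toNat_natCast, Int.toNat_natCast]

theorem tile_cross_out {L J : ℤ} (hL : L < P.ns) (hJ : J < 0 ∨ (P.nl : ℤ) ≤ J) : P.tile L J = 0 := by
  unfold Lay.tile
  split_ifs <;> first | rfl | (exfalso; omega)

theorem tile_left {L J : ℤ} (hL : L < 0) : P.tile L J = 0 := by
  unfold Lay.tile
  split_ifs <;> first | rfl | (exfalso; omega)

theorem tile_far {L J : ℤ} (hL : (P.ns : ℤ) + 2 < L) : P.tile L J = 0 := by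
  unfold Lay.tile
  split_ifs <;> first | rfl | (exfalso; omega)

/-- the source column, negative rows -/
theorem tile_src_neg {J : ℤ} (hJ : J < 0) : P.tile P.ns J = 0 := by
  unfold Lay.tile
  split_ifs <;> first | rfl | (exfalso; omega)

theorem tile_U0 {i : ℕ} (hi : i < 2) : P.tile P.ns i = 27 + i := by
  unfold Lay.tile
  split_ifs <;> omega

theorem tile_U1 {i : ℕ} (hi : i < 2) : P.tile (P.ns + 1) i = 29 + i := by
  unfold Lay.tile
  split_ifs <;> omega

theorem tile_U2 {i : ℕ} (hi : i < 2) : P.tile (P.ns + 2) i = 31 + i := by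
  unfold Lay.tile
  split_ifs <;> omega

/-- nothing on the right of the sources of the variables -/
theorem tile_right {L J : ℤ} (hL : (P.ns : ℤ) < L) (hJ : 2 ≤ J) : P.tile L J = 0 := by
  unfold Lay.tile
  split_ifs <;> first | rfl | (exfalso; omega)

private theorem getElem?_flatMap_const {α β : Type} (f : α → List β) {n : ℕ} (hf : ∀ a, (f a).length = n)
    {i : ℕ} (hi : i < n) (l : List α) (g : ℕ) :
    (l.flatMap f)[n * g + i]? = l[g]?.bind fun a => (f a)[i]? := by
  induction l generalizing g with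
  | nil => simp
  | cons a l ih =>
    rw [List.flatMap_cons]
    cases g with
    | zero =>
      rw [Nat.mul_zero, Nat.zero_add, List.getElem?_append_left (by rw [hf]; exact hi)]
      simp
    | succ g =>
      have e : n * (g + 1) + i = (f a).length + (n * g + i) := by
        rw [hf]; ring
      rw [e, List.getElem?_append_right (by omega), Nat.add_sub_cancel_left, ih]
      simp

private theorem length_src1 (P : Lay) :
    (P.G.flatMap fun t => (List.range 6).map fun i => (if t then 13 else 7) + i).length = 6 * P.G.length := by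
  rw [List.length_flatMap]
  simp
  ring

private theorem length_src (P : Lay) : P.src.length = 6 * P.G.length + 2 * P.V := by
  unfold Lay.src
  rw [List.length_append, length_src1, List.length_flatMap]
  simp
  ring

private theorem tile_src {n : ℕ} : P.tile P.ns (2 + n) = P.src.getD n 0 := by
  unfold Lay.tile
  have e : ((2 + n : ℤ) - 2).toNat = n := by omega
  rw [if_pos (by omega), if_neg (by omega), if_pos rfl, if_neg (by omega), e]

theorem tile_G {g : ℕ} {t : Bool} (hg : P.G[g]? = some t) {i : ℕ} (hi : i < 6) :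
    P.tile P.ns (2 + 6 * g + i) = (if t then 13 else 7) + i := by
  have e : (2 + 6 * g + i : ℤ) = 2 + ((6 * g + i : ℕ) : ℤ) := by push_cast; ring
  rw [e, tile_src, List.getD_eq_getElem?_getD]
  have hg' : g < P.G.length := by
    by_contra h
    rw [List.getElem?_eq_none (by omega)] at hg
    exact absurd hg (by simp)
  unfold Lay.src
  rw [List.getElem?_append_left (by rw [length_src1]; omega),
    getElem?_flatMap_const _ (fun a => by simp) hi, hg]
  simp [hi]

theorem tile_S {v : ℕ} (hv : v < P.V) {i : ℕ} (hi : i < 2) : P.tile P.ns (2 + 6 * P.G.length + 2 * v + i) = 5 + i := by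
  have e : (2 + 6 * P.G.length + 2 * v + i : ℤ) = 2 + ((6 * P.G.length + (2 * v + i) : ℕ) : ℤ) := by
    push_cast; ring
  rw [e, tile_src, List.getD_eq_getElem?_getD]
  unfold Lay.src
  rw [List.getElem?_append_right (by rw [length_src1]; omega), length_src1, Nat.add_sub_cancel_left,
    getElem?_flatMap_const _ (fun a => by simp) hi, List.getElem?_range hv]
  interval_cases i <;> rfl

/-- nothing above the sources of the variables -/
theorem tile_top {L J : ℤ} (hJ : (P.nl : ℤ) ≤ J) : P.tile L J = 0 := by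
  have h2 : 2 ≤ P.nl := by unfold Lay.nl; omega
  unfold Lay.tile
  split_ifs <;> first | rfl | (exfalso; omega) | skip
  rw [List.getD_eq_default]
  rw [length_src]
  unfold Lay.nl Lay.nvar at hJ
  omega

theorem tile_E1 {k : ℕ} (h1 : 1 ≤ k) (h2 : k < P.K) {i : ℕ} (hi : i < 2) :
    P.tile (P.ns + 1) (-(2 * k : ℤ) + i) = 19 + i := by
  unfold Lay.tile
  split_ifs <;> omega

theorem tile_E2 {k : ℕ} (h1 : 1 ≤ k) (h2 : k < P.K) {i : ℕ} (hi : i < 2) :
    P.tile (P.ns + 2) (-(2 * k : ℤ) + i) = 21 + i := by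
  unfold Lay.tile
  split_ifs <;> omega

theorem tile_F1 (hK : 1 ≤ P.K) {i : ℕ} (hi : i < 2) : P.tile (P.ns + 1) (-(2 * P.K : ℤ) + i) = 23 + i := by
  unfold Lay.tile
  split_ifs <;> omega

theorem tile_F2 (hK : 1 ≤ P.K) {i : ℕ} (hi : i < 2) : P.tile (P.ns + 2) (-(2 * P.K : ℤ) + i) = 25 + i := by
  unfold Lay.tile
  split_ifs <;> omega

theorem tile_below {L J : ℤ} (hJ : J < -(2 * P.K : ℤ)) : P.tile L J = 0 := by
  unfold Lay.tile
  split_ifs <;> first | rfl | (exfalso; omega)

/-! ### Network values -/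

/-- the network at a tile position -/
theorem act_at (T : ℤ → ℤ → ℕ) (L J i k : ℤ) (hi : 0 ≤ i) (hi' : i < 9) (hk : 0 ≤ k) (hk' : k < 9) :
    (netOf T).act (9 * L + i) (9 * J + k) = tbit masks (T L J) i k := by
  have e1 : (9 * L + i) / 9 = L := by omega
  have e2 : (9 * L + i) % 9 = i := by omega
  have e3 : (9 * J + k) / 9 = J := by omega
  have e4 : (9 * J + k) % 9 = k := by omega
  unfold netOf
  simp only [e1, e2, e3, e4]

theorem cup_at (T : ℤ → ℤ → ℕ) (L J i k : ℤ) (hi : 0 ≤ i) (hi' : i < 9) (hk : 0 ≤ k) (hk' : k < 9) :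
    (netOf T).cup (9 * L + i) (9 * J + k) = tbit cmasks (T L J) i k := by
  have e1 : (9 * L + i) / 9 = L := by omega
  have e2 : (9 * L + i) % 9 = i := by omega
  have e3 : (9 * J + k) / 9 = J := by omega
  have e4 : (9 * J + k) % 9 = k := by omega
  unfold netOf
  simp only [e1, e2, e3, e4]

end Pool.Agent.Lib.MP_6ff0c5_lc.N
end

section

section

/-!
Every edge of a triangulation has a twin or is on a wall; every wall without Steiner points has a triangle.
-/

set_option autoImplicit false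

namespace Pool.Agent.Lib.MP_6ff0c5_lc.K

open Filter Topology

variable {P : Poly} {s₀ s : ℕ} {p₀ p : ℕ → Pt} {ι κ ξ : Type} [Fintype ι] [Fintype κ] [Fintype ξ]
  {T : ι → ℕ × ℕ × ℕ} {F : κ → ℕ × ℕ × ℕ} {hole : κ → Fin P.holes.length} {X : ξ → ℕ × ℕ × ℕ} {Δ : ℕ × ℕ × ℕ}
  {S : Finset (Finset ℕ)}

theorem isWall_of_edge {e : ℕ × ℕ} (he : e ∈ P.edges) : IsWall P e.1 e.2 ∨ IsWall P e.2 e.1 := by
  rcases (mem_edges_iff P e).1 he with h | ⟨k, h⟩
  · exact Or.inl (Or.inl h)
  · exact Or.inr (Or.inr ⟨k, h⟩)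

theorem mem_edges_lt (D : Data P s₀ p₀ T F hole X Δ) {e : ℕ × ℕ} (he : e ∈ P.edges) : e.1 < P.n ∧ e.2 < P.n := by
  obtain ⟨c, hc, he'⟩ := List.mem_flatMap.1 he
  have h1 := mem_of_mem_cycEdges (a := e.1) (b := e.2) he'
  exact ⟨D.lt_of_mem hc h1.1, D.lt_of_mem hc h1.2⟩

theorem notMem_openSegment_left {a b : Pt} (hab : a ≠ b) : a ∉ openSegment ℝ a b := by
  intro h
  obtain ⟨t, h0, h1, ht⟩ := mem_openSegment_iff_pt.1 h
  have := pt_inj hab ((pt_zero a b).trans ht)
  linarith

theorem notMem_openSegment_right {a b : Pt} (hab : a ≠ b) : b ∉ openSegment ℝ a b := by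
  intro h
  obtain ⟨t, h0, h1, ht⟩ := mem_openSegment_iff_pt.1 h
  have := pt_inj hab ((pt_one a b).trans ht)
  linarith

/-- a label is not on an open edge -/
theorem Tr.notMem_open (hS : IsTriangulation P.region (Finset.range (P.n + s)) p S) {a b c z : ℕ} (h : Tr p S a b c)
    (hz : z < P.n + s) : p z ∉ openSegment ℝ (p a) (p b) := by
  intro hx
  have hab : p a ≠ p b := (ne_of_otri h.pos).1
  rcases h.vert_edge hS (Finset.mem_range.2 hz) (openSegment_subset_segment ℝ _ _ hx) with rfl | rfl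
  · exact notMem_openSegment_left hab hx
  · exact notMem_openSegment_right hab hx

/-- W2: an edge without a twin lies on a wall, in the same direction. -/
theorem twin_or_wall (D : Data P s₀ p₀ T F hole X Δ) (hS : IsTriangulation P.region (Finset.range (P.n + s)) p S)
    (hp : ∀ v < P.n, p v = P.pos v) {a b c : ℕ} (h : Tr p S a b c) :
    (∃ d, Tr p S b a d) ∨ ∃ u v, IsWall P u v ∧ p a ∈ segment ℝ (P.pos u) (P.pos v) ∧
      p b ∈ segment ℝ (P.pos u) (P.pos v) ∧ 0 < orient (P.pos u) (P.pos v) (p c) := by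
  by_contra hno
  push Not at hno
  obtain ⟨hno1, hno2⟩ := hno
  have hab : p a ≠ p b := (ne_of_otri h.pos).1
  -- all points of the open edge are on the boundary
  have hA : ∀ x ∈ openSegment ℝ (p a) (p b), x ∈ P.boundary := by
    intro x hx
    by_contra hxb
    have hxR : x ∈ P.region := h.subset hS (segment_subset_closedTri h.pos (t := (a, b, c)) (Or.inl rfl)
      (Or.inr (Or.inl rfl)) (openSegment_subset_segment ℝ _ _ hx))
    obtain ⟨d, hd⟩ := twin_of_right hS h hx (by
      filter_upwards [region_eventually P hxb] with y hy _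
      exact hy.2.2 hxR)
    exact hno1 d hd
  -- two points on the same boundary edge
  have hB : ∃ t₁ t₂ : ℝ, t₁ ≠ t₂ ∧ 0 < t₁ ∧ t₁ < 1 ∧ ∃ e ∈ P.edges, pt (p a) (p b) t₁ ∈ segment ℝ (P.pos e.1) (P.pos e.2) ∧
      pt (p a) (p b) t₂ ∈ segment ℝ (P.pos e.1) (P.pos e.2) := by
    have hex : ∀ t : Set.Ioo (0 : ℝ) 1, ∃ e ∈ P.edges, pt (p a) (p b) t ∈ segment ℝ (P.pos e.1) (P.pos e.2) :=
      fun t => hA _ (mem_openSegment_iff_pt.2 ⟨t, t.2.1, t.2.2, rfl⟩)
    choose f hf1 hf2 using hex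
    haveI : Infinite (Set.Ioo (0 : ℝ) 1) := (Set.Ioo_infinite zero_lt_one).to_subtype
    let g : Set.Ioo (0 : ℝ) 1 → {e // e ∈ P.edges.toFinset} := fun t => ⟨f t, List.mem_toFinset.2 (hf1 t)⟩
    obtain ⟨t₁, t₂, hne, heq⟩ := Finite.exists_ne_map_eq_of_infinite g
    have heq' : f t₁ = f t₂ := congrArg Subtype.val heq
    refine ⟨t₁, t₂, fun h => hne (Subtype.ext h), t₁.2.1, t₁.2.2, f t₁, hf1 t₁, hf2 t₁, ?_⟩
    rw [heq']; exact hf2 t₂
  obtain ⟨t₁, t₂, hne, ht0, ht1, e, he, hx1, hx2⟩ := hB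
  obtain ⟨he1, he2⟩ := mem_edges_lt D he
  -- the line is the same
  have hline : orient (p a) (p b) (P.pos e.1) = 0 ∧ orient (p a) (p b) (P.pos e.2) = 0 := by
    obtain ⟨r₁, -, -, h1⟩ := mem_segment_iff_pt.1 hx1
    obtain ⟨r₂, -, -, h2⟩ := mem_segment_iff_pt.1 hx2
    have hr : r₁ ≠ r₂ := by
      rintro rfl
      exact hne (pt_inj hab (h1.trans h2.symm))
    have g1 : orient (p a) (p b) (pt (P.pos e.1) (P.pos e.2) r₁) = 0 := by
      rw [← h1, orient_pt, orient_self_out, orient_self_mid]; ring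
    have g2 : orient (p a) (p b) (pt (P.pos e.1) (P.pos e.2) r₂) = 0 := by
      rw [← h2, orient_pt, orient_self_out, orient_self_mid]; ring
    rw [orient_pt] at g1 g2
    have h3 : (r₁ - r₂) * (orient (p a) (p b) (P.pos e.2) - orient (p a) (p b) (P.pos e.1)) = 0 := by
      linear_combination g1 - g2
    have h4 : orient (p a) (p b) (P.pos e.2) = orient (p a) (p b) (P.pos e.1) := by
      rcases mul_eq_zero.1 h3 with h5 | h5
      · exact absurd (by linarith) hr
      · linarith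
    rw [h4] at g1
    exact ⟨by linarith, by linarith⟩
  have hx1o : pt (p a) (p b) t₁ ∈ openSegment ℝ (p a) (p b) := mem_openSegment_iff_pt.2 ⟨t₁, ht0, ht1, rfl⟩
  have hc1 : P.pos e.1 ∉ openSegment ℝ (p a) (p b) := by
    rw [← hp _ he1]; exact h.notMem_open hS (by omega)
  have hc2 : P.pos e.2 ∉ openSegment ℝ (p a) (p b) := by
    rw [← hp _ he2]; exact h.notMem_open hS (by omega)
  obtain ⟨hsa, hsb⟩ := segment_subset_of_line hab hline.1 hline.2 hx1o hx1 hc1 hc2
  -- the directed wall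
  have hW : ∃ u v, IsWall P u v ∧ segment ℝ (P.pos u) (P.pos v) = segment ℝ (P.pos e.1) (P.pos e.2) ∧
      orient (p a) (p b) (P.pos u) = 0 ∧ orient (p a) (p b) (P.pos v) = 0 := by
    rcases isWall_of_edge he with hw | hw
    · exact ⟨e.1, e.2, hw, rfl, hline⟩
    · exact ⟨e.2, e.1, hw, segment_symm _ _ _, hline.2, hline.1⟩
  obtain ⟨u, v, hw, hseg, hu0, hv0⟩ := hW
  rw [← hseg] at hsa hsb hx1
  obtain ⟨-, -, hun, hvn, -, -, huv⟩ := D.wall hw
  have hle := hno2 u v hw hsa hsb
  have hoa : orient (P.pos u) (P.pos v) (p a) = 0 := orient_of_mem_segment hsa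
  have hob : orient (P.pos u) (P.pos v) (p b) = 0 := orient_of_mem_segment hsb
  have hform : ∀ y, orient (P.pos u) (P.pos v) y * orient (p a) (p b) (p c) =
      orient (P.pos u) (P.pos v) (p c) * orient (p a) (p b) y := by
    intro y
    rw [orient_form (P.pos u) (P.pos v) (p a) (p b) (p c) y, hoa, hob]; ring
  -- the third vertex is not on the line
  have hc0 : orient (P.pos u) (P.pos v) (p c) ≠ 0 := by
    intro hc0
    have hall : ∀ y, orient (P.pos u) (P.pos v) y = 0 := by
      intro y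
      have := hform y
      rw [hc0, zero_mul] at this
      exact (mul_eq_zero.1 this).resolve_right h.2.ne'
    obtain ⟨y, hy⟩ := (dense_orient_ne huv).nonempty
    exact hy (hall y)
  have hcneg : orient (P.pos u) (P.pos v) (p c) < 0 := lt_of_le_of_ne hle hc0
  -- the point is not an end of the wall
  have hxo : pt (p a) (p b) t₁ ∈ openSegment ℝ (P.pos u) (P.pos v) := by
    refine mem_openSegment_of_ne_left_right ?_ ?_ hx1
    · intro heq
      refine h.notMem_open hS (z := u) (by omega) ?_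
      rw [hp u hun, heq]; exact hx1o
    · intro heq
      refine h.notMem_open hS (z := v) (by omega) ?_
      rw [hp v hvn, heq]; exact hx1o
  have hcl : pt (p a) (p b) t₁ ∈ ClosedTri p (a, b, c) := segment_subset_closedTri h.pos (t := (a, b, c)) (Or.inl rfl)
    (Or.inr (Or.inl rfl)) (openSegment_subset_segment ℝ _ _ hx1o)
  obtain ⟨y, hy, hyo, -⟩ := exists_generic h.pos hcl (D.wall_right hw hxo) []
  refine hy ?_ (h.subset hS (openTri_subset _ _ hyo))
  have h1 := hform y
  have h2 : 0 < orient (p a) (p b) y := hyo.1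
  have h3 := h.2
  by_contra h4
  push Not at h4
  have h5 := mul_nonneg h4 h3.le
  have h6 := mul_neg_of_neg_of_pos hcneg h2
  linarith

/-- the homogeneous argument: an affine function that is nonnegative on one side of a line vanishes on the line -/
theorem zero_of_side {u v a b c x : Pt} (hx : orient u v x = 0) (hx' : orient a b x = 0) (hc : 0 < orient a b c)
    (h : ∀ᶠ y in 𝓝 x, 0 < orient a b y → 0 ≤ orient u v y) {w : Pt} (hw : orient a b w = 0) : orient u v w = 0 := by
  by_contra hne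
  -- the direction `(c - x) + m (w - x)`
  set m : ℝ := -(orient u v c + 1) / orient u v w with hm
  have hcont : Tendsto (fun t : ℝ => ((x.1 + t * ((c.1 - x.1) + m * (w.1 - x.1)),
      x.2 + t * ((c.2 - x.2) + m * (w.2 - x.2))) : Pt)) (𝓝[>] 0) (𝓝 x) := by
    have : Continuous fun t : ℝ => ((x.1 + t * ((c.1 - x.1) + m * (w.1 - x.1)),
      x.2 + t * ((c.2 - x.2) + m * (w.2 - x.2))) : Pt) := by fun_prop
    have h0 := this.tendsto 0
    simp only [zero_mul, add_zero] at h0
    exact h0.mono_left nhdsWithin_le_nhds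
  obtain ⟨t, ht, ht0⟩ := ((hcont.eventually h).and self_mem_nhdsWithin).exists
  have ht0' : (0 : ℝ) < t := ht0
  have e1 : ∀ a b : Pt, orient a b (x.1 + t * ((c.1 - x.1) + m * (w.1 - x.1)),
      x.2 + t * ((c.2 - x.2) + m * (w.2 - x.2))) =
      orient a b x + t * ((orient a b c - orient a b x) + m * (orient a b w - orient a b x)) := by
    intro a b; unfold orient; ring
  rw [e1, e1, hx, hx', hw] at ht
  have h1 : 0 < 0 + t * ((orient a b c - 0) + m * (0 - 0)) := by
    rw [sub_zero, sub_zero, mul_zero, add_zero, zero_add]; positivity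
  have h2 := ht h1
  have h3 : m * orient u v w = -(orient u v c + 1) := by rw [hm]; field_simp
  have h4 : 0 + t * ((orient u v c - 0) + m * (orient u v w - 0)) = -t := by
    rw [sub_zero, sub_zero, h3]; ring
  rw [h4] at h2
  linarith

theorem nonneg_of_side {u v a b c x : Pt} (hx : orient u v x = 0) (hx' : orient a b x = 0) (hc : 0 < orient a b c)
    (h : ∀ᶠ y in 𝓝 x, 0 < orient a b y → 0 ≤ orient u v y) : 0 ≤ orient u v c := by
  have hcont : Tendsto (fun t : ℝ => ((x.1 + t * (c.1 - x.1), x.2 + t * (c.2 - x.2)) : Pt)) (𝓝[>] 0) (𝓝 x) := by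
    have : Continuous fun t : ℝ => ((x.1 + t * (c.1 - x.1), x.2 + t * (c.2 - x.2)) : Pt) := by fun_prop
    have h0 := this.tendsto 0
    simp only [zero_mul, add_zero] at h0
    exact h0.mono_left nhdsWithin_le_nhds
  obtain ⟨t, ht, ht0⟩ := ((hcont.eventually h).and self_mem_nhdsWithin).exists
  have ht0' : (0 : ℝ) < t := ht0
  have e1 : ∀ a b : Pt, orient a b (x.1 + t * (c.1 - x.1), x.2 + t * (c.2 - x.2)) =
      orient a b x + t * (orient a b c - orient a b x) := by
    intro a b; unfold orient; ring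
  rw [e1, e1, hx, hx', zero_add, zero_add, sub_zero, sub_zero] at ht
  have h1 := ht (by positivity)
  exact nonneg_of_mul_nonneg_right h1 ht0'

/-- K2: a wall without Steiner points has a triangle. -/
theorem wall_tr (D : Data P s₀ p₀ T F hole X Δ) (hS : IsTriangulation P.region (Finset.range (P.n + s)) p S)
    (hp : ∀ v < P.n, p v = P.pos v) {u v : ℕ} (hw : IsWall P u v) :
    (∃ w, Tr p S u v w) ∨ ∃ z, P.n ≤ z ∧ z < P.n + s ∧ p z ∈ openSegment ℝ (P.pos u) (P.pos v) := by
  by_contra hno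
  push Not at hno
  obtain ⟨hno1, hno2⟩ := hno
  obtain ⟨-, -, hun, hvn, -, -, huv⟩ := D.wall hw
  have hlab : ∀ z < P.n + s, p z ∉ openSegment ℝ (P.pos u) (P.pos v) := by
    intro z hz
    rcases lt_or_ge z P.n with h | h
    · rw [hp z h]; exact D.orig_on_wall hw h
    · exact hno2 z h hz
  set x := pt (P.pos u) (P.pos v) (1 / 2) with hx
  have hxo : x ∈ openSegment ℝ (P.pos u) (P.pos v) := mem_openSegment_iff_pt.2 ⟨1 / 2, by norm_num, by norm_num, rfl⟩
  have hx0 : orient (P.pos u) (P.pos v) x = 0 := orient_of_mem_segment (openSegment_subset_segment ℝ _ _ hxo)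
  obtain ⟨c, d, e, h, hxc, -⟩ := side hS huv hx0 (D.wall_left hw hxo)
  have hright := D.wall_right hw hxo
  -- the point is not in the open triangle
  rcases closedTri_cases h.pos hxc with ho | ⟨a, b, he, ho⟩ | ⟨z, hz, hzx⟩
  · have hev : ∀ᶠ y in 𝓝 x, ¬ (orient (P.pos u) (P.pos v) y < 0) := by
      filter_upwards [hright, (isOpen_openTri p (c, d, e)).mem_nhds ho] with y h1 h2 h3
      exact h1 h3 (h.subset hS (openTri_subset _ _ h2))
    have hcl : x ∈ closure {y : Pt | 0 < orient (P.pos v) (P.pos u) y} :=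
      half_closure huv.symm (by rw [orient_swap, hx0, neg_zero])
    obtain ⟨y, hy1, hy2⟩ := mem_closure_iff_nhds.1 hcl _ hev
    apply hy1
    have : 0 < orient (P.pos v) (P.pos u) y := hy2
    rw [orient_swap] at this
    linarith
  · -- on an open edge; rotate
    have hrot : ∃ c', Tr p S a b c' := by
      rcases he with ⟨rfl, rfl⟩ | ⟨rfl, rfl⟩ | ⟨rfl, rfl⟩
      · exact ⟨e, h⟩
      · exact ⟨c, h.rot⟩
      · exact ⟨d, h.rot.rot⟩
    obtain ⟨c', h'⟩ := hrot
    have hab : p a ≠ p b := (ne_of_otri h'.pos).1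
    have hx0' : orient (p a) (p b) x = 0 := orient_of_mem_segment (openSegment_subset_segment ℝ _ _ ho)
    have hside : ∀ᶠ y in 𝓝 x, 0 < orient (p a) (p b) y → 0 ≤ orient (P.pos u) (P.pos v) y := by
      filter_upwards [hright, left_of_edge h'.pos (a := a) (b := b) (Or.inl ⟨rfl, rfl⟩) ho] with y h1 h2 h3
      by_contra h4
      push Not at h4
      exact h1 h4 (h'.subset hS (openTri_subset _ _ (h2 h3)))
    have ha0 := zero_of_side hx0 hx0' h'.2 hside (w := p a) (orient_self_out _ _)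
    have hb0 := zero_of_side hx0 hx0' h'.2 hside (w := p b) (orient_self_mid _ _)
    have hc0 := nonneg_of_side hx0 hx0' h'.2 hside
    have hV := h'.mem_V hS
    have han : a < P.n + s := Finset.mem_range.1 hV.1
    have hbn : b < P.n + s := Finset.mem_range.1 hV.2.1
    obtain ⟨h1, h2⟩ := segment_subset_of_line (a := P.pos u) (b := P.pos v) (c := p a) (d := p b) huv ha0 hb0 hxo
      (openSegment_subset_segment ℝ _ _ ho) (hlab a han) (hlab b hbn)
    have hu0 : orient (p a) (p b) (P.pos u) = 0 := orient_of_mem_segment h1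
    have hv0 : orient (p a) (p b) (P.pos v) = 0 := orient_of_mem_segment h2
    obtain ⟨h3, h4⟩ := segment_subset_of_line (a := p a) (b := p b) (c := P.pos u) (d := P.pos v) hab hu0 hv0 ho
      (openSegment_subset_segment ℝ _ _ hxo) (by rw [← hp u hun]; exact h'.notMem_open hS (by omega))
      (by rw [← hp v hvn]; exact h'.notMem_open hS (by omega))
    -- the ends are the same
    have hends : ∀ z < P.n + s, p z ∈ segment ℝ (P.pos u) (P.pos v) → z = u ∨ z = v := by
      intro z hz hzs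
      have hu' : u ∈ Finset.range (P.n + s) := Finset.mem_range.2 (by omega)
      have hv' : v ∈ Finset.range (P.n + s) := Finset.mem_range.2 (by omega)
      have hz' : z ∈ Finset.range (P.n + s) := Finset.mem_range.2 hz
      by_contra hcon
      push Not at hcon
      apply hlab z hz
      refine mem_openSegment_of_ne_left_right ?_ ?_ hzs
      · intro heq
        rw [← hp u hun] at heq
        exact hcon.1 (hS.inj hu' hz' heq).symm
      · intro heq
        rw [← hp v hvn] at heq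
        exact hcon.2 (hS.inj hv' hz' heq).symm
    have hab' : a ≠ b := (label_ne h'.pos).1
    rcases hends a han h3 with rfl | rfl
    · rcases hends b hbn h4 with rfl | rfl
      · exact hab' rfl
      · exact hno1 c' h'
    · rcases hends b hbn h4 with rfl | rfl
      · have := h'.2
        rw [hp _ hun, hp _ hvn, orient_swap] at this
        linarith
      · exact hab' rfl
  · have hzV : z < P.n + s := by
      have hV := h.mem_V hS
      rcases hz with rfl | rfl | rfl
      · exact Finset.mem_range.1 hV.1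
      · exact Finset.mem_range.1 hV.2.1
      · exact Finset.mem_range.1 hV.2.2
    exact hlab z hzV (by rw [← hzx]; exact hxo)

end Pool.Agent.Lib.MP_6ff0c5_lc.K
end

section

/-!
The number of triangles of a triangulation of a polygon with holes.
-/

set_option autoImplicit false

namespace Pool.Agent.Lib.MP_6ff0c5_lc.K

open Filter Topology

variable {P : Poly} {s₀ s : ℕ} {p₀ p : ℕ → Pt} {ι κ ξ : Type} [Fintype ι] [Fintype κ] [Fintype ξ]
  {T : ι → ℕ × ℕ × ℕ} {F : κ → ℕ × ℕ × ℕ} {hole : κ → Fin P.holes.length} {X : ξ → ℕ × ℕ × ℕ} {Δ : ℕ × ℕ × ℕ}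
  {S : Finset (Finset ℕ)}

/-- the increase of `orient a b` in the direction `e` -/
def dd (a b e : Pt) : ℝ := (b.1 - a.1) * e.2 - (b.2 - a.2) * e.1

/-- the direction `d` with a sign -/
def sg (d : Pt) (σ : Bool) : Pt := if σ then d else -d

/-- The triangle `t` owns the label `q.1` with the sign `q.2`. -/
def Own (p : ℕ → Pt) (d : Pt) (t : Finset ℕ) (q : ℕ × Bool) : Prop :=
  ∃ b c, t = {q.1, b, c} ∧ 0 < orient (p q.1) (p b) (p c) ∧ 0 < dd (p q.1) (p b) (sg d q.2) ∧
    0 < dd (p c) (p q.1) (sg d q.2)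

/-- The region contains the points `x + τ e` for small `τ > 0`. -/
def Free (R : Set Pt) (x e : Pt) : Prop := ∀ᶠ τ : ℝ in 𝓝[>] 0, x + τ • e ∈ R

theorem orient_ray (a b x e : Pt) (τ : ℝ) : orient a b (x + τ • e) = orient a b x + τ * dd a b e := by
  unfold orient dd
  simp only [Prod.fst_add, Prod.snd_add, Prod.smul_fst, Prod.smul_snd, smul_eq_mul]
  ring

theorem dd_sum (a b c e : Pt) : dd a b e + dd b c e + dd c a e = 0 := by unfold dd; ring

theorem dd_sg_false (a b d : Pt) : dd a b (sg d false) = -dd a b d := by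
  unfold dd sg
  simp only [Bool.false_eq_true, if_false, Prod.fst_neg, Prod.snd_neg]
  ring

theorem dd_sg_true (a b d : Pt) : dd a b (sg d true) = dd a b d := by
  unfold sg
  simp only [if_true]

theorem dd_swap (a b d : Pt) : dd b a d = -dd a b d := by unfold dd; ring

theorem same_tri {p : ℕ → Pt} {a b c a' b' c' : ℕ} (h : ({a, b, c} : Finset ℕ) = {a', b', c'})
    (h1 : 0 < orient (p a) (p b) (p c)) (h2 : 0 < orient (p a') (p b') (p c')) :
    (a' = a ∧ b' = b ∧ c' = c) ∨ (a' = b ∧ b' = c ∧ c' = a) ∨ (a' = c ∧ b' = a ∧ c' = b) := by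
  have ha : a' = a ∨ a' = b ∨ a' = c := by
    have : a' ∈ ({a, b, c} : Finset ℕ) := by rw [h]; simp
    simpa using this
  have hb : b' = a ∨ b' = b ∨ b' = c := by
    have : b' ∈ ({a, b, c} : Finset ℕ) := by rw [h]; simp
    simpa using this
  have hc : c' = a ∨ c' = b ∨ c' = c := by
    have : c' ∈ ({a, b, c} : Finset ℕ) := by rw [h]; simp
    simpa using this
  clear h
  rcases ha with rfl | rfl | rfl <;> rcases hb with rfl | rfl | rfl <;> rcases hc with rfl | rfl | rfl <;>
    first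
      | exact Or.inl ⟨rfl, rfl, rfl⟩
      | exact Or.inr (Or.inl ⟨rfl, rfl, rfl⟩)
      | exact Or.inr (Or.inr ⟨rfl, rfl, rfl⟩)
      | (exfalso; unfold orient at h1 h2; linarith)

theorem own_unique {p : ℕ → Pt} {d : Pt} {t : Finset ℕ} {q q' : ℕ × Bool} (h : Own p d t q) (h' : Own p d t q') :
    q = q' := by
  obtain ⟨v, σ⟩ := q
  obtain ⟨v', σ'⟩ := q'
  obtain ⟨b, c, h1, h2, h3, h4⟩ := h
  obtain ⟨b', c', h1', h2', h3', h4'⟩ := h'
  dsimp only at *
  have h5 := same_tri (h1.symm.trans h1') h2 h2'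
  have h6 := dd_sum (p v) (p b) (p c) d
  rcases h5 with ⟨rfl, rfl, rfl⟩ | ⟨rfl, rfl, rfl⟩ | ⟨rfl, rfl, rfl⟩ <;> cases σ <;> cases σ' <;>
    simp only [dd_sg_true, dd_sg_false] at h3 h4 h3' h4' <;>
    first
      | rfl
      | (exfalso; linarith)

theorem own_exists {p : ℕ → Pt} {d : Pt} {R : Set Pt} {V : Finset ℕ} (hS : IsTriangulation R V p S)
    (hd : ∀ a ∈ V, ∀ b ∈ V, a ≠ b → dd (p a) (p b) d ≠ 0) {t : Finset ℕ} (ht : t ∈ S) :
    ∃ q : ℕ × Bool, q.1 ∈ V ∧ Own p d t q := by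
  obtain ⟨a, b, c, rfl, h⟩ := exists_tr hS ht
  obtain ⟨ha, hb, hc⟩ := h.mem_V hS
  have hne := label_ne h.pos
  have x0 : dd (p a) (p b) d ≠ 0 := hd a ha b hb hne.1
  have y0 : dd (p b) (p c) d ≠ 0 := hd b hb c hc hne.2.1
  have z0 : dd (p c) (p a) d ≠ 0 := hd c hc a ha hne.2.2
  have hsum := dd_sum (p a) (p b) (p c) d
  have e2 : ({a, b, c} : Finset ℕ) = {b, c, a} := by ext x; simp; tauto
  have e3 : ({a, b, c} : Finset ℕ) = {c, a, b} := by ext x; simp; tauto
  have key : ∀ a b c : ℕ, ({a, b, c} : Finset ℕ) ⊆ V → 0 < orient (p a) (p b) (p c) →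
      ((0 < dd (p a) (p b) d ∧ 0 < dd (p c) (p a) d) ∨ (dd (p a) (p b) d < 0 ∧ dd (p c) (p a) d < 0)) →
      ∃ q : ℕ × Bool, q.1 ∈ V ∧ Own p d {a, b, c} q := by
    rintro a b c hV ho (⟨h1, h2⟩ | ⟨h1, h2⟩)
    · exact ⟨(a, true), hV (by simp), b, c, rfl, ho, by rw [dd_sg_true]; exact h1, by rw [dd_sg_true]; exact h2⟩
    · exact ⟨(a, false), hV (by simp), b, c, rfl, ho, by rw [dd_sg_false]; linarith, by rw [dd_sg_false]; linarith⟩
  have hV : ({a, b, c} : Finset ℕ) ⊆ V := (hS.three _ h.1).1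
  rcases lt_or_gt_of_ne x0 with hx | hx <;> rcases lt_or_gt_of_ne y0 with hy | hy <;>
    rcases lt_or_gt_of_ne z0 with hz | hz
  · exfalso; linarith
  · rw [e2]; exact key b c a (by rw [← e2]; exact hV) (by rw [orient_rot]; exact h.2) (Or.inr ⟨hy, hx⟩)
  · exact key a b c hV h.2 (Or.inr ⟨hx, hz⟩)
  · rw [e3]; exact key c a b (by rw [← e3]; exact hV) (by rw [orient_rot']; exact h.2) (Or.inl ⟨hz, hy⟩)
  · rw [e3]; exact key c a b (by rw [← e3]; exact hV) (by rw [orient_rot']; exact h.2) (Or.inr ⟨hz, hy⟩)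
  · exact key a b c hV h.2 (Or.inl ⟨hx, hz⟩)
  · rw [e2]; exact key b c a (by rw [← e2]; exact hV) (by rw [orient_rot]; exact h.2) (Or.inl ⟨hy, hx⟩)
  · exfalso; linarith

theorem tendsto_ray (x e : Pt) : Tendsto (fun τ : ℝ => x + τ • e) (𝓝[>] 0) (𝓝 x) := by
  have : Continuous fun τ : ℝ => x + τ • e := by fun_prop
  have h0 := this.tendsto 0
  simp only [zero_smul, add_zero] at h0
  exact h0.mono_left nhdsWithin_le_nhds

theorem own_open {p : ℕ → Pt} {v b c : ℕ} {e : Pt} (h : 0 < orient (p v) (p b) (p c))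
    (h1 : 0 < dd (p v) (p b) e) (h2 : 0 < dd (p c) (p v) e) :
    ∀ᶠ τ : ℝ in 𝓝[>] 0, p v + τ • e ∈ OpenTri p (v, b, c) := by
  have h3 : ∀ᶠ y in 𝓝 (p v), 0 < orient (p b) (p c) y :=
    (isOpen_orient_pos (p b) (p c)).mem_nhds (by show 0 < orient (p b) (p c) (p v); rw [orient_rot]; exact h)
  filter_upwards [self_mem_nhdsWithin, (tendsto_ray (p v) e).eventually h3] with τ hτ h4
  have hτ' : (0 : ℝ) < τ := hτ
  refine ⟨?_, h4, ?_⟩
  · show 0 < orient (p v) (p b) (p v + τ • e)
    rw [orient_ray, orient_self_out, zero_add]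
    positivity
  · show 0 < orient (p c) (p v) (p v + τ • e)
    rw [orient_ray, orient_self_mid, zero_add]
    positivity

theorem own_inj {p : ℕ → Pt} {d : Pt} {R : Set Pt} {V : Finset ℕ} (hS : IsTriangulation R V p S)
    {t t' : Finset ℕ} (ht : t ∈ S) (ht' : t' ∈ S) {q : ℕ × Bool} (h : Own p d t q) (h' : Own p d t' q) : t = t' := by
  obtain ⟨b, c, rfl, h2, h3, h4⟩ := h
  obtain ⟨b', c', rfl, h2', h3', h4'⟩ := h'
  obtain ⟨τ, hτ, hτ'⟩ := ((own_open h2 h3 h4).and (own_open h2' h3' h4')).exists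
  exact Tr.eq_of_open hS ⟨ht, h2⟩ ⟨ht', h2'⟩ hτ (openTri_subset _ _ hτ')

theorem own_iff {p : ℕ → Pt} {d : Pt} {R : Set Pt} {V : Finset ℕ} (hS : IsTriangulation R V p S)
    (hd : ∀ a ∈ V, ∀ b ∈ V, a ≠ b → dd (p a) (p b) d ≠ 0) {q : ℕ × Bool} (hq : q.1 ∈ V) :
    (∃ t ∈ S, Own p d t q) ↔ Free R (p q.1) (sg d q.2) := by
  constructor
  · rintro ⟨t, ht, b, c, rfl, h2, h3, h4⟩
    filter_upwards [own_open h2 h3 h4] with τ hτ
    exact Tr.subset hS ⟨ht, h2⟩ (openTri_subset _ _ hτ)
  · intro hF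
    obtain ⟨v, σ⟩ := q
    dsimp only at hq hF ⊢
    have hd' : ∀ a ∈ V, ∀ b ∈ V, a ≠ b → dd (p a) (p b) (sg d σ) ≠ 0 := by
      intro a ha b hb hab
      cases σ
      · rw [dd_sg_false]; exact neg_ne_zero.2 (hd a ha b hb hab)
      · rw [dd_sg_true]; exact hd a ha b hb hab
    have h2 : ∃ t ∈ S, ∃ᶠ τ : ℝ in 𝓝[>] 0, p v + τ • sg d σ ∈ convexHull ℝ (p '' (t : Set ℕ)) := by
      by_contra hno
      push Not at hno
      have h3 : ∀ᶠ τ : ℝ in 𝓝[>] 0, ∀ t ∈ S, p v + τ • sg d σ ∉ convexHull ℝ (p '' (t : Set ℕ)) :=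
        (Filter.eventually_all_finset S).2 fun t ht => by simpa using hno t ht
      obtain ⟨τ, h4, h5⟩ := (hF.and h3).exists
      rw [← hS.union] at h4
      simp only [Set.mem_iUnion] at h4
      obtain ⟨t, ht, h6⟩ := h4
      exact h5 t ht h6
    obtain ⟨t, ht, hf⟩ := h2
    obtain ⟨a, b, c, rfl, h⟩ := exists_tr hS ht
    rw [h.hull] at hf
    have hcl : p v ∈ ClosedTri p (a, b, c) := by
      have h7 : p v ∈ closure (ClosedTri p (a, b, c)) :=
        mem_closure_of_frequently_of_tendsto hf (tendsto_ray (p v) (sg d σ))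
      rwa [(isClosed_closedTri p (a, b, c)).closure_eq] at h7
    have hv := h.vert hS hq hcl
    -- rotate
    have hrot : ∃ b' c', ({a, b, c} : Finset ℕ) = {v, b', c'} ∧ Tr p S v b' c' ∧
        ClosedTri p (a, b, c) = ClosedTri p (v, b', c') := by
      rcases hv with rfl | rfl | rfl
      · exact ⟨b, c, rfl, h, rfl⟩
      · exact ⟨c, a, by ext x; simp; tauto, h.rot, (closedTri_rot p (a, v, c)).symm⟩
      · exact ⟨a, b, by ext x; simp; tauto, h.rot.rot, (by
          rw [← closedTri_rot p (a, b, v), ← closedTri_rot p (rot (a, b, v))]; rfl)⟩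
    obtain ⟨b', c', e1, h', e2⟩ := hrot
    rw [e2] at hf
    obtain ⟨τ, hτ, hτ0⟩ := (hf.and_eventually self_mem_nhdsWithin).exists
    have hτ' : (0 : ℝ) < τ := hτ0
    obtain ⟨-, hb, hc⟩ := h'.mem_V hS
    have hne := label_ne h'.pos
    have g1 : 0 ≤ orient (p v) (p b') (p v + τ • sg d σ) := hτ.1
    have g2 : 0 ≤ orient (p c') (p v) (p v + τ • sg d σ) := hτ.2.2
    rw [orient_ray, orient_self_out, zero_add] at g1
    rw [orient_ray, orient_self_mid, zero_add] at g2
    refine ⟨_, ht, b', c', e1, h'.2, ?_, ?_⟩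
    · exact lt_of_le_of_ne (nonneg_of_mul_nonneg_right g1 hτ') (hd' v hq b' hb hne.1).symm
    · exact lt_of_le_of_ne (nonneg_of_mul_nonneg_right g2 hτ') (hd' c' hc v hq hne.2.2).symm

open Classical in
theorem card_eq_free {p : ℕ → Pt} {d : Pt} {R : Set Pt} {V : Finset ℕ} (hS : IsTriangulation R V p S)
    (hd : ∀ a ∈ V, ∀ b ∈ V, a ≠ b → dd (p a) (p b) d ≠ 0) :
    S.card = ∑ v ∈ V, ((if Free R (p v) d then 1 else 0) + (if Free R (p v) (-d) then 1 else 0)) := by
  have h1 : S.card = ((V ×ˢ (Finset.univ : Finset Bool)).filter fun q => Free R (p q.1) (sg d q.2)).card := by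
    have hex : ∀ t : Finset ℕ, ∃ q : ℕ × Bool, t ∈ S → q.1 ∈ V ∧ Own p d t q := by
      intro t
      by_cases ht : t ∈ S
      · obtain ⟨q, hq⟩ := own_exists hS hd ht
        exact ⟨q, fun _ => hq⟩
      · exact ⟨(0, true), fun h => absurd h ht⟩
    choose f hf using hex
    refine Finset.card_bij (fun t _ => f t) ?_ ?_ ?_
    · intro t ht
      obtain ⟨g1, g2⟩ := hf t ht
      rw [Finset.mem_filter, Finset.mem_product]
      exact ⟨⟨g1, Finset.mem_univ _⟩, (own_iff hS hd g1).1 ⟨t, ht, g2⟩⟩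
    · intro t ht t' ht' heq
      have g := (hf t ht).2
      rw [heq] at g
      exact own_inj hS ht ht' g (hf t' ht').2
    · intro q hq
      rw [Finset.mem_filter, Finset.mem_product] at hq
      obtain ⟨t, ht, hO⟩ := (own_iff hS hd hq.1.1).2 hq.2
      exact ⟨t, ht, own_unique (hf t ht).2 hO⟩
  rw [h1, Finset.card_filter, Finset.sum_product]
  refine Finset.sum_congr rfl fun v _ => ?_
  rw [Fintype.sum_bool]
  rfl

theorem free_congr {x e : Pt} (h : x ∉ P.boundary) (hx : x ∈ P.region) : Free P.region x e := by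
  filter_upwards [(tendsto_ray x e).eventually (region_eventually P h)] with τ hτ
  exact hτ.2.2 hx

/-- at a point of an open wall exactly one of the two directions is free -/
theorem free_wall (D : Data P s₀ p₀ T F hole X Δ) {u v : ℕ} (h : IsWall P u v) {x e : Pt}
    (hx : x ∈ openSegment ℝ (P.pos u) (P.pos v)) :
    (0 < dd (P.pos u) (P.pos v) e → Free P.region x e) ∧ (dd (P.pos u) (P.pos v) e < 0 → ¬ Free P.region x e) := by
  have hx0 : orient (P.pos u) (P.pos v) x = 0 := orient_of_mem_segment (openSegment_subset_segment ℝ _ _ hx)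
  constructor
  · intro he
    filter_upwards [(tendsto_ray x e).eventually (D.wall_left h hx), self_mem_nhdsWithin] with τ hτ hτ0
    have hτ' : (0 : ℝ) < τ := hτ0
    refine hτ ?_
    rw [orient_ray, hx0, zero_add]
    positivity
  · intro he hF
    have h2 : ∀ᶠ τ : ℝ in 𝓝[>] 0, x + τ • e ∉ P.region := by
      filter_upwards [(tendsto_ray x e).eventually (D.wall_right h hx), self_mem_nhdsWithin] with τ hτ hτ0
      have hτ' : (0 : ℝ) < τ := hτ0
      refine hτ ?_
      rw [orient_ray, hx0, zero_add]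
      exact mul_neg_of_pos_of_neg hτ' he
    obtain ⟨τ, h3, h4⟩ := (hF.and h2).exists
    exact h4 h3

open Classical in
theorem count_aux (D : Data P s₀ p₀ T F hole X Δ) (hS : IsTriangulation P.region (Finset.range (P.n + s)) p S)
    (hp : ∀ v < P.n, p v = P.pos v) {d : Pt}
    (hd : ∀ a ∈ Finset.range (P.n + s), ∀ b ∈ Finset.range (P.n + s), a ≠ b → dd (p a) (p b) d ≠ 0) :
    S.card + ((Finset.Ico P.n (P.n + s)).filter fun z => p z ∈ P.boundary).card =
      (∑ v ∈ Finset.range P.n, ((if Free P.region (P.pos v) d then 1 else 0) +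
        (if Free P.region (P.pos v) (-d) then 1 else 0))) + 2 * s := by
  rw [card_eq_free hS hd, ← Finset.sum_range_add_sum_Ico _ (Nat.le_add_right P.n s), add_assoc]
  congr 1
  · refine Finset.sum_congr rfl fun v hv => ?_
    rw [hp v (Finset.mem_range.1 hv)]
  · rw [Finset.card_filter, ← Finset.sum_add_distrib]
    have key : ∀ z ∈ Finset.Ico P.n (P.n + s), ((if Free P.region (p z) d then 1 else 0) +
        (if Free P.region (p z) (-d) then 1 else 0)) + (if p z ∈ P.boundary then 1 else 0) = 2 := by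
      intro z hz
      rw [Finset.mem_Ico] at hz
      have hzV : z ∈ Finset.range (P.n + s) := Finset.mem_range.2 hz.2
      by_cases hb : p z ∈ P.boundary
      · rw [if_pos hb]
        obtain ⟨e, he, hxe⟩ := hb
        have hlt := mem_edges_lt D he
        have hW : ∃ u v, IsWall P u v ∧ u < P.n ∧ v < P.n ∧ p z ∈ segment ℝ (P.pos u) (P.pos v) := by
          rcases isWall_of_edge he with hw | hw
          · exact ⟨e.1, e.2, hw, hlt.1, hlt.2, hxe⟩
          · exact ⟨e.2, e.1, hw, hlt.2, hlt.1, by rw [segment_symm]; exact hxe⟩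
        obtain ⟨u, v, hw, hu, hv, hseg⟩ := hW
        have huV : u ∈ Finset.range (P.n + s) := Finset.mem_range.2 (by omega)
        have hvV : v ∈ Finset.range (P.n + s) := Finset.mem_range.2 (by omega)
        have huv : P.pos u ≠ P.pos v := (D.wall hw).2.2.2.2.2.2
        have hopen : p z ∈ openSegment ℝ (P.pos u) (P.pos v) := by
          refine mem_openSegment_of_ne_left_right ?_ ?_ hseg
          · intro heq
            rw [← hp u hu] at heq
            have := hS.inj huV hzV heq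
            omega
          · intro heq
            rw [← hp v hv] at heq
            have := hS.inj hvV hzV heq
            omega
        have hne : dd (P.pos u) (P.pos v) d ≠ 0 := by
          rw [← hp u hu, ← hp v hv]
          refine hd u huV v hvV ?_
          rintro rfl
          exact huv rfl
        have hneg : dd (P.pos u) (P.pos v) (-d) = -dd (P.pos u) (P.pos v) d := by
          unfold dd
          simp only [Prod.fst_neg, Prod.snd_neg]
          ring
        obtain ⟨g1, g2⟩ := free_wall D hw (e := d) hopen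
        obtain ⟨g3, g4⟩ := free_wall D hw (e := -d) hopen
        rw [hneg] at g3 g4
        rcases lt_or_gt_of_ne hne with h0 | h0
        · rw [if_neg (g2 h0), if_pos (g3 (by linarith))]
        · rw [if_pos (g1 h0), if_neg (g4 (by linarith))]
      · rw [if_neg hb]
        have hx : p z ∈ P.region := by
          obtain ⟨t, ht, hzt⟩ := hS.used z hzV
          rw [← hS.union]
          simp only [Set.mem_iUnion]
          exact ⟨t, ht, subset_convexHull ℝ _ ⟨z, hzt, rfl⟩⟩
        rw [if_pos (free_congr hb hx), if_pos (free_congr hb hx)]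
    rw [Finset.sum_congr rfl key, Finset.sum_const, Nat.card_Ico, smul_eq_mul]
    omega

theorem card_triSet (D : Data P s₀ p₀ T F hole X Δ) : (triSet T).card = Fintype.card ι := by
  unfold triSet
  rw [Finset.card_image_of_injective, Finset.card_univ]
  intro i j hij
  dsimp only at hij
  have h1 : ClosedTri p₀ (T i) = ClosedTri p₀ (T j) := by
    rw [← hull_vs (D.posT i), ← hull_vs (D.posT j), hij]
  have hmem : p₀ (T i).1 ∈ ClosedTri p₀ (T i) := vert_mem_closedTri (D.posT i) (Or.inl rfl)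
  obtain ⟨y, -, hy, -⟩ := exists_generic (D.posT i) hmem Filter.univ_mem []
  have hy' : y ∈ ClosedTri p₀ (T j) := by
    rw [← h1]; exact openTri_subset _ _ hy
  have := D.full.eq_of_mem_open (i := Sum.inl i) (j := Sum.inl j) hy hy'
  simpa using this

theorem exists_dir (V : Finset ℕ) (hp : Set.InjOn p V) (V' : Finset ℕ) {p' : ℕ → Pt} (hp' : Set.InjOn p' V') :
    ∃ d : Pt, (∀ a ∈ V, ∀ b ∈ V, a ≠ b → dd (p a) (p b) d ≠ 0) ∧
      ∀ a ∈ V', ∀ b ∈ V', a ≠ b → dd (p' a) (p' b) d ≠ 0 := by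
  obtain ⟨d, hd⟩ := (dense_generic (((V ×ˢ V).toList.map fun q => ((0 : Pt), p q.2 - p q.1)) ++
    ((V' ×ˢ V').toList.map fun q => ((0 : Pt), p' q.2 - p' q.1)))).nonempty
  have key : ∀ a b : Pt, orient 0 (b - a) d = dd a b d := by
    intro a b
    unfold orient dd
    simp only [Prod.fst_zero, Prod.snd_zero, Prod.fst_sub, Prod.snd_sub, sub_zero]
  refine ⟨d, ?_, ?_⟩
  · intro a ha b hb hab
    have h1 := hd ((0 : Pt), p b - p a) (List.mem_append_left _ (List.mem_map.2
      ⟨(a, b), Finset.mem_toList.2 (Finset.mem_product.2 ⟨ha, hb⟩), rfl⟩))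
      (fun h => hab (hp ha hb (sub_eq_zero.1 h.symm).symm))
    rwa [key] at h1
  · intro a ha b hb hab
    have h1 := hd ((0 : Pt), p' b - p' a) (List.mem_append_right _ (List.mem_map.2
      ⟨(a, b), Finset.mem_toList.2 (Finset.mem_product.2 ⟨ha, hb⟩), rfl⟩))
      (fun h => hab (hp' ha hb (sub_eq_zero.1 h.symm).symm))
    rwa [key] at h1

open Classical in
/-- **K3.** Two triangulations of the same polygon with holes: `D` is a reference triangulation (`Fintype.card ι` triangles,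
`s₀` Steiner labels, all interior by construction), `S` is any triangulation with the Steiner labels `P.n, …, P.n + s - 1`.

Proof (helper59). Choose a direction `d` (a vector of `ℝ × ℝ`) that is not parallel to any edge of a triangle of `S` or of the
families `T`, `F`, `X` (finitely many conditions). Write `cross u w = u.1 * w.2 - u.2 * w.1`. For a label `v` and a sign
`σ = ±1` say that a triangle `t` (a `Tr p S a b c`, or `T i`) OWNS `(v, σ)` if `v` is a vertex of `t` and
`p v + τ • σ • d` is in the open triangle for all small `τ > 0`.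
(i) Every (positively oriented) triangle `a b c` owns exactly one pair: with `d_ab = cross (p b - p a) d`, etc. (sum zero, all
three nonzero) the vertex `a` is owned with sign `σ` iff `σ * d_ab > 0` and `σ * d_ca > 0`; among the three nonzero numbers
with sum zero exactly one has a sign different from the two others.
(ii) A pair `(v, σ)` is owned by at most one triangle (`Tr.eq_of_open` for `S`; `Full.eq_of_mem_open` / `D.full` for `T`), and
it is owned by one iff `A(v, σ)`: `p v + τ • σ • d ∈ P.region` for all small `τ > 0` (the region is the union of the closed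
triangles; only finitely many lines; `d` is parallel to none of the edges at `v`; closed triangles containing points
`p v + τ • σ • d` for arbitrarily small `τ` contain `p v`, hence have `v` as a vertex by `Tr.vert`, resp. `Full.mem_vert`).
(iii) For a label `z` with `p z ∉ P.boundary`: `A(z, σ)` for both signs (`region_eventually`, `p z ∈ P.region`). For a Steiner
label `z` (`P.n ≤ z < P.n + s`) with `p z ∈ P.boundary`: `p z` is in the open segment of exactly one edge of the polygon (it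
is not an original vertex by injectivity of `p`; edges meet only in original vertices, `Data.simple`); the two sides of this
edge near `p z` are in the open triangle `T i` and in the open twin triangle of `F` or `X` (`Data.edge_twin`, `left_of_edge`,
`Data.region_eq`, disjointness), so exactly one of `A(z, +)`, `A(z, -)` holds. For original labels `v < P.n` the statement
`A(v, σ)` depends only on `P` and `d`, so the number `C` of these pairs with `A` is the same for `S` and for `T`. For `D` all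
Steiner labels are off the boundary (`Data.vert_edge`, `Data.off_cycle`).
Hence `S.card = C + 2 * #interior + #boundary` and `Fintype.card ι = C + 2 * s₀`. (`T` is injective up to rotation: two
different `i` have disjoint nonempty open triangles.) -/
theorem count (D : Data P s₀ p₀ T F hole X Δ) (hS : IsTriangulation P.region (Finset.range (P.n + s)) p S)
    (hp : ∀ v < P.n, p v = P.pos v) :
    S.card + ((Finset.Ico P.n (P.n + s)).filter fun z => p z ∈ P.boundary).card + 2 * s₀ =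
      Fintype.card ι + 2 * s := by
  have hT := D.isTriangulation
  obtain ⟨d, hd1, hd2⟩ := exists_dir (p := p) (Finset.range (P.n + s)) hS.inj (Finset.range (P.n + s₀)) hT.inj
  have h1 := count_aux D hS hp hd1
  have h2 := count_aux D hT D.pos_eq hd2
  have h3 : ((Finset.Ico P.n (P.n + s₀)).filter fun z => p₀ z ∈ P.boundary).card = 0 := by
    rw [Finset.card_eq_zero, Finset.filter_eq_empty_iff]
    rintro z hz ⟨e, he, hx⟩
    rw [Finset.mem_Ico] at hz
    obtain ⟨c, hc, he'⟩ := List.mem_flatMap.1 he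
    have hlt := mem_edges_lt D he
    rw [← D.pos_eq _ hlt.1, ← D.pos_eq _ hlt.2] at hx
    exact D.off_cycle hc hz.2 (fun h => absurd (D.lt_of_mem hc h) (by omega)) e he' hx
  rw [card_triSet D, h3] at h2
  omega

end Pool.Agent.Lib.MP_6ff0c5_lc.K
end

section

/-!
Compatible triangulations of polygons with holes without triangular boundary polygons have the same oriented triangles.
-/

set_option autoImplicit false

namespace Pool.Agent.Lib.MP_6ff0c5_lc.K

open Filter Topology

theorem succ_index {l : List ℕ} (hl : l.Nodup) {a b : ℕ} (h : (a, b) ∈ cycEdges l) {i : ℕ} (hi : i < l.length)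
    (ha : l[i] = a) (h2 : (i + 1) % l.length < l.length) : l[(i + 1) % l.length] = b := by
  obtain ⟨j, hj, e⟩ := List.getElem_of_mem h
  have hj' : j < l.length := by rwa [length_cycEdges] at hj
  have hn : 0 < l.length := by omega
  rw [getElem_cycEdges l j hj hj' (Nat.mod_lt _ hn)] at e
  obtain ⟨e1, e2⟩ := Prod.mk.inj e
  have hij : i = j := (hl.getElem_inj_iff).1 (ha.trans e1.symm)
  subst hij
  exact e2

theorem no_directed_triangle {l : List ℕ} (hl : l.Nodup) (h4 : 4 ≤ l.length) {a b c : ℕ} (h1 : (a, b) ∈ cycEdges l)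
    (h2 : (b, c) ∈ cycEdges l) (h3 : (c, a) ∈ cycEdges l) : False := by
  have hn : 0 < l.length := by omega
  obtain ⟨i, hi, ha⟩ := List.getElem_of_mem (mem_of_mem_cycEdges h1).1
  have hb := succ_index hl h1 hi ha (Nat.mod_lt _ hn)
  have hc := succ_index hl h2 (Nat.mod_lt _ hn) hb (Nat.mod_lt _ hn)
  have ha' := succ_index hl h3 (Nat.mod_lt _ hn) hc (Nat.mod_lt _ hn)
  have e := (hl.getElem_inj_iff).1 (ha'.trans ha.symm)
  rw [Nat.mod_add_mod, Nat.add_assoc ((i + 1) % l.length) 1 1, Nat.mod_add_mod] at e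
  have e2 : (i + 3) % l.length = i % l.length := by
    rw [Nat.mod_eq_of_lt hi]; exact e
  have e3 := (Nat.ModEq.add_left_cancel' i (show i + 3 ≡ i + 0 [MOD l.length] from e2))
  have e4 : 3 % l.length = 0 := by simpa [Nat.ModEq] using e3
  rw [Nat.mod_eq_of_lt (by omega)] at e4
  omega

theorem no_triangle {l : List ℕ} (hl : l.Nodup) (h4 : 4 ≤ l.length) {a b c : ℕ} (hab : a ≠ b) (hbc : b ≠ c) (hca : c ≠ a)
    (h1 : (a, b) ∈ cycEdges l ∨ (b, a) ∈ cycEdges l) (h2 : (b, c) ∈ cycEdges l ∨ (c, b) ∈ cycEdges l)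
    (h3 : (c, a) ∈ cycEdges l ∨ (a, c) ∈ cycEdges l) : False := by
  rcases h1 with h1 | h1 <;> rcases h2 with h2 | h2 <;> rcases h3 with h3 | h3
  · exact no_directed_triangle hl h4 h1 h2 h3
  · exact hbc (fst_unique hl h1 h3)
  · exact hca (snd_unique hl h2 h1)
  · exact hca (snd_unique hl h2 h1)
  · exact hca (fst_unique hl h2 h1)
  · exact hca (fst_unique hl h2 h1)
  · exact hbc (snd_unique hl h1 h3)
  · exact no_directed_triangle hl h4 h1 h3 h2

section

variable {P Q : Poly} {s₀ s : ℕ} {q₀ p q : ℕ → Pt} {ι κ ξ : Type} [Fintype ι] [Fintype κ] [Fintype ξ]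
  {T₀ : ι → ℕ × ℕ × ℕ} {F : κ → ℕ × ℕ × ℕ} {hole : κ → Fin Q.holes.length} {X : ξ → ℕ × ℕ × ℕ} {Δ : ℕ × ℕ × ℕ}
  {S T : Finset (Finset ℕ)} {R : Set Pt} {V : Finset ℕ}

/-- three mutually adjacent labels are not on a line -/
theorem not_collinear_of_adj (hT : IsTriangulation R V q T) {a b c : ℕ} (h1 : Adj T a b) (h2 : Adj T b c)
    (h3 : Adj T c a) : orient (q a) (q b) (q c) ≠ 0 := by
  intro h0
  have hab := adj_pos_ne hT h1
  obtain ⟨t, ht⟩ := exists_param hab h0
  have hca : c ≠ a := h3.1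
  have hbc : b ≠ c := h2.1
  have key := fun (s r t : ℝ) => pt_mem_segment_pt hab (s := s) (r := r) (t := t)
  rcases le_total 0 t with h4 | h4
  · rcases le_total t 1 with h5 | h5
    · rcases adj_vert_edge hT h1 (adj_mem_V hT h2).2 (mem_segment_iff_pt.2 ⟨t, h4, h5, ht⟩) with h | h
      · exact hca h
      · exact hbc h.symm
    · have := (key t 0 1).2 (Or.inr ⟨zero_le_one, h5⟩)
      rw [pt_zero, pt_one, ← ht] at this
      rcases adj_vert_edge hT h3 (adj_mem_V hT h2).1 this with h | h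
      · exact hbc h
      · exact h1.1 h.symm
  · have := (key 1 t 0).2 (Or.inr ⟨h4, zero_le_one⟩)
    rw [pt_zero, pt_one, ← ht] at this
    rcases adj_vert_edge hT h2 (adj_mem_V hT h1).1 this with h | h
    · exact h1.1 h
    · exact hca h.symm

/-- K1, one direction: compatible triangulations have the same counterclockwise triangles, if all boundary polygons of `Q`
have at least four vertices. -/
theorem tr_imp {s' : ℕ} (D : Data Q s₀ q₀ T₀ F hole X Δ) (hS : IsTriangulation R V p S)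
    (hT : IsTriangulation Q.region (Finset.range (Q.n + s')) q T) (hq : ∀ v < Q.n, q v = Q.pos v)
    (hrot : SameRotation p S q T) (h4 : ∀ c ∈ Q.cycles, 4 ≤ c.length) {a b c : ℕ} (h : Tr p S a b c) : Tr q T a b c := by
  -- no neighbour between
  have hnext : ∀ x y z, Tr p S x y z → ∀ d, Adj T x d → ¬ Ccw (q x) (q y) (q d) (q z) := by
    intro x y z hxyz d hd hccw
    have hd' := (hrot.1 x d).2 hd
    have h1 := (hrot.2 x y d z hxyz.adj.1 hd' hxyz.adj.2.2).2 hccw
    have h2 : orient (p x) (p z) (p y) < 0 := by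
      have := hxyz.2
      have e : orient (p x) (p z) (p y) = -orient (p x) (p y) (p z) := by unfold orient; ring
      linarith
    rcases h1 with ⟨h3, h4⟩ | ⟨h3, h4⟩ | ⟨h3, h4⟩
    · exact hxyz.wedge hS hd' ⟨h3, h4⟩
    · linarith
    · linarith
  have hleft : ∀ x y z, Tr p S x y z → ∀ e, Tr q T x y e → e = z := by
    intro x y z hxyz e he
    by_contra hne
    have a1 := (hrot.1 x y).1 hxyz.adj.1
    have a2 := (hrot.1 x z).1 hxyz.adj.2.2
    have a3 := he.adj.2.2
    have hyz : y ≠ z := (label_ne hxyz.pos).2.1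
    have hye : y ≠ e := (label_ne he.pos).2.1
    rcases ccw_total (v := q x) (a := q y) (b := q e) (c := q z) (adj_pos_ne hT a1).symm (adj_pos_ne hT a3).symm
      (adj_pos_ne hT a2).symm (adj_dir hT a1 a3 hye) (adj_dir hT a3 a2 hne) (adj_dir hT a2 a1 hyz.symm) with h1 | h1
    · exact hnext x y z hxyz e a3 h1
    · have h2 : orient (q x) (q e) (q y) < 0 := by
        have := he.2
        have e : orient (q x) (q e) (q y) = -orient (q x) (q y) (q e) := by unfold orient; ring
        linarith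
      rcases h1 with ⟨h3, h4⟩ | ⟨h3, h4⟩ | ⟨h3, h4⟩
      · linarith
      · linarith
      · exact he.wedge hT a2 ⟨h3, h4⟩
  by_cases g1 : ∃ e, Tr q T a b e
  · obtain ⟨e, he⟩ := g1
    rw [hleft a b c h e he] at he
    exact he
  by_cases g2 : ∃ e, Tr q T b c e
  · obtain ⟨e, he⟩ := g2
    rw [hleft b c a h.rot e he] at he
    exact he.rot.rot
  by_cases g3 : ∃ e, Tr q T c a e
  · obtain ⟨e, he⟩ := g3
    rw [hleft c a b h.rot.rot e he] at he
    exact he.rot
  exfalso
  have a1 := (hrot.1 a b).1 h.adj.1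
  have a2 := (hrot.1 b c).1 h.adj.2.1
  have a3 := (hrot.1 c a).1 (adj_symm h.adj.2.2)
  have hncol := not_collinear_of_adj hT a1 a2 a3
  -- the three edges are on boundary edges
  have hedge : ∀ x y, Adj T x y → (¬ ∃ e, Tr q T x y e) → ∃ e ∈ Q.edges, q x ∈ segment ℝ (Q.pos e.1) (Q.pos e.2) ∧
      q y ∈ segment ℝ (Q.pos e.1) (Q.pos e.2) := by
    intro x y hxy hno
    obtain ⟨w, hw | hw⟩ := (adj_iff hT).1 hxy
    · exact absurd ⟨w, hw⟩ hno
    · rcases twin_or_wall D hT hq hw with ⟨d, hd⟩ | ⟨u, v, hwall, hy, hx, -⟩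
      · exact absurd ⟨d, hd⟩ hno
      · rcases hwall with hwall | ⟨k, hwall⟩
        · exact ⟨(u, v), (mem_edges_iff Q _).2 (Or.inl hwall), hx, hy⟩
        · exact ⟨(v, u), (mem_edges_iff Q _).2 (Or.inr ⟨k, hwall⟩), by rw [segment_symm]; exact hx,
            by rw [segment_symm]; exact hy⟩
  obtain ⟨e1, he1, h1a, h1b⟩ := hedge a b a1 g1
  obtain ⟨e2, he2, h2b, h2c⟩ := hedge b c a2 g2
  obtain ⟨e3, he3, h3c, h3a⟩ := hedge c a a3 g3
  have hcol : ∀ e ∈ Q.edges, ∀ x y z : Pt, x ∈ segment ℝ (Q.pos e.1) (Q.pos e.2) → y ∈ segment ℝ (Q.pos e.1) (Q.pos e.2) →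
      z ∈ segment ℝ (Q.pos e.1) (Q.pos e.2) → orient x y z = 0 := by
    intro e he x y z hx hy hz
    obtain ⟨t1, -, -, rfl⟩ := mem_segment_iff_pt.1 hx
    obtain ⟨t2, -, -, rfl⟩ := mem_segment_iff_pt.1 hy
    obtain ⟨t3, -, -, rfl⟩ := mem_segment_iff_pt.1 hz
    unfold orient
    simp only [pt_fst, pt_snd]
    ring
  have h12 : e1 ≠ e2 := by rintro rfl; exact hncol (hcol e1 he1 _ _ _ h1a h1b h2c)
  have h23 : e2 ≠ e3 := by
    rintro rfl
    exact hncol (hcol e2 he2 _ _ _ h3a h2b h2c)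
  have h31 : e3 ≠ e1 := by rintro rfl; exact hncol (hcol e3 he3 _ _ _ h1a h1b h3c)
  have hcommon : ∀ e ∈ Q.edges, ∀ f ∈ Q.edges, e ≠ f → ∀ x, x ∈ Finset.range (Q.n + s') →
      q x ∈ segment ℝ (Q.pos e.1) (Q.pos e.2) → q x ∈ segment ℝ (Q.pos f.1) (Q.pos f.2) →
      (x = e.1 ∨ x = e.2) ∧ (x = f.1 ∨ x = f.2) := by
    intro e he f hf hef x hx hxe hxf
    have hmem : q x ∈ Q.pos '' ({e.1, e.2} ∩ {f.1, f.2}) := by
      rw [← D.simple e he f hf hef]; exact ⟨hxe, hxf⟩
    obtain ⟨y, ⟨hy1, hy2⟩, hyx⟩ := hmem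
    have hlt := mem_edges_lt D he
    have hyn : y < Q.n := by rcases hy1 with rfl | rfl; exacts [hlt.1, hlt.2]
    rw [← hq y hyn] at hyx
    have : y = x := hT.inj (Finset.mem_range.2 (by omega)) hx hyx
    subst this
    exact ⟨hy1, hy2⟩
  have haV := (adj_mem_V hT a1).1
  have hbV := (adj_mem_V hT a2).1
  have hcV := (adj_mem_V hT a3).1
  have cb := hcommon e1 he1 e2 he2 h12 b hbV h1b h2b
  have cc := hcommon e2 he2 e3 he3 h23 c hcV h2c h3c
  have ca := hcommon e3 he3 e1 he1 h31 a haV h3a h1a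
  have hab := a1.1
  have hbc := a2.1
  have hca := a3.1
  -- the edges as pairs
  have pair : ∀ (e : ℕ × ℕ) (x y : ℕ), x ≠ y → (x = e.1 ∨ x = e.2) → (y = e.1 ∨ y = e.2) → e = (x, y) ∨ e = (y, x) := by
    rintro ⟨u, v⟩ x y hxy (rfl | rfl) (rfl | rfl)
    · exact absurd rfl hxy
    · exact Or.inl rfl
    · exact Or.inr rfl
    · exact absurd rfl hxy
  have p1 := pair e1 a b hab ca.2 cb.1
  have p2 := pair e2 b c hbc cb.2 cc.1
  have p3 := pair e3 c a hca cc.2 ca.1
  obtain ⟨l1, hl1, m1⟩ := List.mem_flatMap.1 he1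
  obtain ⟨l2, hl2, m2⟩ := List.mem_flatMap.1 he2
  obtain ⟨l3, hl3, m3⟩ := List.mem_flatMap.1 he3
  have k1 : (a, b) ∈ cycEdges l1 ∨ (b, a) ∈ cycEdges l1 := by rcases p1 with rfl | rfl; exacts [Or.inl m1, Or.inr m1]
  have k2 : (b, c) ∈ cycEdges l2 ∨ (c, b) ∈ cycEdges l2 := by rcases p2 with rfl | rfl; exacts [Or.inl m2, Or.inr m2]
  have k3 : (c, a) ∈ cycEdges l3 ∨ (a, c) ∈ cycEdges l3 := by rcases p3 with rfl | rfl; exacts [Or.inl m3, Or.inr m3]
  have same : ∀ l ∈ Q.cycles, ∀ l' ∈ Q.cycles, ∀ x, x ∈ l → x ∈ l' → l = l' := by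
    intro l hl l' hl' x hx hx'
    by_contra hne
    have hp := (List.nodup_flatten.1 D.nodup).2
    haveI : Std.Symm (List.Disjoint (α := ℕ)) := ⟨fun _ _ h => List.Disjoint.symm h⟩
    exact (hp.forall hl hl' hne) hx hx'
  have mem2 : ∀ {l : List ℕ} {x y : ℕ}, ((x, y) ∈ cycEdges l ∨ (y, x) ∈ cycEdges l) → x ∈ l ∧ y ∈ l := by
    rintro l x y (h | h)
    · exact mem_of_mem_cycEdges h
    · exact (mem_of_mem_cycEdges h).symm
  have e12 : l1 = l2 := same l1 hl1 l2 hl2 b (mem2 k1).2 (mem2 k2).1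
  have e23 : l2 = l3 := same l2 hl2 l3 hl3 c (mem2 k2).2 (mem2 k3).1
  subst e12
  subst e23
  exact no_triangle (D.nodup_cyc hl1) (h4 _ hl1) hab hbc hca k1 k2 k3

theorem sameRotation_symm (h : SameRotation p S q T) : SameRotation q T p S :=
  ⟨fun u v => (h.1 u v).symm, fun v a b c ha hb hc =>
    (h.2 v a b c ((h.1 _ _).2 ha) ((h.1 _ _).2 hb) ((h.1 _ _).2 hc)).symm⟩

end

/-- **K1**: compatible triangulations have the same counterclockwise triangles, if all boundary polygons have at least four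
vertices. -/
theorem tr_iff {P Q : Poly} {s₀ s₁ s : ℕ} {p₀ q₀ p q : ℕ → Pt} {ι κ ξ ι' κ' ξ' : Type} [Fintype ι] [Fintype κ]
    [Fintype ξ] [Fintype ι'] [Fintype κ'] [Fintype ξ'] {T₀ : ι → ℕ × ℕ × ℕ} {F : κ → ℕ × ℕ × ℕ}
    {hole : κ → Fin P.holes.length} {X : ξ → ℕ × ℕ × ℕ} {Δ : ℕ × ℕ × ℕ} {T₀' : ι' → ℕ × ℕ × ℕ} {F' : κ' → ℕ × ℕ × ℕ}
    {hole' : κ' → Fin Q.holes.length} {X' : ξ' → ℕ × ℕ × ℕ} {Δ' : ℕ × ℕ × ℕ} {S T : Finset (Finset ℕ)}
    (D : Data P s₀ p₀ T₀ F hole X Δ) (D' : Data Q s₁ q₀ T₀' F' hole' X' Δ')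
    (hS : IsTriangulation P.region (Finset.range (P.n + s)) p S)
    (hT : IsTriangulation Q.region (Finset.range (Q.n + s)) q T) (hp : ∀ v < P.n, p v = P.pos v)
    (hq : ∀ v < Q.n, q v = Q.pos v) (hrot : SameRotation p S q T) (hP : ∀ c ∈ P.cycles, 4 ≤ c.length)
    (hQ : ∀ c ∈ Q.cycles, 4 ≤ c.length) (a b c : ℕ) : Tr p S a b c ↔ Tr q T a b c :=
  ⟨tr_imp D' hS hT hq hrot hQ, tr_imp D hT hS hp (sameRotation_symm hrot) hP⟩

end Pool.Agent.Lib.MP_6ff0c5_lc.K
end

section

/-!
The triangles along a wall, in two compatible triangulations.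
-/

set_option autoImplicit false

namespace Pool.Agent.Lib.MP_6ff0c5_lc.K

open Filter Topology

section

variable {P : Poly} {s₀ s : ℕ} {p₀ p : ℕ → Pt} {ι κ ξ : Type} [Fintype ι] [Fintype κ] [Fintype ξ]
  {T : ι → ℕ × ℕ × ℕ} {F : κ → ℕ × ℕ × ℕ} {hole : κ → Fin P.holes.length} {X : ξ → ℕ × ℕ × ℕ} {Δ : ℕ × ℕ × ℕ}
  {S : Finset (Finset ℕ)}

/-- The triangle at a point of a wall that is not the position of a label. -/
theorem wall_at (D : Data P s₀ p₀ T F hole X Δ) (hS : IsTriangulation P.region (Finset.range (P.n + s)) p S)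
    (hp : ∀ v < P.n, p v = P.pos v) {u v : ℕ} (hw : IsWall P u v) {x : Pt}
    (hxo : x ∈ openSegment ℝ (P.pos u) (P.pos v)) (hlab : ∀ z < P.n + s, p z ≠ x) :
    ∃ a b c, Tr p S a b c ∧ x ∈ openSegment ℝ (p a) (p b) ∧ p a ∈ segment ℝ (P.pos u) (P.pos v) ∧
      p b ∈ segment ℝ (P.pos u) (P.pos v) ∧ 0 < orient (P.pos u) (P.pos v) (p c) := by
  obtain ⟨-, -, hun, hvn, -, -, huv⟩ := D.wall hw
  have hx0 : orient (P.pos u) (P.pos v) x = 0 := orient_of_mem_segment (openSegment_subset_segment ℝ _ _ hxo)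
  obtain ⟨c, d, e, h, hxc, -⟩ := side hS huv hx0 (D.wall_left hw hxo)
  have hright := D.wall_right hw hxo
  rcases closedTri_cases h.pos hxc with ho | ⟨a, b, he, ho⟩ | ⟨z, hz, hzx⟩
  · exfalso
    have hev : ∀ᶠ y in 𝓝 x, ¬ (orient (P.pos u) (P.pos v) y < 0) := by
      filter_upwards [hright, (isOpen_openTri p (c, d, e)).mem_nhds ho] with y h1 h2 h3
      exact h1 h3 (h.subset hS (openTri_subset _ _ h2))
    have hcl : x ∈ closure {y : Pt | 0 < orient (P.pos v) (P.pos u) y} :=
      half_closure huv.symm (by rw [orient_swap, hx0, neg_zero])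
    obtain ⟨y, hy1, hy2⟩ := mem_closure_iff_nhds.1 hcl _ hev
    apply hy1
    have : 0 < orient (P.pos v) (P.pos u) y := hy2
    rw [orient_swap] at this
    linarith
  · have hrot : ∃ c', Tr p S a b c' := by
      rcases he with ⟨rfl, rfl⟩ | ⟨rfl, rfl⟩ | ⟨rfl, rfl⟩
      · exact ⟨e, h⟩
      · exact ⟨c, h.rot⟩
      · exact ⟨d, h.rot.rot⟩
    obtain ⟨c', h'⟩ := hrot
    have hab : p a ≠ p b := (ne_of_otri h'.pos).1
    have hx0' : orient (p a) (p b) x = 0 := orient_of_mem_segment (openSegment_subset_segment ℝ _ _ ho)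
    have hside : ∀ᶠ y in 𝓝 x, 0 < orient (p a) (p b) y → 0 ≤ orient (P.pos u) (P.pos v) y := by
      filter_upwards [hright, left_of_edge h'.pos (a := a) (b := b) (Or.inl ⟨rfl, rfl⟩) ho] with y h1 h2 h3
      by_contra h4
      push Not at h4
      exact h1 h4 (h'.subset hS (openTri_subset _ _ (h2 h3)))
    have ha0 := zero_of_side hx0 hx0' h'.2 hside (w := p a) (orient_self_out _ _)
    have hb0 := zero_of_side hx0 hx0' h'.2 hside (w := p b) (orient_self_mid _ _)
    have hc0 := nonneg_of_side hx0 hx0' h'.2 hside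
    -- the ends of the wall are on the line `a b`
    have hl : ∀ w, orient (P.pos u) (P.pos v) w = 0 → orient (p a) (p b) w = 0 := by
      intro w hw0
      have h1 := orient_form (p a) (p b) (P.pos u) (P.pos v)
      have hA : orient (p a) (p b) (P.pos u) = 0 ∧ orient (p a) (p b) (P.pos v) = 0 := by
        obtain ⟨t1, ht1⟩ := exists_param huv ha0
        obtain ⟨t2, ht2⟩ := exists_param huv hb0
        rw [ht1, ht2]
        constructor
        · unfold orient; simp only [pt_fst, pt_snd]; ring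
        · unfold orient; simp only [pt_fst, pt_snd]; ring
      obtain ⟨t3, ht3⟩ := exists_param huv hw0
      rw [ht3, orient_pt, hA.1, hA.2]; ring
    have hu0 := hl _ (orient_self_out (P.pos u) (P.pos v))
    have hv0 := hl _ (orient_self_mid (P.pos u) (P.pos v))
    obtain ⟨h3, h4⟩ := segment_subset_of_line (a := p a) (b := p b) (c := P.pos u) (d := P.pos v) hab hu0 hv0 ho
      (openSegment_subset_segment ℝ _ _ hxo) (by rw [← hp u hun]; exact h'.notMem_open hS (by omega))
      (by rw [← hp v hvn]; exact h'.notMem_open hS (by omega))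
    refine ⟨a, b, c', h', ho, h3, h4, lt_of_le_of_ne hc0 fun hz => ?_⟩
    have h5 := hl _ hz.symm
    have h6 := h'.2
    rw [h5] at h6
    exact lt_irrefl _ h6
  · exfalso
    have hzV : z < P.n + s := by
      have hV := h.mem_V hS
      rcases hz with rfl | rfl | rfl
      · exact Finset.mem_range.1 hV.1
      · exact Finset.mem_range.1 hV.2.1
      · exact Finset.mem_range.1 hV.2.2
    exact hlab z hzV hzx.symm

/-- positions along a line and the side of a third point -/
theorem param_lt {a b c : Pt} {r t : ℝ} (h : 0 < orient (pt a b r) (pt a b t) c) (h' : 0 < orient a b c) : r < t := by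
  have e : orient (pt a b r) (pt a b t) c = (t - r) * orient a b c := by
    unfold orient; simp only [pt_fst, pt_snd]; ring
  rw [e] at h
  by_contra hle
  push Not at hle
  nlinarith [mul_nonneg (sub_nonneg.2 hle) h'.le]

/-- The first sub-edge of a wall. -/
theorem wall_first (D : Data P s₀ p₀ T F hole X Δ) (hS : IsTriangulation P.region (Finset.range (P.n + s)) p S)
    (hp : ∀ v < P.n, p v = P.pos v) {u v : ℕ} (hw : IsWall P u v) :
    ∃ z w, Tr p S u z w ∧ (z = v ∨ (P.n ≤ z ∧ z < P.n + s ∧ p z ∈ openSegment ℝ (P.pos u) (P.pos v))) := by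
  obtain ⟨-, -, hun, hvn, -, -, huv⟩ := D.wall hw
  -- a point near `u` without labels between
  have hex : ∃ t : ℝ, 0 < t ∧ t < 1 ∧ ∀ z < P.n + s, ∀ r, 0 < r → r ≤ t → p z ≠ pt (P.pos u) (P.pos v) r := by
    have h1 : ∀ z ∈ Finset.range (P.n + s), ∀ᶠ t : ℝ in 𝓝[>] 0, ∀ r, 0 < r → r ≤ t → p z ≠ pt (P.pos u) (P.pos v) r := by
      intro z _
      by_cases hz : ∃ r, 0 < r ∧ p z = pt (P.pos u) (P.pos v) r
      · obtain ⟨r, hr, hzr⟩ := hz
        filter_upwards [Ioo_mem_nhdsGT hr] with t ht r' hr' hrt heq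
        have := pt_inj huv (hzr.symm.trans heq)
        subst this
        exact absurd hrt (not_le.2 ht.2)
      · exact Eventually.of_forall fun t r hr _ heq => hz ⟨r, hr, heq⟩
    have h2 := (Filter.eventually_all_finset (Finset.range (P.n + s))).2 h1
    obtain ⟨t, ht1, ht2⟩ := (h2.and (Ioo_mem_nhdsGT (zero_lt_one (α := ℝ)))).exists
    exact ⟨t, ht2.1, ht2.2, fun z hz => ht1 z (Finset.mem_range.2 hz)⟩
  obtain ⟨t, ht0, ht1, hlab⟩ := hex
  have hxo : pt (P.pos u) (P.pos v) t ∈ openSegment ℝ (P.pos u) (P.pos v) := mem_openSegment_iff_pt.2 ⟨t, ht0, ht1, rfl⟩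
  obtain ⟨a, b, c, h, hx, ha, hb, hc⟩ := wall_at D hS hp hw hxo fun z hz => hlab z hz t ht0 le_rfl
  have hV := h.mem_V hS
  have han : a < P.n + s := Finset.mem_range.1 hV.1
  have hbn : b < P.n + s := Finset.mem_range.1 hV.2.1
  obtain ⟨ra, ha0, ha1, hra⟩ := mem_segment_iff_pt.1 ha
  obtain ⟨rb, hb0, hb1, hrb⟩ := mem_segment_iff_pt.1 hb
  have hab : ra < rb := param_lt (a := P.pos u) (b := P.pos v) (by rw [← hra, ← hrb]; exact h.2) hc
  have hta : ra < t ∧ t < rb := by
    obtain ⟨τ, hτ0, hτ1, hτ⟩ := mem_openSegment_iff_pt.1 hx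
    rw [hra, hrb, pt_pt] at hτ
    have := pt_inj huv hτ
    constructor <;> nlinarith
  have hra0 : ra = 0 := by
    by_contra hne
    exact hlab a han ra (lt_of_le_of_ne ha0 (Ne.symm hne)) hta.1.le hra
  have hau : a = u := by
    apply hS.inj (by exact_mod_cast hV.1) (Finset.mem_coe.2 (Finset.mem_range.2 (by omega)))
    rw [hra, hra0, pt_zero, hp u hun]
  subst hau
  refine ⟨b, c, h, ?_⟩
  rcases eq_or_lt_of_le hb1 with h1 | h1
  · left
    apply hS.inj (by exact_mod_cast hV.2.1) (Finset.mem_coe.2 (Finset.mem_range.2 (by omega)))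
    rw [hrb, h1, pt_one, hp v hvn]
  · right
    have hbo : p b ∈ openSegment ℝ (P.pos a) (P.pos v) :=
      mem_openSegment_iff_pt.2 ⟨rb, by linarith [hta.2], h1, hrb⟩
    refine ⟨?_, hbn, hbo⟩
    by_contra hlt
    push Not at hlt
    rw [hp b hlt] at hbo
    exact D.orig_on_wall hw hlt hbo

end

/-- walls that share a start -/
theorem wall_unique {P : Poly} {s₀ : ℕ} {p₀ : ℕ → Pt} {ι κ ξ : Type} [Fintype ι] [Fintype κ] [Fintype ξ]
    {T : ι → ℕ × ℕ × ℕ} {F : κ → ℕ × ℕ × ℕ} {hole : κ → Fin P.holes.length} {X : ξ → ℕ × ℕ × ℕ} {Δ : ℕ × ℕ × ℕ}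
    (D : Data P s₀ p₀ T F hole X Δ) {u v v' : ℕ} (h : IsWall P u v) (h' : IsWall P u v') : v = v' := by
  rcases h with h | ⟨k, h⟩ <;> rcases h' with h' | ⟨k', h'⟩
  · exact fst_unique (D.nodup_cyc (outer_mem P)) h h'
  · exact absurd (mem_of_mem_cycEdges h').2 (D.outer_hole k' (mem_of_mem_cycEdges h).1)
  · exact absurd (mem_of_mem_cycEdges h).2 (D.outer_hole k (mem_of_mem_cycEdges h').1)
  · have hk : k = k' := by
      by_contra hne
      exact D.hole_hole hne (mem_of_mem_cycEdges h).2 (mem_of_mem_cycEdges h').2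
    subst hk
    exact snd_unique (D.nodup_cyc (hole_mem P k)) h h'

/-- **K2**: at a wall of both polygons there is either a common triangle or a Steiner label that is on the wall in both
polygons. -/
theorem wall_both {P Q : Poly} {s₀ s₁ s : ℕ} {p₀ q₀ p q : ℕ → Pt} {ι κ ξ ι' κ' ξ' : Type} [Fintype ι] [Fintype κ]
    [Fintype ξ] [Fintype ι'] [Fintype κ'] [Fintype ξ'] {T₀ : ι → ℕ × ℕ × ℕ} {F : κ → ℕ × ℕ × ℕ}
    {hole : κ → Fin P.holes.length} {X : ξ → ℕ × ℕ × ℕ} {Δ : ℕ × ℕ × ℕ} {T₀' : ι' → ℕ × ℕ × ℕ} {F' : κ' → ℕ × ℕ × ℕ}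
    {hole' : κ' → Fin Q.holes.length} {X' : ξ' → ℕ × ℕ × ℕ} {Δ' : ℕ × ℕ × ℕ} {S T : Finset (Finset ℕ)}
    (D : Data P s₀ p₀ T₀ F hole X Δ) (D' : Data Q s₁ q₀ T₀' F' hole' X' Δ')
    (hS : IsTriangulation P.region (Finset.range (P.n + s)) p S)
    (hT : IsTriangulation Q.region (Finset.range (Q.n + s)) q T) (hp : ∀ v < P.n, p v = P.pos v)
    (hq : ∀ v < Q.n, q v = Q.pos v) (hrot : SameRotation p S q T) (hP : ∀ c ∈ P.cycles, 4 ≤ c.length)
    (hQ : ∀ c ∈ Q.cycles, 4 ≤ c.length) (hn : P.n = Q.n) {u v : ℕ} (hw : IsWall P u v) (hw' : IsWall Q u v) :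
    (∃ w, Tr p S u v w ∧ Tr q T u v w) ∨ ∃ z w, P.n ≤ z ∧ z < P.n + s ∧ Tr p S u z w ∧ Tr q T u z w ∧
      p z ∈ openSegment ℝ (P.pos u) (P.pos v) ∧ q z ∈ openSegment ℝ (Q.pos u) (Q.pos v) := by
  have hiff := tr_iff D D' hS hT hp hq hrot hP hQ
  obtain ⟨z, w, h, hz⟩ := wall_first D hS hp hw
  have h' := (hiff u z w).1 h
  rcases hz with rfl | ⟨hz1, hz2, hz3⟩
  · exact Or.inl ⟨w, h, h'⟩
  · refine Or.inr ⟨z, w, hz1, hz2, h, h', hz3, ?_⟩
    obtain ⟨-, -, hun, hvn, -, -, huv⟩ := D.wall hw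
    obtain ⟨-, -, hun', hvn', -, -, huv'⟩ := D'.wall hw'
    -- no twin in `P`
    have hno : ¬ ∃ d, Tr p S z u d := by
      rintro ⟨d, hd⟩
      -- the triangle is on the right of the wall
      have hzs : p z ∈ segment ℝ (P.pos u) (P.pos v) := openSegment_subset_segment ℝ _ _ hz3
      obtain ⟨r, hr0, hr1, hr⟩ := mem_openSegment_iff_pt.1 hz3
      have hm : pt (P.pos u) (P.pos v) (r / 2) ∈ openSegment ℝ (P.pos u) (P.pos v) :=
        mem_openSegment_iff_pt.2 ⟨r / 2, by linarith, by linarith, rfl⟩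
      have hmz : pt (P.pos u) (P.pos v) (r / 2) ∈ openSegment ℝ (p z) (p u) := by
        rw [openSegment_symm, mem_openSegment_iff_pt]
        refine ⟨1 / 2, by norm_num, by norm_num, ?_⟩
        rw [hr, hp u hun]
        have e : P.pos u = pt (P.pos u) (P.pos v) 0 := (pt_zero _ _).symm
        conv_rhs => rw [e]
        rw [pt_zero]
        apply Prod.ext
        · simp only [pt_fst]; ring
        · simp only [pt_snd]; ring
      have hcl : pt (P.pos u) (P.pos v) (r / 2) ∈ ClosedTri p (z, u, d) :=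
        segment_subset_closedTri hd.pos (t := (z, u, d)) (a := z) (b := u) (Or.inl rfl) (Or.inr (Or.inl rfl))
          (openSegment_subset_segment ℝ _ _ hmz)
      obtain ⟨y, hy, hyo, -⟩ := exists_generic hd.pos hcl (D.wall_right hw hm) []
      refine hy ?_ (hd.subset hS (openTri_subset _ _ hyo))
      have h1 : 0 < orient (p z) (p u) y := hyo.1
      have e : orient (p z) (p u) y = -(r * orient (P.pos u) (P.pos v) y) := by
        rw [hr, hp u hun]
        unfold orient; simp only [pt_fst, pt_snd]; ring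
      rw [e] at h1
      by_contra h2
      push Not at h2
      nlinarith [mul_nonneg hr0.le h2]
    rcases twin_or_wall D' hT hq h' with ⟨d, hd⟩ | ⟨u', v', hwall, hu, hz, hc⟩
    · exact absurd ⟨d, (hiff z u d).2 hd⟩ hno
    · -- the wall is `u v`
      obtain ⟨-, -, hun'', hvn'', -, -, huv''⟩ := D'.wall hwall
      have hqu : q u = Q.pos u := hq u hun'
      obtain ⟨ru, hru0, hru1, hru⟩ := mem_segment_iff_pt.1 hu
      obtain ⟨rz, hrz0, hrz1, hrz⟩ := mem_segment_iff_pt.1 hz
      have hlt : ru < rz := param_lt (a := Q.pos u') (b := Q.pos v') (by rw [← hru, ← hrz]; exact h'.2) hc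
      have hru2 : ru = 0 := by
        by_contra hne
        refine D'.orig_on_wall hwall (z := u) hun' ?_
        rw [← hqu]
        exact mem_openSegment_iff_pt.2 ⟨ru, lt_of_le_of_ne hru0 (Ne.symm hne), by linarith, hru⟩
      have huu : u = u' := by
        apply hT.inj (Finset.mem_coe.2 (Finset.mem_range.2 (by omega))) (Finset.mem_coe.2 (Finset.mem_range.2 (by omega)))
        rw [hru, hru2, pt_zero, hq u' hun'']
      subst huu
      have hvv : v' = v := wall_unique D' hwall hw'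
      subst hvv
      refine mem_openSegment_iff_pt.2 ⟨rz, by linarith, lt_of_le_of_ne hrz1 fun h1 => ?_, hrz⟩
      have : z = v' := by
        apply hT.inj (Finset.mem_coe.2 (Finset.mem_range.2 (by omega))) (Finset.mem_coe.2 (Finset.mem_range.2 (by omega)))
        rw [hrz, h1, pt_one, hq v' hvn'']
      omega

end Pool.Agent.Lib.MP_6ff0c5_lc.K
end

section

/-!
The soundness interface: the oriented triangles of a compatible pair of triangulations.
-/

set_option autoImplicit false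

namespace Pool.Agent.Lib.MP_6ff0c5_lc.K

open Filter Topology

/-- The common oriented triangles of compatible triangulations of `P` and `Q` with the Steiner labels
`P.n, …, P.n + s - 1`; `N` is three times the number of triangles of the nominal triangulation with `k` Steiner labels. -/
structure Comp (P Q : Poly) (k N s : ℕ) (p q : ℕ → Pt) (T : Finset (ℕ × ℕ × ℕ)) : Prop where
  le : s ≤ k
  pEq : ∀ v < P.n, p v = P.pos v
  qEq : ∀ v < P.n, q v = Q.pos v
  pInj : Set.InjOn p (Finset.range (P.n + s))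
  qInj : Set.InjOn q (Finset.range (P.n + s))
  pos : ∀ t ∈ T, 0 < otri p t ∧ 0 < otri q t
  rot : ∀ t ∈ T, rot t ∈ T
  lab : ∀ t ∈ T, ∀ v, IsVert t v → v < P.n + s
  inP : ∀ t ∈ T, OpenTri p t ⊆ P.region
  inQ : ∀ t ∈ T, OpenTri q t ⊆ Q.region
  vertP : ∀ t ∈ T, ∀ v < P.n + s, p v ∈ ClosedTri p t → IsVert t v
  vertQ : ∀ t ∈ T, ∀ v < P.n + s, q v ∈ ClosedTri q t → IsVert t v
  disjP : ∀ t ∈ T, ∀ t' ∈ T, ∀ x ∈ OpenTri p t, x ∈ ClosedTri p t' → ∀ v, IsVert t v ↔ IsVert t' v
  disjQ : ∀ t ∈ T, ∀ t' ∈ T, ∀ x ∈ OpenTri q t, x ∈ ClosedTri q t' → ∀ v, IsVert t v ↔ IsVert t' v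
  uniq : ∀ a b c c', (a, b, c) ∈ T → (a, b, c') ∈ T → c = c'
  wall : ∀ u v, IsWall P u v → (∃ w, (u, v, w) ∈ T) ∨ ∃ z w, P.n ≤ z ∧ z < P.n + s ∧ (u, z, w) ∈ T ∧
    p z ∈ openSegment ℝ (P.pos u) (P.pos v) ∧ q z ∈ openSegment ℝ (Q.pos u) (Q.pos v)
  noWall : ∀ a b d, IsWall P a b → (b, a, d) ∉ T
  twin : (∀ u v, IsWall P u v → ∃ w, (u, v, w) ∈ T) → ∀ a b c, (a, b, c) ∈ T → ¬ IsWall P a b → ∃ d, (b, a, d) ∈ T
  count : (∀ u v, IsWall P u v → ∃ w, (u, v, w) ∈ T) → T.card + 6 * (k - s) = N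

section

variable {P : Poly} {s₀ s : ℕ} {p₀ p : ℕ → Pt} {ι κ ξ : Type} [Fintype ι] [Fintype κ] [Fintype ξ]
  {T : ι → ℕ × ℕ × ℕ} {F : κ → ℕ × ℕ × ℕ} {hole : κ → Fin P.holes.length} {X : ξ → ℕ × ℕ × ℕ} {Δ : ℕ × ℕ × ℕ}
  {S : Finset (Finset ℕ)}

/-- no triangle on the right of a wall -/
theorem no_right (D : Data P s₀ p₀ T F hole X Δ) (hS : IsTriangulation P.region (Finset.range (P.n + s)) p S)
    (hp : ∀ v < P.n, p v = P.pos v) {u v d : ℕ} (hw : IsWall P u v) : ¬ Tr p S v u d := by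
  intro hd
  obtain ⟨-, -, hun, hvn, -, -, huv⟩ := D.wall hw
  have hm : pt (P.pos u) (P.pos v) (1 / 2) ∈ openSegment ℝ (P.pos u) (P.pos v) :=
    mem_openSegment_iff_pt.2 ⟨1 / 2, by norm_num, by norm_num, rfl⟩
  have hmz : pt (P.pos u) (P.pos v) (1 / 2) ∈ segment ℝ (p v) (p u) := by
    rw [segment_symm, hp u hun, hp v hvn]
    exact openSegment_subset_segment ℝ _ _ hm
  have hcl : pt (P.pos u) (P.pos v) (1 / 2) ∈ ClosedTri p (v, u, d) :=
    segment_subset_closedTri hd.pos (t := (v, u, d)) (a := v) (b := u) (Or.inl rfl) (Or.inr (Or.inl rfl)) hmz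
  obtain ⟨y, hy, hyo, -⟩ := exists_generic hd.pos hcl (D.wall_right hw hm) []
  refine hy ?_ (hd.subset hS (openTri_subset _ _ hyo))
  have h1 : 0 < orient (p v) (p u) y := hyo.1
  rw [hp u hun, hp v hvn, orient_swap] at h1
  linarith

/-- labels on a closed wall, if the wall is an edge -/
theorem ends_of_wall (hS : IsTriangulation P.region (Finset.range (P.n + s)) p S) (hp : ∀ v < P.n, p v = P.pos v)
    {u v w z : ℕ} (hu : u < P.n) (hv : v < P.n) (h : Tr p S u v w) (hz : z < P.n + s)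
    (hx : p z ∈ segment ℝ (P.pos u) (P.pos v)) : z = u ∨ z = v := by
  rw [← hp u hu, ← hp v hv] at hx
  exact h.vert_edge hS (Finset.mem_range.2 hz) hx

end

theorem vs_iff {t : ℕ × ℕ × ℕ} {a b c : ℕ} : ({a, b, c} : Finset ℕ) = vs t ↔ ∀ v, IsVert (a, b, c) v ↔ IsVert t v := by
  constructor
  · intro h v
    rw [← mem_vs, ← mem_vs, ← h]
    rfl
  · intro h
    ext v
    have := h v
    rw [← mem_vs, ← mem_vs] at this
    exact this

open Classical in
/-- **The soundness interface.** -/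
theorem exists_comp {P Q : Poly} {k s₁ : ℕ} {p₀ q₀ : ℕ → Pt} {ι κ ξ ι' κ' ξ' : Type} [Fintype ι] [Fintype κ]
    [Fintype ξ] [Fintype ι'] [Fintype κ'] [Fintype ξ'] {T₀ : ι → ℕ × ℕ × ℕ} {F : κ → ℕ × ℕ × ℕ}
    {hole : κ → Fin P.holes.length} {X : ξ → ℕ × ℕ × ℕ} {Δ : ℕ × ℕ × ℕ} {T₀' : ι' → ℕ × ℕ × ℕ} {F' : κ' → ℕ × ℕ × ℕ}
    {hole' : κ' → Fin Q.holes.length} {X' : ξ' → ℕ × ℕ × ℕ} {Δ' : ℕ × ℕ × ℕ}
    (D : Data P k p₀ T₀ F hole X Δ) (D' : Data Q s₁ q₀ T₀' F' hole' X' Δ') (hn : P.n = Q.n)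
    (hP : ∀ c ∈ P.cycles, 4 ≤ c.length) (hQ : ∀ c ∈ Q.cycles, 4 ≤ c.length)
    (hwall : ∀ u v, IsWall P u v → IsWall Q u v) (h : CompatibleWith P Q k) :
    ∃ s p q T, Comp P Q k (3 * Fintype.card ι) s p q T := by
  obtain ⟨s, hsk, p, q, hpq, S, S', hS, hS', hrot⟩ := h
  have hp : ∀ v < P.n, p v = P.pos v := fun v hv => (hpq v hv).1
  have hq : ∀ v < Q.n, q v = Q.pos v := fun v hv => (hpq v (hn ▸ hv)).2
  have hS'' : IsTriangulation Q.region (Finset.range (Q.n + s)) q S' := by rw [← hn]; exact hS'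
  have hiff := tr_iff D D' hS hS'' hp hq hrot hP hQ
  set T : Finset (ℕ × ℕ × ℕ) := (Finset.range (P.n + s) ×ˢ Finset.range (P.n + s) ×ˢ Finset.range (P.n + s)).filter
    fun t => Tr p S t.1 t.2.1 t.2.2 with hT
  have hmem : ∀ a b c, (a, b, c) ∈ T ↔ Tr p S a b c := by
    intro a b c
    rw [hT, Finset.mem_filter]
    refine ⟨fun h => h.2, fun h => ⟨?_, h⟩⟩
    obtain ⟨h1, h2, h3⟩ := h.mem_V hS
    exact Finset.mem_product.2 ⟨h1, Finset.mem_product.2 ⟨h2, h3⟩⟩
  have hmem' : ∀ t ∈ T, Tr p S t.1 t.2.1 t.2.2 := fun t ht => (hmem _ _ _).1 ht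
  have hmemQ : ∀ t ∈ T, Tr q S' t.1 t.2.1 t.2.2 := fun t ht => (hiff _ _ _).1 (hmem' t ht)
  -- no Steiner label on the boundary
  have hnoS : (∀ u v, IsWall P u v → ∃ w, (u, v, w) ∈ T) → ∀ u v z, IsWall P u v → z < P.n + s →
      p z ∈ segment ℝ (P.pos u) (P.pos v) → z = u ∨ z = v := by
    intro hall u v z hw hz hx
    obtain ⟨w, hw2⟩ := hall u v hw
    obtain ⟨-, -, hun, hvn, -⟩ := D.wall hw
    exact ends_of_wall hS hp hun hvn ((hmem _ _ _).1 hw2) hz hx
  refine ⟨s, p, q, T, ?_⟩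
  constructor
  · exact hsk
  · exact hp
  · intro v hv; exact hq v (hn ▸ hv)
  · exact hS.inj
  · exact hS'.inj
  · intro t ht
    exact ⟨(hmem' t ht).2, (hmemQ t ht).2⟩
  · intro t ht
    exact (hmem _ _ _).2 (hmem' t ht).rot
  · intro t ht v hv
    obtain ⟨h1, h2, h3⟩ := (hmem' t ht).mem_V hS
    rcases hv with rfl | rfl | rfl
    · exact Finset.mem_range.1 h1
    · exact Finset.mem_range.1 h2
    · exact Finset.mem_range.1 h3
  · intro t ht
    exact (openTri_subset _ _).trans ((hmem' t ht).subset hS)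
  · intro t ht
    exact (openTri_subset _ _).trans ((hmemQ t ht).subset hS'')
  · intro t ht v hv hx
    exact (hmem' t ht).vert hS (Finset.mem_range.2 hv) hx
  · intro t ht v hv hx
    exact (hmemQ t ht).vert hS' (Finset.mem_range.2 hv) hx
  · intro t ht t' ht' x hx hx'
    exact vs_iff.1 ((hmem' t ht).eq_of_open hS (hmem' t' ht') hx hx')
  · intro t ht t' ht' x hx hx'
    exact vs_iff.1 ((hmemQ t ht).eq_of_open hS' (hmemQ t' ht') hx hx')
  · intro a b c c' h1 h2
    exact ((hmem _ _ _).1 h1).unique hS ((hmem _ _ _).1 h2)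
  · intro u v hw
    rcases wall_both D D' hS hS'' hp hq hrot hP hQ hn hw (hwall u v hw) with ⟨w, h1, -⟩ | ⟨z, w, h1, h2, h3, -, h5, h6⟩
    · exact Or.inl ⟨w, (hmem _ _ _).2 h1⟩
    · exact Or.inr ⟨z, w, h1, h2, (hmem _ _ _).2 h3, h5, h6⟩
  · intro a b d hw hd
    exact no_right D hS hp hw ((hmem _ _ _).1 hd)
  · intro hall a b c habc hno
    have htr := (hmem _ _ _).1 habc
    rcases twin_or_wall D hS hp htr with ⟨d, hd⟩ | ⟨u, v, hw, ha, hb, hc⟩
    · exact ⟨d, (hmem _ _ _).2 hd⟩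
    · exfalso
      have hV := htr.mem_V hS
      obtain ⟨-, -, hun, hvn, -, -, -⟩ := D.wall hw
      have hab : a ≠ b := (label_ne htr.pos).1
      rcases hnoS hall u v a hw (Finset.mem_range.1 hV.1) ha with rfl | rfl
      · rcases hnoS hall a v b hw (Finset.mem_range.1 hV.2.1) hb with rfl | rfl
        · exact hab rfl
        · exact hno hw
      · rcases hnoS hall u a b hw (Finset.mem_range.1 hV.2.1) hb with rfl | rfl
        · have := htr.2
          rw [hp _ hun, hp _ hvn, orient_swap] at this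
          linarith
        · exact hab rfl
  · intro hall
    have hc := count D hS hp
    have hbd : ((Finset.Ico P.n (P.n + s)).filter fun z => p z ∈ P.boundary) = ∅ := by
      rw [Finset.filter_eq_empty_iff]
      rintro z hz ⟨e, he, hx⟩
      rw [Finset.mem_Ico] at hz
      have hlt := mem_edges_lt D he
      rcases isWall_of_edge he with hw | hw
      · rcases hnoS hall _ _ z hw hz.2 hx with h1 | h1 <;> omega
      · rcases hnoS hall _ _ z hw hz.2 (by rw [segment_symm]; exact hx) with h1 | h1 <;> omega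
    rw [hbd, Finset.card_empty] at hc
    -- three rotations of every triangle
    have h3 : T.card = 3 * S.card := by
      have hmaps : ∀ t ∈ T, vs t ∈ S := fun t ht => (hmem' t ht).1
      rw [Finset.card_eq_sum_card_fiberwise hmaps, Finset.sum_const_nat (m := 3), mul_comm]
      intro t ht
      obtain ⟨a, b, c, rfl, htr⟩ := exists_tr hS ht
      obtain ⟨h1, h2, h3⟩ := label_ne htr.pos
      have hfil : (T.filter fun t => vs t = {a, b, c}) = {(a, b, c), (b, c, a), (c, a, b)} := by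
        ext ⟨x, y, z⟩
        rw [Finset.mem_filter]
        simp only [Finset.mem_insert, Finset.mem_singleton, Prod.mk.injEq]
        constructor
        · rintro ⟨hx, hv⟩
          have hx' := (hmem _ _ _).1 hx
          have hv' := vs_iff.1 hv.symm
          have vx := (hv' x).2 (Or.inl rfl)
          have vy := (hv' y).2 (Or.inr (Or.inl rfl))
          have hxy : x ≠ y := (label_ne hx'.pos).1
          have hadj := isEdge_of_isVert vx vy hxy
          rcases hadj with (⟨e1, e2⟩ | ⟨e1, e2⟩ | ⟨e1, e2⟩) | (⟨e1, e2⟩ | ⟨e1, e2⟩ | ⟨e1, e2⟩) <;>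
            simp only at e1 e2 <;> subst e1 <;> subst e2
          · exact Or.inl ⟨rfl, rfl, hx'.unique hS htr⟩
          · exact Or.inr (Or.inl ⟨rfl, rfl, hx'.unique hS htr.rot⟩)
          · exact Or.inr (Or.inr ⟨rfl, rfl, hx'.unique hS htr.rot.rot⟩)
          · -- the opposite orientation is impossible
            exfalso
            have vz := (hv' z).2 (Or.inr (Or.inr rfl))
            have hz1 := label_ne hx'.pos
            rcases vz with rfl | rfl | rfl
            · exact hz1.2.1 rfl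
            · exact hz1.2.2 rfl
            · have g1 := hx'.2
              have g2 := htr.2
              rw [orient_swap] at g1
              linarith
          · exfalso
            have vz := (hv' z).2 (Or.inr (Or.inr rfl))
            have hz1 := label_ne hx'.pos
            rcases vz with rfl | rfl | rfl
            · have g1 := hx'.2
              have g2 := htr.rot.2
              rw [orient_swap] at g1
              linarith
            · exact hz1.2.1 rfl
            · exact hz1.2.2 rfl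
          · exfalso
            have vz := (hv' z).2 (Or.inr (Or.inr rfl))
            have hz1 := label_ne hx'.pos
            rcases vz with rfl | rfl | rfl
            · exact hz1.2.2 rfl
            · have g1 := hx'.2
              have g2 := htr.rot.rot.2
              rw [orient_swap] at g1
              linarith
            · exact hz1.2.1 rfl
        · rintro (⟨rfl, rfl, rfl⟩ | ⟨rfl, rfl, rfl⟩ | ⟨rfl, rfl, rfl⟩)
          · exact ⟨(hmem _ _ _).2 htr, rfl⟩
          · exact ⟨(hmem _ _ _).2 htr.rot, by unfold vs; ext w; simp; tauto⟩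
          · exact ⟨(hmem _ _ _).2 htr.rot.rot, by unfold vs; ext w; simp; tauto⟩
      rw [hfil, Finset.card_eq_three]
      refine ⟨_, _, _, ?_, ?_, ?_, rfl⟩
      · intro he; exact h1 (Prod.mk.inj he).1
      · intro he; exact h3 (Prod.mk.inj he).1.symm
      · intro he; exact h2 (Prod.mk.inj he).1
    omega

/-- Virtual blockers: a segment that is an edge of a triangle outside of the region misses the open triangles of the
region. -/
theorem blocker {p q r : ℕ → Pt} {ι : Type*} {τ : ι → ℕ × ℕ × ℕ} {t f : ℕ × ℕ × ℕ} (hf : 0 < otri q f)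
    (hτ : ∀ i, 0 < otri r (τ i)) (hsub : OpenTri p t ⊆ ⋃ i, ClosedTri r (τ i))
    (hdisj : ∀ i, ∀ x ∈ OpenTri q f, x ∉ OpenTri r (τ i)) {y z : ℕ} (hy : IsVert f y) (hz : IsVert f z) :
    ∀ x ∈ segment ℝ (q y) (q z), x ∉ OpenTri p t := by
  intro x hx hxt
  have hxf := segment_subset_closedTri hf hy hz hx
  obtain ⟨w, hw, hwf, -⟩ := exists_generic hf hxf ((isOpen_openTri p t).mem_nhds hxt) []
  obtain ⟨i, hi⟩ := Set.mem_iUnion.1 (hsub hw)
  obtain ⟨w', hw', hwi, -⟩ := exists_generic (hτ i) hi ((isOpen_openTri q f).mem_nhds hwf) []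
  exact hdisj i w' hw' hwi

end Pool.Agent.Lib.MP_6ff0c5_lc.K
end
end
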