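import Pool.Agent.Lib.MP_6ff0c5_lc.Defs

section

section

/-!
Signed crossing numbers of directed edges with the vertical ray going up from a point; indicator functions of triangles.
-/

set_option autoImplicit false

namespace Pool.Agent.Lib.MP_6ff0c5_lc.K

open Filter Topology

/-! ### The orientation form -/

theorem orient_swap (a b c : Pt) : orient b a c = -orient a b c := by unfold orient; ring

theorem orient_rot (a b c : Pt) : orient b c a = orient a b c := by unfold orient; ring

theorem orient_rot' (a b c : Pt) : orient c a b = orient a b c := by unfold orient; ring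

theorem orient_sum (a b c x : Pt) : orient a b x + orient b c x + orient c a x = orient a b c := by
  unfold orient; ring

theorem orient_self_left (a x : Pt) : orient a a x = 0 := by unfold orient; ring

theorem orient_self_mid (a x : Pt) : orient a x x = 0 := by unfold orient; ring

theorem orient_self_out (a x : Pt) : orient a x a = 0 := by unfold orient; ring

/-- The relation between the barycentric coordinates and the position. -/
theorem orient_bary (a b c x : Pt) :
    orient b c x * (a.1 - x.1) + orient c a x * (b.1 - x.1) + orient a b x * (c.1 - x.1) = 0 := by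
  unfold orient; ring

theorem orient_bary2 (a b c x : Pt) :
    orient b c x * (a.2 - x.2) + orient c a x * (b.2 - x.2) + orient a b x * (c.2 - x.2) = 0 := by
  unfold orient; ring

theorem continuous_orient (a b : Pt) : Continuous fun x : Pt => orient a b x := by
  unfold orient; fun_prop

/-- A point on the line through two points with abscissas on both sides is on the segment. -/
theorem mem_segment_of_orient {a b x : Pt} (h : orient a b x = 0) (h1 : a.1 ≤ x.1) (h2 : x.1 < b.1) :
    x ∈ segment ℝ a b := by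
  have hab : 0 < b.1 - a.1 := by linarith
  refine ⟨(b.1 - x.1) / (b.1 - a.1), (x.1 - a.1) / (b.1 - a.1), div_nonneg (by linarith) hab.le,
    div_nonneg (by linarith) hab.le, ?_, ?_⟩
  · field_simp; ring
  · unfold orient at h
    apply Prod.ext
    · simp only [Prod.fst_add, Prod.smul_fst, smul_eq_mul]
      field_simp
      ring
    · simp only [Prod.snd_add, Prod.smul_snd, smul_eq_mul]
      field_simp
      linarith

/-- The signed number of crossings (`-1`, `0` or `1`) of the directed edge from `a` to `b` with the vertical ray going up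
from `x`; a crossing from the right to the left counts `1`. -/
noncomputable def cr (x a b : Pt) : ℤ :=
  open Classical in
  (if b.1 ≤ x.1 ∧ x.1 < a.1 ∧ 0 < orient a b x then 1 else 0) -
    (if a.1 ≤ x.1 ∧ x.1 < b.1 ∧ orient a b x < 0 then 1 else 0)

theorem cr_swap (x a b : Pt) : cr x b a = -cr x a b := by
  unfold cr
  rw [orient_swap a b x]
  simp only [Left.neg_pos_iff, Left.neg_neg_iff, neg_sub]

/-- The indicator of the open triangle `a b c` at `x`, with the sign of the orientation. -/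
noncomputable def ind (x a b c : Pt) : ℤ :=
  open Classical in
  if 0 < orient a b x ∧ 0 < orient b c x ∧ 0 < orient c a x then 1
  else if orient a b x < 0 ∧ orient b c x < 0 ∧ orient c a x < 0 then -1 else 0

theorem ind_rot (x a b c : Pt) : ind x b c a = ind x a b c := by
  unfold ind
  have e1 : (0 < orient b c x ∧ 0 < orient c a x ∧ 0 < orient a b x) ↔
    (0 < orient a b x ∧ 0 < orient b c x ∧ 0 < orient c a x) := by tauto
  have e2 : (orient b c x < 0 ∧ orient c a x < 0 ∧ orient a b x < 0) ↔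
    (orient a b x < 0 ∧ orient b c x < 0 ∧ orient c a x < 0) := by tauto
  simp only [e1, e2]

theorem ind_swap (x a b c : Pt) : ind x b a c = -ind x a b c := by
  unfold ind
  rw [orient_swap a b x, orient_swap c a x, orient_swap b c x]
  simp only [Left.neg_pos_iff, Left.neg_neg_iff]
  by_cases h1 : 0 < orient a b x ∧ 0 < orient b c x ∧ 0 < orient c a x
  · have h2 : ¬ (orient a b x < 0 ∧ orient c a x < 0 ∧ orient b c x < 0) := fun h => by linarith [h1.1, h.1]
    have h3 : 0 < orient a b x ∧ 0 < orient c a x ∧ 0 < orient b c x := ⟨h1.1, h1.2.2, h1.2.1⟩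
    simp [h1, h2, h3]
  · have h3 : ¬ (0 < orient a b x ∧ 0 < orient c a x ∧ 0 < orient b c x) := fun h => h1 ⟨h.1, h.2.2, h.2.1⟩
    by_cases h4 : orient a b x < 0 ∧ orient b c x < 0 ∧ orient c a x < 0
    · have h5 : orient a b x < 0 ∧ orient c a x < 0 ∧ orient b c x < 0 := ⟨h4.1, h4.2.2, h4.2.1⟩
      simp [h1, h4, h5]
    · have h5 : ¬ (orient a b x < 0 ∧ orient c a x < 0 ∧ orient b c x < 0) := fun h => h4 ⟨h.1, h.2.2, h.2.1⟩
      simp [h1, h3, h4, h5]

/-- the case of the crossing formula in which `a` is on the left and `b`, `c` are on the right -/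
theorem cr_ind_aux {a b c x : Pt} (ha : a.1 ≤ x.1) (hb : x.1 < b.1) (hc : x.1 < c.1)
    (hab : x ∉ segment ℝ a b) (hca : x ∉ segment ℝ c a) :
    cr x a b + cr x b c + cr x c a = ind x a b c := by
  have h1 : orient a b x ≠ 0 := fun h => hab (mem_segment_of_orient h ha hb)
  have h2 : orient c a x ≠ 0 := fun h => hca (by
    rw [segment_symm]
    refine mem_segment_of_orient ?_ ha hc
    rw [orient_swap, h, neg_zero])
  have hB := orient_bary a b c x
  have e1 : ¬ (b.1 ≤ x.1) := by linarith
  have e2 : ¬ (c.1 ≤ x.1) := by linarith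
  have e3 : ¬ (x.1 < a.1) := by linarith
  unfold cr ind
  simp only [ha, hb, hc, e1, e2, e3, false_and, true_and, if_false, sub_zero, zero_sub, and_false]
  rcases lt_or_gt_of_ne h1 with h1 | h1 <;> rcases lt_or_gt_of_ne h2 with h2 | h2
  · have h3 : orient b c x < 0 := by
      by_contra h3
      push Not at h3
      nlinarith [mul_nonneg h3 (sub_nonneg.2 ha), mul_pos_of_neg_of_neg h2 (sub_neg.2 hb), mul_pos_of_neg_of_neg h1 (sub_neg.2 hc)]
    simp [h1, h2, h3, h1.le, h2.le, h1.not_gt, h2.not_gt]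
  · simp [h1, h2, h1.not_gt, h2.not_gt, h1.le, h2.le]
  · simp [h1, h2, h1.not_gt, h2.not_gt, h1.le, h2.le]
  · have h3 : 0 < orient b c x := by
      by_contra h3
      push Not at h3
      nlinarith [mul_nonneg (neg_nonneg.2 h3) (sub_nonneg.2 ha), mul_pos h2 (sub_pos.2 hb), mul_pos h1 (sub_pos.2 hc)]
    simp [h1, h2, h3, h1.not_gt, h2.not_gt]

/-- a point on a vertical segment -/
theorem mem_segment_vertical {b c x : Pt} (hb : b.1 = x.1) (hc : c.1 = x.1) (h1 : b.2 ≤ x.2) (h2 : x.2 < c.2) :
    x ∈ segment ℝ b c := by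
  have hbc : 0 < c.2 - b.2 := by linarith
  refine ⟨(c.2 - x.2) / (c.2 - b.2), (x.2 - b.2) / (c.2 - b.2), div_nonneg (by linarith) hbc.le,
    div_nonneg (by linarith) hbc.le, ?_, ?_⟩
  · field_simp; ring
  · apply Prod.ext
    · simp only [Prod.fst_add, Prod.smul_fst, smul_eq_mul, hb, hc]
      field_simp
      ring
    · simp only [Prod.snd_add, Prod.smul_snd, smul_eq_mul]
      field_simp
      ring

/-- the case of the crossing formula in which `a` is on the right and `b`, `c` are on the left -/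
theorem cr_ind_aux' {a b c x : Pt} (ha : x.1 < a.1) (hb : b.1 ≤ x.1) (hc : c.1 ≤ x.1)
    (hab : x ∉ segment ℝ a b) (hbc : x ∉ segment ℝ b c) (hca : x ∉ segment ℝ c a) :
    cr x a b + cr x b c + cr x c a = ind x a b c := by
  have h1 : orient a b x ≠ 0 := fun h => hab (by
    rw [segment_symm]
    refine mem_segment_of_orient ?_ hb ha
    rw [orient_swap, h, neg_zero])
  have h2 : orient c a x ≠ 0 := fun h => hca (mem_segment_of_orient h hc ha)
  have hB := orient_bary a b c x
  have e1 : ¬ (x.1 < b.1) := by linarith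
  have e2 : ¬ (x.1 < c.1) := by linarith
  have e3 : ¬ (a.1 ≤ x.1) := by linarith
  have hv1 : orient c a x < 0 → orient a b x < 0 → ¬ (b.1 = x.1 ∧ c.1 = x.1) := by
    rintro h3 h4 ⟨h5, h6⟩
    apply hbc
    have e4 : orient c a x = -((a.1 - x.1) * (c.2 - x.2)) := by unfold orient; rw [h6]; ring
    have e5 : orient a b x = (a.1 - x.1) * (b.2 - x.2) := by unfold orient; rw [h5]; ring
    have hax : 0 < a.1 - x.1 := by linarith
    have h7 : 0 < c.2 - x.2 := by
      by_contra h7
      push Not at h7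
      nlinarith [mul_nonneg hax.le (neg_nonneg.2 h7)]
    have h8 : b.2 - x.2 < 0 := by
      by_contra h8
      push Not at h8
      nlinarith [mul_nonneg hax.le h8]
    exact mem_segment_vertical h5 h6 (by linarith) (by linarith)
  have hv2 : 0 < orient c a x → 0 < orient a b x → ¬ (b.1 = x.1 ∧ c.1 = x.1) := by
    rintro h3 h4 ⟨h5, h6⟩
    apply hbc
    rw [segment_symm]
    have e4 : orient c a x = -((a.1 - x.1) * (c.2 - x.2)) := by unfold orient; rw [h6]; ring
    have e5 : orient a b x = (a.1 - x.1) * (b.2 - x.2) := by unfold orient; rw [h5]; ring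
    have hax : 0 < a.1 - x.1 := by linarith
    have h7 : c.2 - x.2 < 0 := by
      by_contra h7
      push Not at h7
      nlinarith [mul_nonneg hax.le h7]
    have h8 : 0 < b.2 - x.2 := by
      by_contra h8
      push Not at h8
      nlinarith [mul_nonneg hax.le (neg_nonneg.2 h8)]
    exact mem_segment_vertical h6 h5 (by linarith) (by linarith)
  have hax : 0 < a.1 - x.1 := by linarith
  unfold cr ind
  simp only [ha, hb, hc, e1, e2, e3, false_and, true_and, if_false, sub_zero, zero_sub, and_false]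
  rcases lt_or_gt_of_ne h1 with h1 | h1 <;> rcases lt_or_gt_of_ne h2 with h2 | h2
  · have h3 : orient b c x < 0 := by
      by_contra h3
      push Not at h3
      have t1 := mul_nonneg h3 hax.le
      have t2 : 0 ≤ orient c a x * (b.1 - x.1) := mul_nonneg_of_nonpos_of_nonpos h2.le (by linarith)
      have t3 : 0 ≤ orient a b x * (c.1 - x.1) := mul_nonneg_of_nonpos_of_nonpos h1.le (by linarith)
      have t4 : orient c a x * (b.1 - x.1) = 0 := by linarith
      have t5 : orient a b x * (c.1 - x.1) = 0 := by linarith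
      have t6 := (mul_eq_zero.1 t4).resolve_left h2.ne
      have t7 := (mul_eq_zero.1 t5).resolve_left h1.ne
      exact hv1 h2 h1 ⟨by linarith, by linarith⟩
    simp [h1, h2, h3, h1.not_gt, h2.not_gt]
  · simp [h1, h2, h1.not_gt, h2.not_gt]
  · simp [h1, h2, h1.not_gt, h2.not_gt]
  · have h3 : 0 < orient b c x := by
      by_contra h3
      push Not at h3
      have t1 : 0 ≤ - (orient b c x * (a.1 - x.1)) := by nlinarith
      have t2 : 0 ≤ - (orient c a x * (b.1 - x.1)) := by nlinarith
      have t3 : 0 ≤ - (orient a b x * (c.1 - x.1)) := by nlinarith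
      have t4 : orient c a x * (b.1 - x.1) = 0 := by linarith
      have t5 : orient a b x * (c.1 - x.1) = 0 := by linarith
      have t6 := (mul_eq_zero.1 t4).resolve_left h2.ne'
      have t7 := (mul_eq_zero.1 t5).resolve_left h1.ne'
      exact hv2 h2 h1 ⟨by linarith, by linarith⟩
    simp [h1, h2, h3, h1.not_gt, h2.not_gt]

/-- If all vertices are on the same side of the vertical line through `x`, then `x` is not in the open triangle. -/
theorem ind_eq_zero {a b c x : Pt} (h : (x.1 < a.1 ∧ x.1 < b.1 ∧ x.1 < c.1) ∨ (a.1 ≤ x.1 ∧ b.1 ≤ x.1 ∧ c.1 ≤ x.1)) :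
    ind x a b c = 0 := by
  have hB := orient_bary a b c x
  have hS := orient_sum a b c x
  unfold ind
  rw [if_neg, if_neg]
  · rintro ⟨h1, h2, h3⟩
    rcases h with ⟨ha, hb, hc⟩ | ⟨ha, hb, hc⟩
    · nlinarith [mul_pos (neg_pos.2 h2) (sub_pos.2 ha), mul_pos (neg_pos.2 h3) (sub_pos.2 hb), mul_pos (neg_pos.2 h1) (sub_pos.2 hc)]
    · have t1 : 0 ≤ orient b c x * (a.1 - x.1) := mul_nonneg_of_nonpos_of_nonpos h2.le (by linarith)
      have t2 : 0 ≤ orient c a x * (b.1 - x.1) := mul_nonneg_of_nonpos_of_nonpos h3.le (by linarith)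
      have t3 : 0 ≤ orient a b x * (c.1 - x.1) := mul_nonneg_of_nonpos_of_nonpos h1.le (by linarith)
      have u1 : a.1 - x.1 = 0 := (mul_eq_zero.1 (by linarith : orient b c x * (a.1 - x.1) = 0)).resolve_left h2.ne
      have u2 : b.1 - x.1 = 0 := (mul_eq_zero.1 (by linarith : orient c a x * (b.1 - x.1) = 0)).resolve_left h3.ne
      have u3 : c.1 - x.1 = 0 := (mul_eq_zero.1 (by linarith : orient a b x * (c.1 - x.1) = 0)).resolve_left h1.ne
      have : orient a b x = 0 := by
        unfold orient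
        have e1 : b.1 - a.1 = 0 := by linarith
        have e2 : x.1 - a.1 = 0 := by linarith
        rw [e1, e2]; ring
      linarith
  · rintro ⟨h1, h2, h3⟩
    rcases h with ⟨ha, hb, hc⟩ | ⟨ha, hb, hc⟩
    · nlinarith [mul_pos h2 (sub_pos.2 ha), mul_pos h3 (sub_pos.2 hb), mul_pos h1 (sub_pos.2 hc)]
    · have t1 : orient b c x * (a.1 - x.1) ≤ 0 := mul_nonpos_of_nonneg_of_nonpos h2.le (by linarith)
      have t2 : orient c a x * (b.1 - x.1) ≤ 0 := mul_nonpos_of_nonneg_of_nonpos h3.le (by linarith)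
      have t3 : orient a b x * (c.1 - x.1) ≤ 0 := mul_nonpos_of_nonneg_of_nonpos h1.le (by linarith)
      have u1 : a.1 - x.1 = 0 := (mul_eq_zero.1 (by linarith : orient b c x * (a.1 - x.1) = 0)).resolve_left h2.ne'
      have u2 : b.1 - x.1 = 0 := (mul_eq_zero.1 (by linarith : orient c a x * (b.1 - x.1) = 0)).resolve_left h3.ne'
      have : orient a b x = 0 := by
        unfold orient
        have e1 : b.1 - a.1 = 0 := by linarith
        have e2 : x.1 - a.1 = 0 := by linarith
        rw [e1, e2]; ring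
      linarith

/-- The crossing formula: the crossing numbers of the three edges of a triangle add up to its indicator. -/
theorem cr_ind {a b c x : Pt} (hab : x ∉ segment ℝ a b) (hbc : x ∉ segment ℝ b c) (hca : x ∉ segment ℝ c a) :
    cr x a b + cr x b c + cr x c a = ind x a b c := by
  rcases le_or_gt a.1 x.1 with ha | ha <;> rcases le_or_gt b.1 x.1 with hb | hb <;>
    rcases le_or_gt c.1 x.1 with hc | hc
  · rw [ind_eq_zero (Or.inr ⟨ha, hb, hc⟩)]
    unfold cr
    simp [ha.not_gt, hb.not_gt, hc.not_gt]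
  · -- c right
    have h := cr_ind_aux' hc ha hb hca hab hbc
    rw [ind_rot, ind_rot] at h
    linarith
  · -- b right
    have h := cr_ind_aux' hb hc ha hbc hca hab
    rw [ind_rot] at h
    linarith
  · -- a left, b c right
    exact cr_ind_aux ha hb hc hab hca
  · -- a right, b c left
    exact cr_ind_aux' ha hb hc hab hbc hca
  · -- b left, a c right
    have h := cr_ind_aux hb hc ha hbc hab
    rw [ind_rot] at h
    linarith
  · -- c left, a b right
    have h := cr_ind_aux hc ha hb hca hbc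
    rw [ind_rot, ind_rot] at h
    linarith
  · rw [ind_eq_zero (Or.inl ⟨ha, hb, hc⟩)]
    unfold cr
    simp [ha.not_ge, hb.not_ge, hc.not_ge]

end Pool.Agent.Lib.MP_6ff0c5_lc.K
end

section

/-!
Generic points; the crossing number of a closed chain is locally constant.
-/

set_option autoImplicit false

namespace Pool.Agent.Lib.MP_6ff0c5_lc.K

open Filter Topology

/-! ### Generic points -/

theorem isOpen_orient_ne (a b : Pt) : IsOpen {y : Pt | orient a b y ≠ 0} :=
  isOpen_ne_fun (continuous_orient a b) continuous_const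

theorem isOpen_orient_pos (a b : Pt) : IsOpen {y : Pt | 0 < orient a b y} :=
  isOpen_lt continuous_const (continuous_orient a b)

theorem isOpen_orient_neg (a b : Pt) : IsOpen {y : Pt | orient a b y < 0} :=
  isOpen_lt (continuous_orient a b) continuous_const

theorem dense_orient_ne {a b : Pt} (h : a ≠ b) : Dense {y : Pt | orient a b y ≠ 0} := by
  intro y
  by_cases hy : orient a b y = 0
  · -- move in the normal direction
    have hn : 0 < (b.1 - a.1) ^ 2 + (b.2 - a.2) ^ 2 := by
      rcases eq_or_ne a.1 b.1 with h1 | h1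
      · have h2 : b.2 - a.2 ≠ 0 := fun h3 => h (Prod.ext h1 (by linarith))
        positivity
      · have h2 : b.1 - a.1 ≠ 0 := fun h3 => h1 (by linarith)
        positivity
    have hc : Tendsto (fun t : ℝ => ((y.1 - t * (b.2 - a.2), y.2 + t * (b.1 - a.1)) : Pt)) (𝓝[>] 0) (𝓝 y) := by
      have : Continuous fun t : ℝ => ((y.1 - t * (b.2 - a.2), y.2 + t * (b.1 - a.1)) : Pt) := by fun_prop
      have h0 := this.tendsto 0
      simp only [zero_mul, sub_zero, add_zero] at h0
      exact h0.mono_left nhdsWithin_le_nhds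
    refine mem_closure_of_tendsto hc ?_
    filter_upwards [self_mem_nhdsWithin] with t ht
    have ht' : (0 : ℝ) < t := ht
    show orient a b _ ≠ 0
    have : orient a b (y.1 - t * (b.2 - a.2), y.2 + t * (b.1 - a.1)) =
        orient a b y + t * ((b.1 - a.1) ^ 2 + (b.2 - a.2) ^ 2) := by unfold orient; ring
    rw [this, hy, zero_add]
    positivity
  · exact subset_closure hy

/-- Points that are on none of finitely many lines. -/
theorem dense_generic (L : List (Pt × Pt)) : Dense {y : Pt | ∀ e ∈ L, e.1 ≠ e.2 → orient e.1 e.2 y ≠ 0} := by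
  have h : {y : Pt | ∀ e ∈ L, e.1 ≠ e.2 → orient e.1 e.2 y ≠ 0} =
      ⋂ i : Fin L.length, {y : Pt | (L.get i).1 ≠ (L.get i).2 → orient (L.get i).1 (L.get i).2 y ≠ 0} := by
    ext y
    rw [Set.mem_iInter]
    constructor
    · intro h i; exact h _ (L.get_mem i)
    · intro h e he
      obtain ⟨i, rfl⟩ := List.get_of_mem he
      exact h i
  rw [h]
  refine dense_iInter_of_isOpen (fun i => ?_) (fun i => ?_)
  · by_cases hi : (L.get i).1 = (L.get i).2
    · have e : {y : Pt | (L.get i).1 ≠ (L.get i).2 → orient (L.get i).1 (L.get i).2 y ≠ 0} = Set.univ :=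
        Set.eq_univ_of_forall fun y h => absurd hi h
      rw [e]; exact isOpen_univ
    · have e : {y : Pt | (L.get i).1 ≠ (L.get i).2 → orient (L.get i).1 (L.get i).2 y ≠ 0} =
          {y : Pt | orient (L.get i).1 (L.get i).2 y ≠ 0} := by
        ext y; exact ⟨fun h => h hi, fun h _ => h⟩
      rw [e]; exact isOpen_orient_ne _ _
  · by_cases hi : (L.get i).1 = (L.get i).2
    · have e : {y : Pt | (L.get i).1 ≠ (L.get i).2 → orient (L.get i).1 (L.get i).2 y ≠ 0} = Set.univ :=
        Set.eq_univ_of_forall fun y h => absurd hi h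
      rw [e]; exact dense_univ
    · have e : {y : Pt | (L.get i).1 ≠ (L.get i).2 → orient (L.get i).1 (L.get i).2 y ≠ 0} =
          {y : Pt | orient (L.get i).1 (L.get i).2 y ≠ 0} := by
        ext y; exact ⟨fun h => h hi, fun h _ => h⟩
      rw [e]; exact dense_orient_ne hi

theorem orient_rev (a b c : Pt) : orient c b a = -orient a b c := by unfold orient; ring

theorem orient_of_mem_segment {a b x : Pt} (h : x ∈ segment ℝ a b) : orient a b x = 0 := by
  obtain ⟨s, t, hs, ht, hst, rfl⟩ := h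
  unfold orient
  simp only [Prod.fst_add, Prod.smul_fst, smul_eq_mul, Prod.snd_add, Prod.smul_snd]
  have : s = 1 - t := by linarith
  rw [this]; ring

theorem notMem_segment_of_orient {a b x : Pt} (h : orient a b x ≠ 0) : x ∉ segment ℝ a b :=
  fun h' => h (orient_of_mem_segment h')

/-! ### Triangles -/

/-- A point with nonnegative barycentric coordinates, one of which is zero, is on an edge. -/
theorem mem_edge_of_zero {a b c x : Pt} (h : 0 < orient a b c) (h1 : orient a b x = 0) (h2 : 0 ≤ orient b c x)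
    (h3 : 0 ≤ orient c a x) : x ∈ segment ℝ a b := by
  have hS := orient_sum a b c x
  have hB := orient_bary a b c x
  have hB2 := orient_bary2 a b c x
  refine ⟨orient b c x / orient a b c, orient c a x / orient a b c, div_nonneg h2 h.le, div_nonneg h3 h.le, ?_, ?_⟩
  · field_simp; linarith
  · apply Prod.ext
    · simp only [Prod.fst_add, Prod.smul_fst, smul_eq_mul]
      rw [h1] at hB
      field_simp
      rw [← hS, h1]
      linarith
    · simp only [Prod.snd_add, Prod.smul_snd, smul_eq_mul]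
      rw [h1] at hB2
      field_simp
      rw [← hS, h1]
      linarith

theorem ind_of_degenerate {a b c : Pt} (h : orient a b c = 0) (x : Pt) : ind x a b c = 0 := by
  have hS := orient_sum a b c x
  unfold ind
  rw [if_neg, if_neg]
  · rintro ⟨h1, h2, h3⟩; linarith
  · rintro ⟨h1, h2, h3⟩; linarith

theorem ind_eventually_pos {a b c x : Pt} (h : 0 < orient a b c) (hab : x ∉ segment ℝ a b) (hbc : x ∉ segment ℝ b c)
    (hca : x ∉ segment ℝ c a) : ∀ᶠ y in 𝓝 x, ind y a b c = ind x a b c := by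
  have hS := orient_sum a b c
  have key : ∀ {a b c : Pt} (y : Pt), 0 < orient a b c → orient a b y < 0 → ind y a b c = 0 := by
    intro a b c y h hy
    have hS := orient_sum a b c y
    unfold ind
    rw [if_neg, if_neg]
    · rintro ⟨h1, h2, h3⟩; linarith
    · rintro ⟨h1, h2, h3⟩; linarith
  by_cases h1 : orient a b x < 0
  · filter_upwards [(isOpen_orient_neg a b).mem_nhds h1] with y hy
    rw [key y h hy, key x h h1]
  by_cases h2 : orient b c x < 0
  · filter_upwards [(isOpen_orient_neg b c).mem_nhds h2] with y hy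
    rw [← ind_rot, ← ind_rot x, key y (by rw [orient_rot]; exact h) hy, key x (by rw [orient_rot]; exact h) h2]
  by_cases h3 : orient c a x < 0
  · filter_upwards [(isOpen_orient_neg c a).mem_nhds h3] with y hy
    rw [← ind_rot y, ← ind_rot y, ← ind_rot x, ← ind_rot x, key y (by rw [orient_rot']; exact h) hy,
      key x (by rw [orient_rot']; exact h) h3]
  push Not at h1 h2 h3
  have g1 : 0 < orient a b x := lt_of_le_of_ne h1 fun h0 => hab (mem_edge_of_zero h h0.symm h2 h3)
  have g2 : 0 < orient b c x := lt_of_le_of_ne h2 fun h0 =>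
    hbc (mem_edge_of_zero (by rw [orient_rot]; exact h) h0.symm h3 h1)
  have g3 : 0 < orient c a x := lt_of_le_of_ne h3 fun h0 =>
    hca (mem_edge_of_zero (by rw [orient_rot']; exact h) h0.symm h1 h2)
  filter_upwards [(isOpen_orient_pos a b).mem_nhds g1, (isOpen_orient_pos b c).mem_nhds g2,
    (isOpen_orient_pos c a).mem_nhds g3] with y y1 y2 y3
  unfold ind
  rw [if_pos ⟨y1, y2, y3⟩, if_pos ⟨g1, g2, g3⟩]

/-- Off the boundary of a triangle its indicator is locally constant. -/
theorem ind_eventually {a b c x : Pt} (hab : x ∉ segment ℝ a b) (hbc : x ∉ segment ℝ b c)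
    (hca : x ∉ segment ℝ c a) : ∀ᶠ y in 𝓝 x, ind y a b c = ind x a b c := by
  rcases lt_trichotomy (orient a b c) 0 with h | h | h
  · have h' : 0 < orient b a c := by rw [orient_swap]; linarith
    filter_upwards [ind_eventually_pos h' (by rwa [segment_symm]) (by rwa [segment_symm]) (by rwa [segment_symm])]
      with y hy
    rw [ind_swap, ind_swap x] at hy
    linarith
  · exact Eventually.of_forall fun y => by rw [ind_of_degenerate h, ind_of_degenerate h]
  · exact ind_eventually_pos h hab hbc hca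

theorem isClosed_segment' (a b : Pt) : IsClosed (segment ℝ a b) := by
  have : segment ℝ a b = convexHull ℝ {a, b} := (convexHull_pair a b).symm
  rw [this]
  exact ((Set.toFinite {a, b}).isCompact_convexHull ℝ).isClosed

theorem notMem_segment_eventually {a b x : Pt} (h : x ∉ segment ℝ a b) : ∀ᶠ y in 𝓝 x, y ∉ segment ℝ a b :=
  (isClosed_segment' a b).isOpen_compl.mem_nhds h

/-! ### Closed chains -/

variable {Λ : Type*}

/-- A closed chain of directed edges: every vertex is as often the first as the last point of an edge. -/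
def Closed (E : List (Λ × Λ)) : Prop := ∀ g : Λ → ℤ, (E.map fun e => g e.1).sum = (E.map fun e => g e.2).sum

/-- The crossing number of a chain. -/
noncomputable def crSum (p : Λ → Pt) (E : List (Λ × Λ)) (x : Pt) : ℤ := (E.map fun e => cr x (p e.1) (p e.2)).sum

/-- The cone formula. -/
theorem cone (p : Λ → Pt) {E : List (Λ × Λ)} (hE : Closed E) (x z : Pt)
    (h1 : ∀ e ∈ E, x ∉ segment ℝ (p e.1) (p e.2)) (h2 : ∀ e ∈ E, x ∉ segment ℝ z (p e.1))
    (h3 : ∀ e ∈ E, x ∉ segment ℝ (p e.2) z) :
    crSum p E x = (E.map fun e => ind x z (p e.1) (p e.2)).sum := by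
  have e1 : (E.map fun e => ind x z (p e.1) (p e.2)) =
      E.map fun e => (cr x z (p e.1) + cr x (p e.1) (p e.2)) - cr x z (p e.2) := by
    refine List.map_congr_left fun e he => ?_
    rw [← cr_ind (h2 e he) (h1 e he) (h3 e he), cr_swap x z (p e.2)]
    ring
  rw [e1]
  have e2 : ∀ L : List (Λ × Λ), (L.map fun e => (cr x z (p e.1) + cr x (p e.1) (p e.2)) - cr x z (p e.2)).sum =
      (L.map fun e => cr x z (p e.1)).sum + crSum p L x - (L.map fun e => cr x z (p e.2)).sum := by
    intro L
    unfold crSum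
    induction L with
    | nil => simp
    | cons e L ih => simp only [List.map_cons, List.sum_cons]; rw [ih]; ring
  rw [e2, hE fun v => cr x z (p v)]
  ring

/-- The crossing number of a closed chain is locally constant off the chain. -/
theorem crSum_eventually (p : Λ → Pt) {E : List (Λ × Λ)} (hE : Closed E) {x : Pt}
    (hx : ∀ e ∈ E, x ∉ segment ℝ (p e.1) (p e.2)) :
    ∀ᶠ y in 𝓝 x, (∀ e ∈ E, y ∉ segment ℝ (p e.1) (p e.2)) ∧ crSum p E y = crSum p E x := by
  obtain ⟨z, hz⟩ := (dense_generic ((E.map fun e => (x, p e.1)) ++ E.map fun e => (x, p e.2))).nonempty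
  have hz1 : ∀ e ∈ E, x ∉ segment ℝ z (p e.1) := by
    intro e he
    have hne : x ≠ p e.1 := fun h => hx e he (by rw [h]; exact left_mem_segment ℝ _ _)
    have := hz (x, p e.1) (by simp only [List.mem_append, List.mem_map]; exact Or.inl ⟨e, he, rfl⟩) hne
    apply notMem_segment_of_orient
    rw [orient_rev]
    exact neg_ne_zero.2 this
  have hz2 : ∀ e ∈ E, x ∉ segment ℝ (p e.2) z := by
    intro e he
    have hne : x ≠ p e.2 := fun h => hx e he (by rw [h]; exact right_mem_segment ℝ _ _)
    have := hz (x, p e.2) (by simp only [List.mem_append, List.mem_map]; exact Or.inr ⟨e, he, rfl⟩) hne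
    rw [segment_symm]
    apply notMem_segment_of_orient
    rw [orient_rev]
    exact neg_ne_zero.2 this
  have h1 : ∀ᶠ y in 𝓝 x, ∀ e ∈ E, y ∉ segment ℝ (p e.1) (p e.2) ∧ y ∉ segment ℝ z (p e.1) ∧
      y ∉ segment ℝ (p e.2) z ∧ ind y z (p e.1) (p e.2) = ind x z (p e.1) (p e.2) := by
    have : ∀ L : List (Λ × Λ), (∀ e ∈ L, e ∈ E) → ∀ᶠ y in 𝓝 x, ∀ e ∈ L, y ∉ segment ℝ (p e.1) (p e.2) ∧
        y ∉ segment ℝ z (p e.1) ∧ y ∉ segment ℝ (p e.2) z ∧
        ind y z (p e.1) (p e.2) = ind x z (p e.1) (p e.2) := by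
      intro L
      induction L with
      | nil => intro _; simp
      | cons e L ih =>
        intro hL
        have he := hL e List.mem_cons_self
        filter_upwards [ih fun e' he' => hL e' (List.mem_cons_of_mem _ he'), notMem_segment_eventually (hx e he),
          notMem_segment_eventually (hz1 e he), notMem_segment_eventually (hz2 e he),
          ind_eventually (hz1 e he) (hx e he) (hz2 e he)] with y y1 y2 y3 y4 y5 e' he'
        rcases List.mem_cons.1 he' with rfl | he'
        · exact ⟨y2, y3, y4, y5⟩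
        · exact y1 e' he'
    exact this E fun e he => he
  filter_upwards [h1] with y hy
  refine ⟨fun e he => (hy e he).1, ?_⟩
  rw [cone p hE y z (fun e he => (hy e he).1) (fun e he => (hy e he).2.1) (fun e he => (hy e he).2.2.1),
    cone p hE x z hx hz1 hz2]
  congr 1
  exact List.map_congr_left fun e he => (hy e he).2.2.2

end Pool.Agent.Lib.MP_6ff0c5_lc.K
end

section

/-!
Families of positively oriented triangles whose boundary is the boundary of one big triangle cover this triangle exactly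
once, face to face.
-/

set_option autoImplicit false

namespace Pool.Agent.Lib.MP_6ff0c5_lc.K

open Filter Topology

variable {Λ : Type*}

/-- The sum of a function over the directed edges of an oriented triangle. -/
def bsum (f : Λ → Λ → ℤ) (t : Λ × Λ × Λ) : ℤ := f t.1 t.2.1 + f t.2.1 t.2.2 + f t.2.2 t.1

/-- The directed edge from `a` to `b` is an edge of the oriented triangle `t`. -/
def IsEdge (t : Λ × Λ × Λ) (a b : Λ) : Prop :=
  (a = t.1 ∧ b = t.2.1) ∨ (a = t.2.1 ∧ b = t.2.2) ∨ (a = t.2.2 ∧ b = t.1)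

/-- `a` is a vertex of the triangle `t`. -/
def IsVert (t : Λ × Λ × Λ) (a : Λ) : Prop := a = t.1 ∨ a = t.2.1 ∨ a = t.2.2

/-- Twice the area of a triangle. -/
def otri (p : Λ → Pt) (t : Λ × Λ × Λ) : ℝ := orient (p t.1) (p t.2.1) (p t.2.2)

/-- The open triangle. -/
def OpenTri (p : Λ → Pt) (t : Λ × Λ × Λ) : Set Pt :=
  {x | 0 < orient (p t.1) (p t.2.1) x ∧ 0 < orient (p t.2.1) (p t.2.2) x ∧ 0 < orient (p t.2.2) (p t.1) x}

/-- The closed triangle. -/
def ClosedTri (p : Λ → Pt) (t : Λ × Λ × Λ) : Set Pt :=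
  {x | 0 ≤ orient (p t.1) (p t.2.1) x ∧ 0 ≤ orient (p t.2.1) (p t.2.2) x ∧ 0 ≤ orient (p t.2.2) (p t.1) x}

/-- The point `x` is on none of the lines through the edges of `t`. -/
def Off (p : Λ → Pt) (t : Λ × Λ × Λ) (x : Pt) : Prop :=
  orient (p t.1) (p t.2.1) x ≠ 0 ∧ orient (p t.2.1) (p t.2.2) x ≠ 0 ∧ orient (p t.2.2) (p t.1) x ≠ 0

theorem isOpen_openTri (p : Λ → Pt) (t : Λ × Λ × Λ) : IsOpen (OpenTri p t) :=
  (isOpen_orient_pos _ _).inter ((isOpen_orient_pos _ _).inter (isOpen_orient_pos _ _))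

theorem isClosed_closedTri (p : Λ → Pt) (t : Λ × Λ × Λ) : IsClosed (ClosedTri p t) :=
  (isClosed_le continuous_const (continuous_orient _ _)).inter
    ((isClosed_le continuous_const (continuous_orient _ _)).inter (isClosed_le continuous_const (continuous_orient _ _)))

theorem openTri_subset (p : Λ → Pt) (t : Λ × Λ × Λ) : OpenTri p t ⊆ ClosedTri p t :=
  fun _ hx => ⟨hx.1.le, hx.2.1.le, hx.2.2.le⟩

/-- the rotated triangle -/
def rot (t : Λ × Λ × Λ) : Λ × Λ × Λ := (t.2.1, t.2.2, t.1)

theorem openTri_rot (p : Λ → Pt) (t : Λ × Λ × Λ) : OpenTri p (rot t) = OpenTri p t := by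
  ext x; unfold OpenTri rot; simp only [Set.mem_ofPred_eq]; tauto

theorem closedTri_rot (p : Λ → Pt) (t : Λ × Λ × Λ) : ClosedTri p (rot t) = ClosedTri p t := by
  ext x; unfold ClosedTri rot; simp only [Set.mem_ofPred_eq]; tauto

theorem otri_rot (p : Λ → Pt) (t : Λ × Λ × Λ) : otri p (rot t) = otri p t := orient_rot _ _ _

theorem isEdge_rot (t : Λ × Λ × Λ) (a b : Λ) : IsEdge (rot t) a b ↔ IsEdge t a b := by
  unfold IsEdge rot; tauto

theorem isVert_rot (t : Λ × Λ × Λ) (a : Λ) : IsVert (rot t) a ↔ IsVert t a := by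
  unfold IsVert rot; tauto

theorem bsum_rot (f : Λ → Λ → ℤ) (t : Λ × Λ × Λ) : bsum f (rot t) = bsum f t := by
  unfold bsum rot; ring

/-- up to a rotation an edge is the first edge -/
theorem IsEdge.exists_rot {t : Λ × Λ × Λ} {a b : Λ} (h : IsEdge t a b) :
    ∃ c, t = (a, b, c) ∨ rot t = (a, b, c) ∨ rot (rot t) = (a, b, c) := by
  obtain ⟨u, v, w⟩ := t
  rcases h with ⟨rfl, rfl⟩ | ⟨rfl, rfl⟩ | ⟨rfl, rfl⟩
  · exact ⟨w, Or.inl rfl⟩
  · exact ⟨u, Or.inr (Or.inl rfl)⟩
  · exact ⟨v, Or.inr (Or.inr rfl)⟩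

theorem IsVert.exists_rot {t : Λ × Λ × Λ} {a : Λ} (h : IsVert t a) :
    ∃ b c, t = (a, b, c) ∨ rot t = (a, b, c) ∨ rot (rot t) = (a, b, c) := by
  obtain ⟨u, v, w⟩ := t
  rcases h with rfl | rfl | rfl
  · exact ⟨v, w, Or.inl rfl⟩
  · exact ⟨w, u, Or.inr (Or.inl rfl)⟩
  · exact ⟨u, v, Or.inr (Or.inr rfl)⟩

/-- The closed triangle is the closure of the open triangle: near every point of the closed triangle there are points of the
open one. -/
theorem closedTri_subset_closure {p : Λ → Pt} {t : Λ × Λ × Λ} (ht : 0 < otri p t) :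
    ClosedTri p t ⊆ closure (OpenTri p t) := by
  intro x hx
  -- the center
  set c : Pt := ((p t.1).1 / 3 + (p t.2.1).1 / 3 + (p t.2.2).1 / 3, (p t.1).2 / 3 + (p t.2.1).2 / 3 + (p t.2.2).2 / 3)
    with hc
  have hcont : Continuous fun s : ℝ => ((x.1 + s * (c.1 - x.1), x.2 + s * (c.2 - x.2)) : Pt) := by fun_prop
  have h0 := hcont.tendsto 0
  simp only [zero_mul, add_zero] at h0
  refine mem_closure_of_tendsto (h0.mono_left (nhdsWithin_le_nhds (s := Set.Ioi 0))) ?_
  have hone : ∀ᶠ s : ℝ in 𝓝[>] 0, s < 1 := by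
    filter_upwards [Ioo_mem_nhdsGT (zero_lt_one (α := ℝ))] with s hs using hs.2
  filter_upwards [self_mem_nhdsWithin, hone] with s hs hs1
  have hs' : (0 : ℝ) < s := hs
  have key : ∀ a b : Pt, orient a b (x.1 + s * (c.1 - x.1), x.2 + s * (c.2 - x.2)) =
      (1 - s) * orient a b x + s * orient a b c := by
    intro a b; unfold orient; ring
  have e1 : orient (p t.1) (p t.2.1) c = otri p t / 3 := by rw [hc]; unfold otri orient; ring
  have e2 : orient (p t.2.1) (p t.2.2) c = otri p t / 3 := by rw [hc]; unfold otri orient; ring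
  have e3 : orient (p t.2.2) (p t.1) c = otri p t / 3 := by rw [hc]; unfold otri orient; ring
  have hpos : 0 < s * (otri p t / 3) := by positivity
  refine ⟨?_, ?_, ?_⟩
  · rw [key, e1]; nlinarith [mul_nonneg (by linarith : (0:ℝ) ≤ 1 - s) hx.1]
  · rw [key, e2]; nlinarith [mul_nonneg (by linarith : (0:ℝ) ≤ 1 - s) hx.2.1]
  · rw [key, e3]; nlinarith [mul_nonneg (by linarith : (0:ℝ) ≤ 1 - s) hx.2.2]

/-- In every open set that meets a closed triangle there are generic points of the open triangle. -/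
theorem exists_generic {p : Λ → Pt} {t : Λ × Λ × Λ} (ht : 0 < otri p t) {x : Pt} (hx : x ∈ ClosedTri p t) {U : Set Pt}
    (hU : U ∈ 𝓝 x) (L : List (Pt × Pt)) :
    ∃ y ∈ U, y ∈ OpenTri p t ∧ ∀ e ∈ L, e.1 ≠ e.2 → orient e.1 e.2 y ≠ 0 := by
  obtain ⟨V, hVU, hV, hxV⟩ := mem_nhds_iff.1 hU
  have h1 : (V ∩ OpenTri p t).Nonempty := mem_closure_iff.1 (closedTri_subset_closure ht hx) V hV hxV
  obtain ⟨y, hy, hy2⟩ := (dense_generic L).exists_mem_open (hV.inter (isOpen_openTri p t)) h1
  exact ⟨y, hVU hy2.1, hy2.2, hy⟩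

theorem ne_of_otri {p : Λ → Pt} {t : Λ × Λ × Λ} (ht : 0 < otri p t) :
    p t.1 ≠ p t.2.1 ∧ p t.2.1 ≠ p t.2.2 ∧ p t.2.2 ≠ p t.1 := by
  unfold otri at ht
  refine ⟨fun h => ?_, fun h => ?_, fun h => ?_⟩
  · rw [h, orient_self_left] at ht; exact lt_irrefl _ ht
  · rw [h, orient_self_mid] at ht; exact lt_irrefl _ ht
  · rw [h, orient_self_out] at ht; exact lt_irrefl _ ht

open Classical in
/-- The crossing formula for a positively oriented triangle. -/
theorem bsum_cr {p : Λ → Pt} {t : Λ × Λ × Λ} (ht : 0 < otri p t) {x : Pt} (hx : Off p t x) :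
    bsum (fun a b => cr x (p a) (p b)) t = if x ∈ OpenTri p t then 1 else 0 := by
  unfold bsum
  rw [cr_ind (notMem_segment_of_orient hx.1) (notMem_segment_of_orient hx.2.1) (notMem_segment_of_orient hx.2.2)]
  unfold ind
  by_cases h : x ∈ OpenTri p t
  · rw [if_pos (c := x ∈ OpenTri p t) h]
    exact if_pos h
  · rw [if_neg (c := x ∈ OpenTri p t) h, if_neg, if_neg]
    · rintro ⟨h1, h2, h3⟩
      have := orient_sum (p t.1) (p t.2.1) (p t.2.2) x
      unfold otri at ht
      linarith
    · exact h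

/-- A family of positively oriented triangles that fills a big triangle `Δ`: as a chain its boundary is the boundary of
`Δ`. -/
structure Full {ι : Type*} [Fintype ι] (p : Λ → Pt) (L : ι → Λ × Λ × Λ) (Δ : Λ × Λ × Λ) : Prop where
  pos : ∀ i, 0 < otri p (L i)
  posΔ : 0 < otri p Δ
  bdry : ∀ f : Λ → Λ → ℤ, (∀ a b, f b a = -f a b) → ∑ i, bsum f (L i) = bsum f Δ

section

variable {ι : Type*} [Fintype ι] {p : Λ → Pt} {L : ι → Λ × Λ × Λ} {Δ : Λ × Λ × Λ}

/-- the edges of all triangles, as pairs of points -/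
noncomputable def allEdges (p : Λ → Pt) (L : ι → Λ × Λ × Λ) (Δ : Λ × Λ × Λ) : List (Pt × Pt) :=
  (p Δ.1, p Δ.2.1) :: (p Δ.2.1, p Δ.2.2) :: (p Δ.2.2, p Δ.1) ::
    (Finset.univ : Finset ι).toList.flatMap fun i =>
      [(p (L i).1, p (L i).2.1), (p (L i).2.1, p (L i).2.2), (p (L i).2.2, p (L i).1)]

theorem off_of_generic (h : Full p L Δ) {x : Pt} (hx : ∀ e ∈ allEdges p L Δ, e.1 ≠ e.2 → orient e.1 e.2 x ≠ 0) :
    Off p Δ x ∧ ∀ i, Off p (L i) x := by
  refine ⟨?_, fun i => ?_⟩
  · obtain ⟨h1, h2, h3⟩ := ne_of_otri h.posΔ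
    exact ⟨hx (p Δ.1, p Δ.2.1) (by simp [allEdges]) h1, hx (p Δ.2.1, p Δ.2.2) (by simp [allEdges]) h2,
      hx (p Δ.2.2, p Δ.1) (by simp [allEdges]) h3⟩
  · obtain ⟨h1, h2, h3⟩ := ne_of_otri (h.pos i)
    have hm : ∀ e, e ∈ [(p (L i).1, p (L i).2.1), (p (L i).2.1, p (L i).2.2), (p (L i).2.2, p (L i).1)] →
        e ∈ allEdges p L Δ := by
      intro e he
      unfold allEdges
      refine List.mem_cons_of_mem _ (List.mem_cons_of_mem _ (List.mem_cons_of_mem _ ?_))
      exact List.mem_flatMap.2 ⟨i, Finset.mem_toList.2 (Finset.mem_univ i), he⟩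
    exact ⟨hx _ (hm (p (L i).1, p (L i).2.1) (by simp)) h1, hx _ (hm (p (L i).2.1, p (L i).2.2) (by simp)) h2,
      hx _ (hm (p (L i).2.2, p (L i).1) (by simp)) h3⟩

open Classical in
/-- F1: generic points are in exactly one triangle, if they are in the big one, and in no triangle otherwise. -/
theorem Full.count (h : Full p L Δ) {x : Pt} (hΔ : Off p Δ x) (hx : ∀ i, Off p (L i) x) :
    ∑ i, (if x ∈ OpenTri p (L i) then (1 : ℤ) else 0) = if x ∈ OpenTri p Δ then 1 else 0 := by
  rw [← bsum_cr h.posΔ hΔ, ← h.bdry _ fun a b => cr_swap x (p a) (p b)]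
  exact Finset.sum_congr rfl fun i _ => (bsum_cr (h.pos i) (hx i)).symm

/-- F2: the open triangles are pairwise disjoint. -/
theorem Full.disjoint (h : Full p L Δ) {i j : ι} {x : Pt} (hi : x ∈ OpenTri p (L i)) (hj : x ∈ OpenTri p (L j)) :
    i = j := by
  classical
  by_contra hij
  obtain ⟨y, hy, hyi, hy2⟩ := exists_generic (h.pos i) (openTri_subset _ _ hi)
    ((isOpen_openTri p (L j)).mem_nhds hj) (allEdges p L Δ)
  obtain ⟨g1, g2⟩ := off_of_generic h hy2
  have hc := h.count g1 g2
  have h2 : (2 : ℤ) ≤ ∑ i, (if y ∈ OpenTri p (L i) then (1 : ℤ) else 0) := by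
    calc (2 : ℤ) = ∑ k ∈ ({i, j} : Finset ι), (if y ∈ OpenTri p (L k) then (1 : ℤ) else 0) := by
          rw [Finset.sum_pair hij, if_pos hyi, if_pos hy]; norm_num
      _ ≤ _ := Finset.sum_le_sum_of_subset_of_nonneg (Finset.subset_univ _) fun k _ _ => by split_ifs <;> norm_num
  have h3 : (if y ∈ OpenTri p Δ then (1 : ℤ) else 0) ≤ 1 := by split_ifs <;> norm_num
  linarith

/-- F4: a point of an open triangle is in no other closed triangle. -/
theorem Full.eq_of_mem_open (h : Full p L Δ) {i j : ι} {x : Pt} (hi : x ∈ OpenTri p (L i))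
    (hj : x ∈ ClosedTri p (L j)) : i = j := by
  obtain ⟨y, hy, hyj, -⟩ := exists_generic (h.pos j) hj ((isOpen_openTri p (L i)).mem_nhds hi) []
  exact h.disjoint hy hyj

/-- a point of an open edge of a triangle: nearby points on the left are in the open triangle -/
theorem left_of_edge {p : Λ → Pt} {t : Λ × Λ × Λ} (ht : 0 < otri p t) {a b : Λ} (he : IsEdge t a b) {x : Pt}
    (hx : x ∈ openSegment ℝ (p a) (p b)) : ∀ᶠ y in 𝓝 x, 0 < orient (p a) (p b) y → y ∈ OpenTri p t := by
  have key : ∀ c, t = (a, b, c) ∨ rot t = (a, b, c) ∨ rot (rot t) = (a, b, c) →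
      0 < otri p (a, b, c) ∧ OpenTri p t = OpenTri p (a, b, c) := by
    rintro c (h | h | h)
    · rw [h] at ht; exact ⟨ht, by rw [h]⟩
    · rw [← h, otri_rot, openTri_rot]; exact ⟨ht, rfl⟩
    · rw [← h, otri_rot, otri_rot, openTri_rot, openTri_rot]; exact ⟨ht, rfl⟩
  obtain ⟨c, hc⟩ := he.exists_rot
  obtain ⟨hpos, he'⟩ := key c hc
  rw [he']
  obtain ⟨s, r, hs, hr, hsr, rfl⟩ := hx
  have hpos' : 0 < orient (p a) (p b) (p c) := hpos
  have e1 : orient (p b) (p c) (s • p a + r • p b) = s * orient (p a) (p b) (p c) := by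
    have : s = 1 - r := by linarith
    unfold orient
    simp only [Prod.fst_add, Prod.smul_fst, smul_eq_mul, Prod.snd_add, Prod.smul_snd, this]
    ring
  have e2 : orient (p c) (p a) (s • p a + r • p b) = r * orient (p a) (p b) (p c) := by
    have : s = 1 - r := by linarith
    unfold orient
    simp only [Prod.fst_add, Prod.smul_fst, smul_eq_mul, Prod.snd_add, Prod.smul_snd, this]
    ring
  have f1 : 0 < orient (p b) (p c) (s • p a + r • p b) := by rw [e1]; positivity
  have f2 : 0 < orient (p c) (p a) (s • p a + r • p b) := by rw [e2]; positivity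
  filter_upwards [(isOpen_orient_pos _ _).mem_nhds f1, (isOpen_orient_pos _ _).mem_nhds f2] with y y1 y2 y3
  exact ⟨y3, y1, y2⟩

/-- F5: a point of an open edge is only in the two triangles with this edge. -/
theorem Full.eq_of_mem_edge (h : Full p L Δ) {i j k : ι} {a b : Λ} (hi : IsEdge (L i) a b) (hj : IsEdge (L j) b a)
    {x : Pt} (hx : x ∈ openSegment ℝ (p a) (p b)) (hk : x ∈ ClosedTri p (L k)) : k = i ∨ k = j := by
  have hab : p a ≠ p b := by
    obtain ⟨h1, h2, h3⟩ := ne_of_otri (h.pos i)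
    rcases hi with ⟨rfl, rfl⟩ | ⟨rfl, rfl⟩ | ⟨rfl, rfl⟩ <;> assumption
  obtain ⟨y, hy, hyk, hy2⟩ := exists_generic (h.pos k) hk ((left_of_edge (h.pos i) hi hx).and
    (left_of_edge (h.pos j) hj (by rw [openSegment_symm]; exact hx))) [(p a, p b)]
  have h0 := hy2 (p a, p b) (by simp) hab
  rcases lt_or_gt_of_ne h0 with h1 | h1
  · right
    exact (h.disjoint (hy.2 (by rw [orient_swap]; linarith)) hyk).symm
  · left
    exact (h.disjoint (hy.1 h1) hyk).symm

end

end Pool.Agent.Lib.MP_6ff0c5_lc.K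
end
end

section

section

/-!
The star of a vertex in a family of triangles that fills a big triangle.
-/

set_option autoImplicit false

namespace Pool.Agent.Lib.MP_6ff0c5_lc.K

open Filter Topology

variable {Λ : Type*}

/-- the three vertices of a nondegenerate triangle are different labels -/
theorem label_ne {p : Λ → Pt} {t : Λ × Λ × Λ} (ht : 0 < otri p t) : t.1 ≠ t.2.1 ∧ t.2.1 ≠ t.2.2 ∧ t.2.2 ≠ t.1 := by
  obtain ⟨h1, h2, h3⟩ := ne_of_otri ht
  exact ⟨fun h => h1 (by rw [h]), fun h => h2 (by rw [h]), fun h => h3 (by rw [h])⟩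

theorem IsEdge.left_vert {t : Λ × Λ × Λ} {a b : Λ} (h : IsEdge t a b) : IsVert t a := by
  rcases h with ⟨h, -⟩ | ⟨h, -⟩ | ⟨h, -⟩
  · exact Or.inl h
  · exact Or.inr (Or.inl h)
  · exact Or.inr (Or.inr h)

theorem IsEdge.right_vert {t : Λ × Λ × Λ} {a b : Λ} (h : IsEdge t a b) : IsVert t b := by
  rcases h with ⟨-, h⟩ | ⟨-, h⟩ | ⟨-, h⟩
  · exact Or.inr (Or.inl h)
  · exact Or.inr (Or.inr h)
  · exact Or.inl h

theorem IsEdge.ne {p : Λ → Pt} {t : Λ × Λ × Λ} (ht : 0 < otri p t) {a b : Λ} (h : IsEdge t a b) : a ≠ b := by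
  obtain ⟨h1, h2, h3⟩ := label_ne ht
  rcases h with ⟨rfl, rfl⟩ | ⟨rfl, rfl⟩ | ⟨rfl, rfl⟩ <;> assumption

theorem IsEdge.pos_ne {p : Λ → Pt} {t : Λ × Λ × Λ} (ht : 0 < otri p t) {a b : Λ} (h : IsEdge t a b) : p a ≠ p b := by
  obtain ⟨h1, h2, h3⟩ := ne_of_otri ht
  rcases h with ⟨rfl, rfl⟩ | ⟨rfl, rfl⟩ | ⟨rfl, rfl⟩ <;> assumption

/-- two different vertices of a triangle are joined by an edge -/
theorem isEdge_of_isVert {t : Λ × Λ × Λ} {a b : Λ} (ha : IsVert t a) (hb : IsVert t b) (hab : a ≠ b) :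
    IsEdge t a b ∨ IsEdge t b a := by
  unfold IsVert at ha hb
  unfold IsEdge
  rcases ha with rfl | rfl | rfl <;> rcases hb with rfl | rfl | rfl <;> simp_all

theorem eq_of_isVert {p : Λ → Pt} {t : Λ × Λ × Λ} (ht : 0 < otri p t) {a b : Λ} (ha : IsVert t a) (hb : IsVert t b)
    (hab : p a = p b) : a = b := by
  by_contra h
  rcases isEdge_of_isVert ha hb h with h1 | h1
  · exact h1.pos_ne ht hab
  · exact h1.pos_ne ht hab.symm

/-- the vertices of a triangle are in the closed triangle -/
theorem vert_mem_closedTri {p : Λ → Pt} {t : Λ × Λ × Λ} (ht : 0 < otri p t) {a : Λ} (ha : IsVert t a) :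
    p a ∈ ClosedTri p t := by
  have h := ht.le
  unfold otri at h
  unfold ClosedTri
  rcases ha with rfl | rfl | rfl
  · exact ⟨by rw [orient_self_out], by rw [orient_rot]; exact h, by rw [orient_self_mid]⟩
  · exact ⟨by rw [orient_self_mid], by rw [orient_self_out], by rw [orient_rot']; exact h⟩
  · exact ⟨h, by rw [orient_self_mid], by rw [orient_self_out]⟩

open Classical in
/-- the edge opposite to the vertex `a` -/
noncomputable def opp (a : Λ) (t : Λ × Λ × Λ) : Λ × Λ :=
  if a = t.1 then (t.2.1, t.2.2) else if a = t.2.1 then (t.2.2, t.1) else (t.1, t.2.1)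

theorem opp_spec {p : Λ → Pt} {a : Λ} {t : Λ × Λ × Λ} (ht : 0 < otri p t) (ha : IsVert t a) :
    0 < orient (p a) (p (opp a t).1) (p (opp a t).2) ∧ a ≠ (opp a t).1 ∧ a ≠ (opp a t).2 ∧
      ∀ f : Λ → Λ → ℤ, bsum f t = f a (opp a t).1 + f (opp a t).1 (opp a t).2 + f (opp a t).2 a := by
  obtain ⟨h1, h2, h3⟩ := label_ne ht
  unfold otri at ht
  unfold opp
  rcases ha with rfl | rfl | rfl
  · rw [if_pos rfl]
    exact ⟨ht, h1, h3.symm, fun f => rfl⟩
  · rw [if_neg h1.symm, if_pos rfl]
    exact ⟨by rw [orient_rot]; exact ht, h2, h1.symm, fun f => by unfold bsum; simp only; ring⟩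
  · rw [if_neg h3, if_neg h2.symm]
    exact ⟨by rw [orient_rot']; exact ht, h3, h2.symm, fun f => by unfold bsum; simp only; ring⟩

section

variable {ι : Type*} [Fintype ι] {p : Λ → Pt} {L : ι → Λ × Λ × Λ} {Δ : Λ × Λ × Λ}

open Classical in
/-- the link of a vertex -/
noncomputable def link (L : ι → Λ × Λ × Λ) (a : Λ) : List (Λ × Λ) :=
  ((Finset.univ.filter fun i => IsVert (L i) a).toList).map fun i => opp a (L i)

theorem list_sum_toList {κ : Type*} (s : Finset κ) (g : κ → ℤ) : (s.toList.map g).sum = ∑ i ∈ s, g i :=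
  Finset.sum_map_toList s g

open Classical in
theorem link_closed (h : Full p L Δ) {a : Λ} (ha : ¬ IsVert Δ a) : Closed (link L a) := by
  intro g
  unfold link
  rw [List.map_map, List.map_map]
  show ((Finset.univ.filter fun i => IsVert (L i) a).toList.map fun i => g (opp a (L i)).1).sum =
    ((Finset.univ.filter fun i => IsVert (L i) a).toList.map fun i => g (opp a (L i)).2).sum
  rw [Finset.sum_map_toList, Finset.sum_map_toList, ← sub_eq_zero, ← Finset.sum_sub_distrib]
  set f : Λ → Λ → ℤ := fun u v => (if u = a then g v else 0) - (if v = a then g u else 0) with hf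
  have hanti : ∀ u v, f v u = -f u v := fun u v => by simp only [hf]; ring
  have h1 := h.bdry f hanti
  have h2 : bsum f Δ = 0 := by
    have h3 : Δ.1 ≠ a := fun e => ha (Or.inl e.symm)
    have h4 : Δ.2.1 ≠ a := fun e => ha (Or.inr (Or.inl e.symm))
    have h5 : Δ.2.2 ≠ a := fun e => ha (Or.inr (Or.inr e.symm))
    simp [bsum, hf, h3, h4, h5]
  rw [h2] at h1
  rw [← h1, ← Finset.sum_filter_add_sum_filter_not Finset.univ (fun i => IsVert (L i) a) fun i => bsum f (L i)]
  have h6 : ∑ i ∈ Finset.univ.filter (fun i => ¬ IsVert (L i) a), bsum f (L i) = 0 := by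
    refine Finset.sum_eq_zero fun i hi => ?_
    have hi' : ¬ IsVert (L i) a := (Finset.mem_filter.1 hi).2
    have h3 : (L i).1 ≠ a := fun e => hi' (Or.inl e.symm)
    have h4 : (L i).2.1 ≠ a := fun e => hi' (Or.inr (Or.inl e.symm))
    have h5 : (L i).2.2 ≠ a := fun e => hi' (Or.inr (Or.inr e.symm))
    simp [bsum, hf, h3, h4, h5]
  rw [h6, add_zero]
  refine Finset.sum_congr rfl fun i hi => ?_
  have hi' : IsVert (L i) a := (Finset.mem_filter.1 hi).2
  obtain ⟨-, h7, h8, h9⟩ := opp_spec (h.pos i) hi'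
  rw [h9 f]
  simp only [hf, h7.symm, h8.symm, if_true, if_false]
  ring

open Classical in
theorem star_count (h : Full p L Δ) {a : Λ} (ha : ¬ IsVert Δ a) {x : Pt} (hx : ∀ i, Off p (L i) x) :
    crSum p (link L a) x = ∑ i ∈ Finset.univ.filter (fun i => IsVert (L i) a), (if x ∈ OpenTri p (L i) then (1 : ℤ) else 0) := by
  have hc := link_closed h ha fun v => cr x (p a) (p v)
  unfold link at hc
  rw [List.map_map, List.map_map] at hc
  have hc' : ((Finset.univ.filter fun i => IsVert (L i) a).toList.map fun i => cr x (p a) (p (opp a (L i)).1)).sum =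
    ((Finset.univ.filter fun i => IsVert (L i) a).toList.map fun i => cr x (p a) (p (opp a (L i)).2)).sum := hc
  rw [Finset.sum_map_toList, Finset.sum_map_toList, ← sub_eq_zero, ← Finset.sum_sub_distrib] at hc'
  unfold crSum link
  rw [List.map_map]
  show ((Finset.univ.filter fun i => IsVert (L i) a).toList.map fun i =>
    cr x (p (opp a (L i)).1) (p (opp a (L i)).2)).sum = _
  have hc2 : (∑ i ∈ Finset.univ.filter (fun i => IsVert (L i) a), cr x (p (opp a (L i)).1) (p (opp a (L i)).2)) =
      (∑ i ∈ Finset.univ.filter (fun i => IsVert (L i) a), cr x (p (opp a (L i)).1) (p (opp a (L i)).2)) +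
      ∑ i ∈ Finset.univ.filter (fun i => IsVert (L i) a),
        (cr x (p a) (p (opp a (L i)).1) - cr x (p a) (p (opp a (L i)).2)) := by rw [hc', add_zero]
  rw [Finset.sum_map_toList, hc2, ← Finset.sum_add_distrib]
  refine Finset.sum_congr rfl fun i hi => ?_
  have hi' : IsVert (L i) a := (Finset.mem_filter.1 hi).2
  obtain ⟨-, -, -, h9⟩ := opp_spec (h.pos i) hi'
  rw [← bsum_cr (h.pos i) (hx i), h9, cr_swap x (p a) (p (opp a (L i)).2)]
  ring

/-- F6: the position of a vertex is only in the triangles of its star. -/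
theorem Full.mem_vert (h : Full p L Δ) {a : Λ} (ha : ¬ IsVert Δ a) {i : ι} (hi : IsVert (L i) a) {k : ι}
    (hk : p a ∈ ClosedTri p (L k)) : IsVert (L k) a := by
  classical
  by_contra hka
  have hlink : ∀ e ∈ link L a, p a ∉ segment ℝ (p e.1) (p e.2) := by
    intro e he
    unfold link at he
    obtain ⟨j, hj, rfl⟩ := List.mem_map.1 he
    have hj' : IsVert (L j) a := (Finset.mem_filter.1 (Finset.mem_toList.1 hj)).2
    obtain ⟨h7, -⟩ := opp_spec (h.pos j) hj'
    apply notMem_segment_of_orient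
    rw [orient_rot]
    exact h7.ne'
  have hev := crSum_eventually p (link_closed h ha) hlink
  obtain ⟨y, hy, hyi, hyg⟩ := exists_generic (h.pos i) (vert_mem_closedTri (h.pos i) hi) hev (allEdges p L Δ)
  obtain ⟨-, hoff⟩ := off_of_generic h hyg
  have h1 : (1 : ℤ) ≤ crSum p (link L a) (p a) := by
    rw [← hy.2, star_count h ha hoff]
    refine le_trans ?_ (Finset.single_le_sum (f := fun i => if y ∈ OpenTri p (L i) then (1 : ℤ) else 0)
      (fun j _ => by split_ifs <;> norm_num) (Finset.mem_filter.2 ⟨Finset.mem_univ i, hi⟩))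
    rw [if_pos hyi]
  obtain ⟨y', hy', hyk, hyg'⟩ := exists_generic (h.pos k) hk hev (allEdges p L Δ)
  obtain ⟨-, hoff'⟩ := off_of_generic h hyg'
  rw [← hy'.2, star_count h ha hoff'] at h1
  have h2 : ∃ j ∈ Finset.univ.filter (fun i => IsVert (L i) a), (if y' ∈ OpenTri p (L j) then (1 : ℤ) else 0) ≠ 0 := by
    by_contra hne
    push Not at hne
    rw [Finset.sum_eq_zero hne] at h1
    omega
  obtain ⟨j, hj, hj2⟩ := h2
  have hj3 : y' ∈ OpenTri p (L j) := by
    by_contra hj3
    rw [if_neg hj3] at hj2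
    exact hj2 rfl
  have hjk := h.disjoint hj3 hyk
  subst hjk
  exact hka (Finset.mem_filter.1 hj).2

/-- F7: an edge that is not an edge of the big triangle belongs to another triangle, with the opposite direction. -/
theorem Full.twin (h : Full p L Δ) {i : ι} {a b : Λ} (hi : IsEdge (L i) a b) (h1 : ¬ IsEdge Δ a b)
    (h2 : ¬ IsEdge Δ b a) : ∃ j, IsEdge (L j) b a := by
  classical
  by_contra hno
  push Not at hno
  set f : Λ → Λ → ℤ := fun u v => (if u = a ∧ v = b then 1 else 0) - (if u = b ∧ v = a then 1 else 0) with hf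
  have hanti : ∀ u v, f v u = -f u v := by
    intro u v
    simp only [hf]
    have e1 : (v = a ∧ u = b) ↔ (u = b ∧ v = a) := and_comm
    have e2 : (v = b ∧ u = a) ↔ (u = a ∧ v = b) := and_comm
    simp only [e1, e2]
    ring
  have hb := h.bdry f hanti
  have hnn : ∀ j u v, IsEdge (L j) u v → 0 ≤ f u v := by
    intro j u v hj
    simp only [hf]
    rw [if_neg (show ¬ (u = b ∧ v = a) from fun hh => hno j (by rw [← hh.1, ← hh.2]; exact hj))]
    split_ifs <;> norm_num
  have hterm : ∀ j, 0 ≤ bsum f (L j) := by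
    intro j
    unfold bsum
    have e1 := hnn j _ _ (Or.inl ⟨rfl, rfl⟩)
    have e2 := hnn j _ _ (Or.inr (Or.inl ⟨rfl, rfl⟩))
    have e3 := hnn j _ _ (Or.inr (Or.inr ⟨rfl, rfl⟩))
    linarith
  have hab : f a b = 1 := by
    simp only [hf]
    have : ¬ (a = b ∧ b = a) := fun hh => hi.ne (h.pos i) hh.1
    simp [this]
  have hi1 : 1 ≤ bsum f (L i) := by
    unfold bsum
    have e1 := hnn i _ _ (Or.inl ⟨rfl, rfl⟩)
    have e2 := hnn i _ _ (Or.inr (Or.inl ⟨rfl, rfl⟩))
    have e3 := hnn i _ _ (Or.inr (Or.inr ⟨rfl, rfl⟩))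
    rcases hi with ⟨rfl, rfl⟩ | ⟨rfl, rfl⟩ | ⟨rfl, rfl⟩ <;> linarith
  have hΔ : bsum f Δ = 0 := by
    have key : ∀ u v, IsEdge Δ u v → f u v = 0 := by
      intro u v huv
      simp only [hf]
      rw [if_neg, if_neg]
      · norm_num
      · rintro ⟨rfl, rfl⟩; exact h2 huv
      · rintro ⟨rfl, rfl⟩; exact h1 huv
    unfold bsum
    rw [key _ _ (Or.inl ⟨rfl, rfl⟩), key _ _ (Or.inr (Or.inl ⟨rfl, rfl⟩)), key _ _ (Or.inr (Or.inr ⟨rfl, rfl⟩))]
    norm_num
  rw [hΔ] at hb
  have := Finset.single_le_sum (f := fun j => bsum f (L j)) (fun j _ => hterm j) (Finset.mem_univ i)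
  linarith

/-- F8: different labels have different positions. -/
theorem Full.inj (h : Full p L Δ) {a b : Λ} (ha : ¬ IsVert Δ a) {i j : ι} (hi : IsVert (L i) a)
    (hj : IsVert (L j) b) (hab : p a = p b) : a = b := by
  have h1 : IsVert (L j) a := h.mem_vert ha hi (by rw [hab]; exact vert_mem_closedTri (h.pos j) hj)
  exact eq_of_isVert (h.pos j) h1 hj hab

end

end Pool.Agent.Lib.MP_6ff0c5_lc.K
end

section

/-!
Closed triangles are convex hulls; affine independence; the shape of the boundary of a triangle.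
-/

set_option autoImplicit false

namespace Pool.Agent.Lib.MP_6ff0c5_lc.K

open Filter Topology

variable {Λ : Type*}

theorem orient_affine (a b x y : Pt) (s r : ℝ) (h : s + r = 1) :
    orient a b (s • x + r • y) = s * orient a b x + r * orient a b y := by
  have : s = 1 - r := by linarith
  unfold orient
  simp only [Prod.fst_add, Prod.smul_fst, smul_eq_mul, Prod.snd_add, Prod.smul_snd, this]
  ring

theorem convex_halfplane (a b : Pt) : Convex ℝ {x : Pt | 0 ≤ orient a b x} := by
  intro x hx y hy s r hs hr hsr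
  show 0 ≤ orient a b (s • x + r • y)
  rw [orient_affine a b x y s r hsr]
  have h1 : 0 ≤ orient a b x := hx
  have h2 : 0 ≤ orient a b y := hy
  positivity

theorem convex_closedTri (p : Λ → Pt) (t : Λ × Λ × Λ) : Convex ℝ (ClosedTri p t) :=
  (convex_halfplane _ _).inter ((convex_halfplane _ _).inter (convex_halfplane _ _))

/-- The closed triangle is the convex hull of its vertices. -/
theorem closedTri_eq_hull {p : Λ → Pt} {t : Λ × Λ × Λ} (ht : 0 < otri p t) :
    ClosedTri p t = convexHull ℝ {p t.1, p t.2.1, p t.2.2} := by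
  apply Set.Subset.antisymm
  · intro x hx
    obtain ⟨h1, h2, h3⟩ := hx
    have hS := orient_sum (p t.1) (p t.2.1) (p t.2.2) x
    have hB := orient_bary (p t.1) (p t.2.1) (p t.2.2) x
    have hB2 := orient_bary2 (p t.1) (p t.2.1) (p t.2.2) x
    have ht' : 0 < orient (p t.1) (p t.2.1) (p t.2.2) := ht
    set D := orient (p t.1) (p t.2.1) (p t.2.2) with hD
    have hmem : ∀ q ∈ ({p t.1, p t.2.1, p t.2.2} : Set Pt), q ∈ convexHull ℝ {p t.1, p t.2.1, p t.2.2} :=
      fun q hq => subset_convexHull ℝ _ hq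
    have hc := convex_convexHull ℝ ({p t.1, p t.2.1, p t.2.2} : Set Pt)
    have e : x = (orient (p t.2.1) (p t.2.2) x / D) • p t.1 + (orient (p t.2.2) (p t.1) x / D) • p t.2.1 +
        (orient (p t.1) (p t.2.1) x / D) • p t.2.2 := by
      apply Prod.ext
      · simp only [Prod.fst_add, Prod.smul_fst, smul_eq_mul]
        field_simp
        rw [← hS]
        linarith
      · simp only [Prod.snd_add, Prod.smul_snd, smul_eq_mul]
        field_simp
        rw [← hS]
        linarith
    rw [e]
    have h := hc.sum_mem (t := (Finset.univ : Finset (Fin 3)))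
      (w := ![orient (p t.2.1) (p t.2.2) x / D, orient (p t.2.2) (p t.1) x / D, orient (p t.1) (p t.2.1) x / D])
      (z := ![p t.1, p t.2.1, p t.2.2]) ?_ ?_ ?_
    · simpa [Fin.sum_univ_three] using h
    · intro i _
      fin_cases i
      · exact div_nonneg h2 ht'.le
      · exact div_nonneg h3 ht'.le
      · exact div_nonneg h1 ht'.le
    · simp only [Fin.sum_univ_three, Matrix.cons_val_zero, Matrix.cons_val_one, Matrix.cons_val_two, Matrix.head_cons,
        Matrix.tail_cons, Matrix.cons_val]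
      field_simp
      linarith
    · intro i _
      fin_cases i
      · exact hmem _ (by simp)
      · exact hmem _ (by simp)
      · exact hmem _ (by simp)
  · refine convexHull_min ?_ (convex_closedTri p t)
    rintro q (rfl | rfl | rfl)
    · exact vert_mem_closedTri ht (Or.inl rfl)
    · exact vert_mem_closedTri ht (Or.inr (Or.inl rfl))
    · exact vert_mem_closedTri ht (Or.inr (Or.inr rfl))

/-- Three points that are not on a line are affinely independent. -/
theorem affineIndependent_of_orient {a b c : Pt} (h : orient a b c ≠ 0) : AffineIndependent ℝ ![a, b, c] := by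
  rw [affineIndependent_iff_not_collinear_set]
  intro hcol
  apply h
  rw [collinear_iff_of_mem (p₀ := a) (by simp)] at hcol
  obtain ⟨v, hv⟩ := hcol
  obtain ⟨r, hr⟩ := hv b (by simp)
  obtain ⟨s, hs⟩ := hv c (by simp)
  rw [hr, hs]
  unfold orient
  simp only [vadd_eq_add, Prod.fst_add, Prod.smul_fst, smul_eq_mul, Prod.snd_add, Prod.smul_snd]
  ring

/-- the vertex set of a triangle of numbers -/
def vs (t : ℕ × ℕ × ℕ) : Finset ℕ := {t.1, t.2.1, t.2.2}

theorem mem_vs {t : ℕ × ℕ × ℕ} {a : ℕ} : a ∈ vs t ↔ IsVert t a := by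
  unfold vs IsVert
  simp

theorem card_vs {p : ℕ → Pt} {t : ℕ × ℕ × ℕ} (ht : 0 < otri p t) : (vs t).card = 3 := by
  obtain ⟨h1, h2, h3⟩ := label_ne ht
  unfold vs
  rw [Finset.card_eq_three]
  exact ⟨_, _, _, h1, h3.symm, h2, rfl⟩

theorem image_vs (p : ℕ → Pt) (t : ℕ × ℕ × ℕ) : p '' (vs t : Finset ℕ) = {p t.1, p t.2.1, p t.2.2} := by
  unfold vs
  simp [Set.image_insert_eq]

theorem hull_vs {p : ℕ → Pt} {t : ℕ × ℕ × ℕ} (ht : 0 < otri p t) :
    convexHull ℝ (p '' (vs t : Finset ℕ)) = ClosedTri p t := by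
  rw [image_vs, closedTri_eq_hull ht]

theorem indep_vs {p : ℕ → Pt} {t : ℕ × ℕ × ℕ} (ht : 0 < otri p t) :
    AffineIndependent ℝ fun v : vs t => p v := by
  have h1 : AffineIndependent ℝ ![p t.1, p t.2.1, p t.2.2] := affineIndependent_of_orient ht.ne'
  have h2 := h1.range
  have hr : Set.range (fun v : vs t => p v) = Set.range ![p t.1, p t.2.1, p t.2.2] := by
    have e1 : Set.range (fun v : vs t => p v) = p '' (vs t : Finset ℕ) := by
      ext x; simp
    rw [e1, image_vs]
    ext x
    simp only [Set.mem_insert_iff, Set.mem_singleton_iff, Set.mem_range]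
    constructor
    · rintro (rfl | rfl | rfl)
      · exact ⟨0, rfl⟩
      · exact ⟨1, rfl⟩
      · exact ⟨2, rfl⟩
    · rintro ⟨i, rfl⟩
      fin_cases i
      · exact Or.inl rfl
      · exact Or.inr (Or.inl rfl)
      · exact Or.inr (Or.inr rfl)
  rw [← hr] at h2
  refine AffineIndependent.of_set_of_injective h2 ?_
  rintro ⟨u, hu⟩ ⟨v, hv⟩ huv
  exact Subtype.ext (eq_of_isVert ht (mem_vs.1 hu) (mem_vs.1 hv) huv)

/-- A point of a closed triangle is in the open triangle, on an open edge, or a vertex. -/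
theorem closedTri_cases {p : Λ → Pt} {t : Λ × Λ × Λ} (ht : 0 < otri p t) {x : Pt} (hx : x ∈ ClosedTri p t) :
    x ∈ OpenTri p t ∨ (∃ a b, IsEdge t a b ∧ x ∈ openSegment ℝ (p a) (p b)) ∨ ∃ a, IsVert t a ∧ x = p a := by
  obtain ⟨h1, h2, h3⟩ := hx
  have key : ∀ a b : Λ, IsEdge t a b → x ∈ segment ℝ (p a) (p b) →
      (∃ a b, IsEdge t a b ∧ x ∈ openSegment ℝ (p a) (p b)) ∨ ∃ a, IsVert t a ∧ x = p a := by
    intro a b he hs
    rcases eq_or_ne (p a) x with h | h
    · exact Or.inr ⟨a, he.left_vert, h.symm⟩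
    rcases eq_or_ne (p b) x with h' | h'
    · exact Or.inr ⟨b, he.right_vert, h'.symm⟩
    exact Or.inl ⟨a, b, he, mem_openSegment_of_ne_left_right h h' hs⟩
  rcases eq_or_lt_of_le h1 with e1 | e1
  · exact Or.inr (key _ _ (Or.inl ⟨rfl, rfl⟩) (mem_edge_of_zero ht e1.symm h2 h3))
  rcases eq_or_lt_of_le h2 with e2 | e2
  · exact Or.inr (key _ _ (Or.inr (Or.inl ⟨rfl, rfl⟩)) (mem_edge_of_zero (by rw [orient_rot]; exact ht) e2.symm h3 h1))
  rcases eq_or_lt_of_le h3 with e3 | e3
  · exact Or.inr (key _ _ (Or.inr (Or.inr ⟨rfl, rfl⟩)) (mem_edge_of_zero (by rw [orient_rot']; exact ht) e3.symm h1 h2))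
  exact Or.inl ⟨e1, e2, e3⟩

/-- Edges are in the closed triangle. -/
theorem segment_subset_closedTri {p : Λ → Pt} {t : Λ × Λ × Λ} (ht : 0 < otri p t) {a b : Λ} (ha : IsVert t a)
    (hb : IsVert t b) : segment ℝ (p a) (p b) ⊆ ClosedTri p t :=
  (convex_closedTri p t).segment_subset (vert_mem_closedTri ht ha) (vert_mem_closedTri ht hb)

end Pool.Agent.Lib.MP_6ff0c5_lc.K
end
end
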