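import Pool.Agent.Lib.MP_6ff0c5_lc.K.Wall2

/-!
Counting triangles by the rays of a generic direction that start at the vertices.
-/

set_option autoImplicit false

namespace Pool.Agent.Lib.MP_6ff0c5_lc.K

open Filter Topology

/-- the sign of a Boolean -/
def sg (σ : Bool) : ℝ := if σ then 1 else -1

/-- the point with parameter `τ` on the ray from `x` in the direction `σ d` -/
def ray (d x : Pt) (σ : Bool) (τ : ℝ) : Pt := (x.1 + τ * (sg σ * d.1), x.2 + τ * (sg σ * d.2))

/-- the cross product of `b - a` and `d` -/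
def dx (d a b : Pt) : ℝ := (b.1 - a.1) * d.2 - (b.2 - a.2) * d.1

theorem dx_sum (d a b c : Pt) : dx d a b + dx d b c + dx d c a = 0 := by unfold dx; ring

theorem dx_swap (d a b : Pt) : dx d b a = -dx d a b := by unfold dx; ring

theorem orient_ray_left (d a b : Pt) (σ : Bool) (τ : ℝ) : orient a b (ray d a σ τ) = τ * (sg σ * dx d a b) := by
  unfold orient ray dx; ring

theorem orient_ray_right (d a c : Pt) (σ : Bool) (τ : ℝ) : orient c a (ray d a σ τ) = τ * (sg σ * dx d c a) := by
  unfold orient ray dx; ring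

theorem tendsto_ray (d x : Pt) (σ : Bool) : Tendsto (ray d x σ) (𝓝[>] 0) (𝓝 x) := by
  have h : Continuous (ray d x σ) := by unfold ray; fun_prop
  have h0 := h.tendsto 0
  have e : ray d x σ 0 = x := by unfold ray; simp
  rw [e] at h0
  exact h0.mono_left nhdsWithin_le_nhds

/-- the ray enters the region -/
def Ent (d : Pt) (R : Set Pt) (x : Pt) (σ : Bool) : Prop := ∀ᶠ τ in 𝓝[>] (0 : ℝ), ray d x σ τ ∈ R

open Classical in
/-- the number of signs for which the ray enters the region -/
noncomputable def cnt (d : Pt) (R : Set Pt) (x : Pt) : ℕ :=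
  (if Ent d R x true then 1 else 0) + if Ent d R x false then 1 else 0

/-- the vertex `v` of the triangle `t` owns the sign `σ` -/
def Own (d : Pt) (p : ℕ → Pt) (t : ℕ × ℕ × ℕ) (v : ℕ) (σ : Bool) : Prop :=
  IsVert t v ∧ Ent d (OpenTri p t) (p v) σ

theorem own_rot {d : Pt} {p : ℕ → Pt} {t : ℕ × ℕ × ℕ} {v : ℕ} {σ : Bool} : Own d p (rot t) v σ ↔ Own d p t v σ := by
  unfold Own; rw [isVert_rot, openTri_rot]

theorem ent_open_iff {d : Pt} {p : ℕ → Pt} {a b c : ℕ} (h : 0 < orient (p a) (p b) (p c)) (σ : Bool) :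
    Ent d (OpenTri p (a, b, c)) (p a) σ ↔ 0 < sg σ * dx d (p a) (p b) ∧ 0 < sg σ * dx d (p c) (p a) := by
  constructor
  · intro he
    obtain ⟨τ, h1, h2⟩ := (Filter.Eventually.and he self_mem_nhdsWithin).exists
    have h2' : (0 : ℝ) < τ := h2
    have g1 : 0 < orient (p a) (p b) (ray d (p a) σ τ) := h1.1
    have g2 : 0 < orient (p c) (p a) (ray d (p a) σ τ) := h1.2.2
    rw [orient_ray_left] at g1
    rw [orient_ray_right] at g2
    exact ⟨pos_of_mul_pos_right g1 h2'.le, pos_of_mul_pos_right g2 h2'.le⟩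
  · rintro ⟨h1, h2⟩
    have h3 : ∀ᶠ τ in 𝓝[>] (0 : ℝ), 0 < orient (p b) (p c) (ray d (p a) σ τ) := by
      have h4 : 0 < orient (p b) (p c) (p a) := by rw [orient_rot]; exact h
      exact (tendsto_ray d (p a) σ).eventually ((isOpen_orient_pos _ _).mem_nhds h4)
    filter_upwards [h3, self_mem_nhdsWithin] with τ h4 h5
    have h5' : (0 : ℝ) < τ := h5
    refine ⟨?_, h4, ?_⟩
    · show 0 < orient (p a) (p b) _
      rw [orient_ray_left]; positivity
    · show 0 < orient (p c) (p a) _
      rw [orient_ray_right]; positivity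

end Pool.Agent.Lib.MP_6ff0c5_lc.K
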