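import Pool.Agent.Lib.MP_6ff0c5_lc.K.Hull

/-!
Closed polygons as chains: crossing parity and crossing numbers.
-/

set_option autoImplicit false

namespace Pool.Agent.Lib.MP_6ff0c5_lc.K

open Filter Topology

/-- The sum of a function over directed edges. -/
def lsum {Λ : Type*} (f : Λ → Λ → ℤ) (E : List (Λ × Λ)) : ℤ := (E.map fun e => f e.1 e.2).sum

theorem length_cycEdges (c : List ℕ) : (cycEdges c).length = c.length := by
  unfold cycEdges; simp

theorem map_fst_cycEdges (c : List ℕ) : (cycEdges c).map Prod.fst = c := by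
  unfold cycEdges; exact List.map_fst_zip (by simp)

theorem map_snd_cycEdges (c : List ℕ) : (cycEdges c).map Prod.snd = c.rotate 1 := by
  unfold cycEdges; exact List.map_snd_zip (by simp)

theorem mem_of_mem_cycEdges {c : List ℕ} {a b : ℕ} (h : (a, b) ∈ cycEdges c) : a ∈ c ∧ b ∈ c := by
  have := List.of_mem_zip h
  exact ⟨this.1, List.mem_rotate.1 this.2⟩

theorem closed_cycEdges (c : List ℕ) : Closed (cycEdges c) := by
  intro g
  have h1 : ((cycEdges c).map fun e => g e.1) = ((cycEdges c).map Prod.fst).map g := by rw [List.map_map]; rfl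
  have h2 : ((cycEdges c).map fun e => g e.2) = ((cycEdges c).map Prod.snd).map g := by rw [List.map_map]; rfl
  rw [h1, h2, map_fst_cycEdges, map_snd_cycEdges]
  exact (((List.rotate_perm c 1).map g).sum_eq).symm

theorem getElem_cycEdges (l : List ℕ) (i : ℕ) (hi : i < (cycEdges l).length) (h1 : i < l.length)
    (h2 : (i + 1) % l.length < l.length) :
    (cycEdges l)[i] = (l[i], l[(i + 1) % l.length]) := by
  unfold cycEdges
  rw [List.getElem_zip, List.getElem_rotate]

theorem rev_notMem_cycEdges {c : List ℕ} (hc : c.Nodup) (h3 : 3 ≤ c.length) {a b : ℕ} (h : (a, b) ∈ cycEdges c) :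
    (b, a) ∉ cycEdges c := by
  intro h'
  obtain ⟨i, hi, e1⟩ := List.getElem_of_mem h
  obtain ⟨j, hj, e2⟩ := List.getElem_of_mem h'
  have hn : 0 < c.length := by omega
  have hi' : i < c.length := by rwa [length_cycEdges] at hi
  have hj' : j < c.length := by rwa [length_cycEdges] at hj
  rw [getElem_cycEdges c i hi hi' (Nat.mod_lt _ hn)] at e1
  rw [getElem_cycEdges c j hj hj' (Nat.mod_lt _ hn)] at e2
  obtain ⟨a1, b1⟩ := Prod.mk.inj e1
  obtain ⟨b2, a2⟩ := Prod.mk.inj e2
  have k1 : (i + 1) % c.length = j := (hc.getElem_inj_iff).1 (b1.trans b2.symm)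
  have k2 : (j + 1) % c.length = i := (hc.getElem_inj_iff).1 (a2.trans a1.symm)
  rw [← k1] at k2
  rw [Nat.mod_add_mod] at k2
  have k3 : (i + 1 + 1) % c.length = i % c.length := by rw [k2, Nat.mod_eq_of_lt hi']
  have k4 := (Nat.ModEq.add_left_cancel' i (show i + 2 ≡ i + 0 [MOD c.length] from k3))
  have k5 : 2 % c.length = 0 := by simpa [Nat.ModEq] using k4
  rw [Nat.mod_eq_of_lt (by omega)] at k5
  omega

theorem nodup_cycEdges {c : List ℕ} (hc : c.Nodup) : (cycEdges c).Nodup := by
  apply List.Nodup.of_map Prod.fst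
  rw [map_fst_cycEdges]
  exact hc

/-- the antisymmetric indicator of a directed edge -/
def del (a b : ℕ) (u v : ℕ) : ℤ := (if u = a ∧ v = b then 1 else 0) - (if u = b ∧ v = a then 1 else 0)

theorem del_anti (a b u v : ℕ) : del a b v u = -del a b u v := by
  unfold del
  have e1 : (v = a ∧ u = b) ↔ (u = b ∧ v = a) := and_comm
  have e2 : (v = b ∧ u = a) ↔ (u = a ∧ v = b) := and_comm
  simp only [e1, e2]
  ring

theorem lsum_del (a b : ℕ) (E : List (ℕ × ℕ)) : lsum (del a b) E = (E.count (a, b) : ℤ) - E.count (b, a) := by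
  unfold lsum
  induction E with
  | nil => simp
  | cons e E ih =>
    rw [List.map_cons, List.sum_cons, ih, List.count_cons, List.count_cons]
    obtain ⟨u, v⟩ := e
    unfold del
    have e1 : (((u, v) : ℕ × ℕ) == (a, b)) = decide (u = a ∧ v = b) := by
      rw [Bool.eq_iff_iff]; simp
    have e2 : (((u, v) : ℕ × ℕ) == (b, a)) = decide (u = b ∧ v = a) := by
      rw [Bool.eq_iff_iff]; simp
    simp only [e1, e2, decide_eq_true_eq]
    push_cast
    ring

theorem lsum_del_cyc {c : List ℕ} (hc : c.Nodup) (h3 : 3 ≤ c.length) {a b : ℕ} (h : (a, b) ∈ cycEdges c) :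
    lsum (del a b) (cycEdges c) = 1 := by
  rw [lsum_del, List.count_eq_one_of_mem (nodup_cycEdges hc) h,
    List.count_eq_zero_of_not_mem (rev_notMem_cycEdges hc h3 h)]
  norm_num

theorem lsum_del_cyc_of_notMem {c : List ℕ} {a b : ℕ} (h : a ∉ c) : lsum (del a b) (cycEdges c) = 0 := by
  rw [lsum_del, List.count_eq_zero_of_not_mem fun h' => h (mem_of_mem_cycEdges h').1,
    List.count_eq_zero_of_not_mem fun h' => h (mem_of_mem_cycEdges h').2]
  norm_num

/-! ### Parity -/

open Classical in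
theorem cr_parity (x a b : Pt) : Even (cr x a b - (if Crosses x a b then 1 else 0 : ℤ)) := by
  classical
  unfold cr Crosses
  rw [orient_swap a b x]
  by_cases h1 : b.1 ≤ x.1 ∧ x.1 < a.1 ∧ 0 < orient a b x
  · have h2 : ¬ (a.1 ≤ x.1 ∧ x.1 < b.1 ∧ orient a b x < 0) := fun h => by linarith [h.2.2, h1.2.2]
    have h3 : (b.1 ≤ x.1 ∧ x.1 < a.1 ∧ -orient a b x < 0) := ⟨h1.1, h1.2.1, by linarith [h1.2.2]⟩
    rw [if_pos h1, if_neg h2, if_pos (Or.inr h3)]
    exact ⟨0, by norm_num⟩
  · by_cases h2 : a.1 ≤ x.1 ∧ x.1 < b.1 ∧ orient a b x < 0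
    · rw [if_neg h1, if_pos h2, if_pos (Or.inl h2)]
      exact ⟨-1, by norm_num⟩
    · have h3 : ¬ ((a.1 ≤ x.1 ∧ x.1 < b.1 ∧ orient a b x < 0) ∨ (b.1 ≤ x.1 ∧ x.1 < a.1 ∧ -orient a b x < 0)) := by
        rintro (h | h)
        · exact h2 h
        · exact h1 ⟨h.1, h.2.1, by linarith [h.2.2]⟩
      rw [if_neg h1, if_neg h2, if_neg h3]
      exact ⟨0, by norm_num⟩

open Classical in
theorem count_parity (p : ℕ → Pt) (E : List (ℕ × ℕ)) (x : Pt) :
    Even (crSum p E x - ((E.countP fun e => decide (Crosses x (p e.1) (p e.2)) : ℕ) : ℤ)) := by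
  unfold crSum
  induction E with
  | nil => simp
  | cons e E ih =>
    rw [List.map_cons, List.sum_cons, List.countP_cons]
    have h := cr_parity x (p e.1) (p e.2)
    have e1 : (cr x (p e.1) (p e.2) + (E.map fun e => cr x (p e.1) (p e.2)).sum -
        ((E.countP (fun e => decide (Crosses x (p e.1) (p e.2))) +
          if decide (Crosses x (p e.1) (p e.2)) = true then 1 else 0 : ℕ) : ℤ)) =
        (cr x (p e.1) (p e.2) - (if Crosses x (p e.1) (p e.2) then 1 else 0 : ℤ)) +
        ((E.map fun e => cr x (p e.1) (p e.2)).sum - (E.countP (fun e => decide (Crosses x (p e.1) (p e.2))) : ℕ)) := by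
      push_cast
      simp only [decide_eq_true_eq]
      ring
    rw [e1]
    exact h.add ih

/-- The even–odd rule, in terms of the signed crossing number. -/
theorem inside_iff (p : ℕ → Pt) (c : List ℕ) (x : Pt) : Inside p c x ↔ Odd (crSum p (cycEdges c) x) := by
  classical
  have h := count_parity p (cycEdges c) x
  unfold Inside crossings
  rw [← Int.odd_coe_nat]
  constructor
  · intro h1
    have := h.add_odd h1
    rwa [sub_add_cancel] at this
  · intro h1
    have := h1.sub_even h
    rwa [sub_sub_cancel] at this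

theorem inside_congr {p q : ℕ → Pt} {c : List ℕ} (h : ∀ v ∈ c, p v = q v) (x : Pt) : Inside p c x ↔ Inside q c x := by
  unfold Inside crossings
  have : ∀ e ∈ cycEdges c, Crosses x (p e.1) (p e.2) ↔ Crosses x (q e.1) (q e.2) := by
    intro e he
    obtain ⟨h1, h2⟩ := mem_of_mem_cycEdges (a := e.1) (b := e.2) he
    rw [h _ h1, h _ h2]
  rw [List.countP_congr]
  intro e he
  simp only [decide_eq_true_eq]
  exact this e he

/-- Off the polygon the even–odd rule is locally constant. -/
theorem inside_eventually (p : ℕ → Pt) (c : List ℕ) {x : Pt}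
    (hx : ∀ e ∈ cycEdges c, x ∉ segment ℝ (p e.1) (p e.2)) :
    ∀ᶠ y in 𝓝 x, (∀ e ∈ cycEdges c, y ∉ segment ℝ (p e.1) (p e.2)) ∧ (Inside p c y ↔ Inside p c x) := by
  filter_upwards [crSum_eventually p (closed_cycEdges c) hx] with y hy
  exact ⟨hy.1, by rw [inside_iff, inside_iff, hy.2]⟩

end Pool.Agent.Lib.MP_6ff0c5_lc.K
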